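import Mathlib

/-!
Basic tools: divisibility in the ring of algebraic integers of `ℂ`, orbit sums, traces of
operators of finite order.
-/

namespace Pool.Agent.H42.Wilde

open Finset

/-- If for every prime `r` some multiple of `w` by an integer prime to `r` is an algebraic
integer, then so is `w`. -/
theorem isIntegral_of_forall_prime (w : ℂ)
    (h : ∀ r : ℕ, r.Prime → ∃ k : ℕ, ¬ r ∣ k ∧ IsIntegral ℤ ((k : ℂ) * w)) :
    IsIntegral ℤ w := by
  let I : Ideal ℤ :=
    { carrier := {k : ℤ | IsIntegral ℤ ((k : ℂ) * w)}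
      add_mem' := by
        intro a b ha hb
        have := IsIntegral.add ha hb
        simpa [Set.mem_ofPred_eq, add_mul] using this
      zero_mem' := by simpa using (isIntegral_zero : IsIntegral ℤ (0 : ℂ))
      smul_mem' := by
        intro c x hx
        have h1 : IsIntegral ℤ ((c : ℂ)) := by
          simpa using (isIntegral_algebraMap : IsIntegral ℤ (algebraMap ℤ ℂ c))
        have := IsIntegral.mul h1 hx
        simpa [Set.mem_ofPred_eq, mul_assoc] using this }
  obtain ⟨g, hg⟩ := (IsPrincipalIdealRing.principal I).principal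
  have hmem : ∀ k : ℤ, k ∈ I ↔ g ∣ k := by
    intro k
    rw [hg]
    exact Ideal.mem_span_singleton
  have h1 : g.natAbs = 1 := by
    by_contra hne
    obtain ⟨r, hr, hrg⟩ := Nat.exists_prime_and_dvd hne
    obtain ⟨k, hk, hkw⟩ := h r hr
    have : (k : ℤ) ∈ I := by
      change IsIntegral ℤ (((k : ℤ) : ℂ) * w)
      simpa using hkw
    rw [hmem] at this
    apply hk
    have h2 : g.natAbs ∣ k := by
      have := Int.natAbs_dvd_natAbs.mpr this
      simpa using this
    exact hrg.trans h2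
  have h2 : (1 : ℤ) ∈ I := by
    rw [hmem]
    exact Int.isUnit_iff_natAbs_eq.mpr h1 |>.dvd
  have h3 : IsIntegral ℤ (((1 : ℤ) : ℂ) * w) := h2
  simpa using h3

theorem isIntegral_natCast (n : ℕ) : IsIntegral ℤ (n : ℂ) := by
  simpa using (isIntegral_algebraMap : IsIntegral ℤ (algebraMap ℤ ℂ (n : ℤ)))

theorem isIntegral_intCast (n : ℤ) : IsIntegral ℤ (n : ℂ) := by
  simpa using (isIntegral_algebraMap : IsIntegral ℤ (algebraMap ℤ ℂ n))

/-- Orbit sums. -/
theorem isIntegral_sum_of_orbit {G Y : Type*} [Group G] [Finite G] [MulAction G Y] [Fintype Y]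
    (A : Y → ℂ) (hA : ∀ (g : G) (y : Y), A (g • y) = A y) (c : ℂ)
    (h : ∀ y : Y, IsIntegral ℤ (c * (Nat.card (MulAction.orbit G y) : ℂ) * A y)) :
    IsIntegral ℤ (c * ∑ y, A y) := by
  classical
  have key : ∑ y, A y = ∑ ω : MulAction.orbitRel.Quotient G Y,
      ∑ y ∈ univ.filter (fun y : Y => (Quotient.mk'' y : MulAction.orbitRel.Quotient G Y) = ω), A y := by
    exact (Finset.sum_fiberwise _ _ _).symm
  rw [key, Finset.mul_sum]
  apply IsIntegral.sum
  intro ω _
  obtain ⟨y, rfl⟩ := Quotient.mk''_surjective ω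
  have h1 : ∀ z ∈ univ.filter (fun z : Y =>
      (Quotient.mk'' z : MulAction.orbitRel.Quotient G Y) = Quotient.mk'' y), A z = A y := by
    intro z hz
    rw [Finset.mem_filter] at hz
    have h2 := hz.2
    rw [Quotient.eq''] at h2
    obtain ⟨g, rfl⟩ := h2
    exact hA g y
  rw [Finset.sum_congr rfl h1, Finset.sum_const, nsmul_eq_mul]
  have h3 : #(univ.filter (fun z : Y =>
      (Quotient.mk'' z : MulAction.orbitRel.Quotient G Y) = Quotient.mk'' y))
      = Nat.card (MulAction.orbit G y) := by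
    rw [Nat.card_eq_fintype_card, ← Set.toFinset_card]
    congr 1
    ext z
    simp only [mem_filter, mem_univ, true_and, Set.mem_toFinset]
    rw [Quotient.eq'']
    rfl
  rw [h3, ← mul_assoc]
  exact h y

/-- Traces of the powers of an operator `T` with `T ^ (N+1) = T`. -/
theorem exists_trace_pow {V : Type*} [AddCommGroup V] [Module ℂ V] [FiniteDimensional ℂ V]
    (N : ℕ) (hN : N ≠ 0) (ζ : ℂ) (hζ : IsPrimitiveRoot ζ N) (T : Module.End ℂ V)
    (hT : T ^ (N + 1) = T) :
    ∃ d : ℕ → ℕ, ∀ k : ℕ, 1 ≤ k →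
      LinearMap.trace ℂ V (T ^ k) = ∑ i ∈ range N, ζ ^ (i * k) * (d i : ℂ) := by
  classical
  have hN' : (N : ℂ) ≠ 0 := by exact_mod_cast hN
  let E : ℕ → Module.End ℂ V := fun i =>
    (N : ℂ)⁻¹ • ∑ k ∈ range N, ζ ^ (i * (N - 1 - k)) • T ^ (k + 1)
  have hζN : ζ ^ N = 1 := hζ.pow_eq_one
  -- T * E i = ζ^i • E i
  have hTE : ∀ i, T * E i = ζ ^ i • E i := by
    intro i
    simp only [E]
    rw [mul_smul_comm, smul_comm (ζ ^ i)]
    congr 1
    rw [Finset.mul_sum, Finset.smul_sum]
    obtain ⟨M, rfl⟩ := Nat.exists_eq_succ_of_ne_zero hN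
    rw [Finset.sum_range_succ, Finset.sum_range_succ' (fun k => ζ ^ i • ζ ^ (i * (M.succ - 1 - k)) • T ^ (k + 1))]
    congr 1
    · apply Finset.sum_congr rfl
      intro k hk
      rw [Finset.mem_range] at hk
      rw [mul_smul_comm, smul_smul, ← pow_succ', ← pow_add]
      congr 2
      have : M.succ - 1 - k = (M.succ - 1 - (k + 1)) + 1 := by omega
      rw [this]
      ring
    · simp only [Nat.succ_eq_add_one, Nat.add_sub_cancel, Nat.sub_self, mul_zero, pow_zero, one_smul,
        Nat.sub_zero, zero_add, pow_one]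
      rw [smul_smul, ← pow_add, ← pow_succ', hT]
      have : i + i * M = (M + 1) * i := by ring
      rw [this, pow_mul, hζN, one_pow, one_smul]
  have hTkE : ∀ k i, T ^ k * E i = ζ ^ (i * k) • E i := by
    intro k i
    induction k with
    | zero => simp
    | succ k ih =>
      rw [pow_succ', mul_assoc, ih, mul_smul_comm, hTE, smul_smul, ← pow_add]
      congr 2
  have hEE : ∀ i, IsIdempotentElem (E i) := by
    intro i
    have h0 : E i * E i = ((N : ℂ)⁻¹ • ∑ k ∈ range N, ζ ^ (i * (N - 1 - k)) • T ^ (k + 1)) * E i := rfl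
    unfold IsIdempotentElem
    rw [h0, smul_mul_assoc, Finset.sum_mul]
    have h1 : ∀ k ∈ range N, (ζ ^ (i * (N - 1 - k)) • T ^ (k + 1)) * E i = E i := by
      intro k hk
      rw [Finset.mem_range] at hk
      rw [smul_mul_assoc, hTkE, smul_smul, ← pow_add]
      have : i * (N - 1 - k) + i * (k + 1) = N * i := by
        rw [← Nat.mul_add]
        have : N - 1 - k + (k + 1) = N := by omega
        rw [this, Nat.mul_comm]
      rw [this, pow_mul, hζN, one_pow, one_smul]
    rw [Finset.sum_congr rfl h1, Finset.sum_const, Finset.card_range, ← Nat.cast_smul_eq_nsmul ℂ,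
      smul_smul, inv_mul_cancel₀ hN', one_smul]
  have hsum : T = ∑ i ∈ range N, ζ ^ i • E i := by
    simp only [E]
    have h1 : ∀ i ∈ range N, ζ ^ i • (N : ℂ)⁻¹ • ∑ k ∈ range N, ζ ^ (i * (N - 1 - k)) • T ^ (k + 1)
        = ∑ k ∈ range N, ((N : ℂ)⁻¹ * (ζ ^ (N - k)) ^ i) • T ^ (k + 1) := by
      intro i _
      rw [smul_comm, Finset.smul_sum, Finset.smul_sum]
      apply Finset.sum_congr rfl
      intro k hk
      rw [Finset.mem_range] at hk
      rw [smul_smul, smul_smul, mul_assoc, ← pow_add, ← pow_mul]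
      congr 3
      have : N - k = (N - 1 - k) + 1 := by omega
      rw [this]
      ring
    rw [Finset.sum_congr rfl h1, Finset.sum_comm]
    have h2 : ∀ k ∈ range N, ∑ i ∈ range N, ((N : ℂ)⁻¹ * (ζ ^ (N - k)) ^ i) • T ^ (k + 1)
        = if k = 0 then T else 0 := by
      intro k hk
      rw [Finset.mem_range] at hk
      rw [← Finset.sum_smul, ← Finset.mul_sum]
      split_ifs with h0
      · subst h0
        simp [hζN, hN']
      · have hne : ζ ^ (N - k) ≠ 1 := by
          intro h
          have := (hζ.pow_eq_one_iff_dvd _).mp h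
          have := Nat.le_of_dvd (by omega) this
          omega
        have h3 : (∑ i ∈ range N, (ζ ^ (N - k)) ^ i) * (ζ ^ (N - k) - 1) = 0 := by
          rw [geom_sum_mul, ← pow_mul, mul_comm, pow_mul, hζN, one_pow, sub_self]
        have h4 : (∑ i ∈ range N, (ζ ^ (N - k)) ^ i) = 0 :=
          (mul_eq_zero.mp h3).resolve_right (sub_ne_zero.mpr hne)
        rw [h4, mul_zero, zero_smul]
    rw [Finset.sum_congr rfl h2, Finset.sum_ite_eq' (range N) 0 (fun _ => T)]
    simp [Nat.pos_of_ne_zero hN]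
  refine ⟨fun i => Module.finrank ℂ (LinearMap.range (E i)), ?_⟩
  intro k hk
  have h1 : T ^ k = ∑ i ∈ range N, ζ ^ (i * k) • E i := by
    obtain ⟨m, rfl⟩ : ∃ m, k = m + 1 := ⟨k - 1, by omega⟩
    rw [pow_succ]
    conv_lhs => rw [show T ^ m * T = T ^ m * ∑ i ∈ range N, ζ ^ i • E i by rw [← hsum]]
    rw [Finset.mul_sum]
    apply Finset.sum_congr rfl
    intro i _
    rw [mul_smul_comm, hTkE, smul_smul, ← pow_add]
    congr 2
    ring
  rw [h1, map_sum]
  apply Finset.sum_congr rfl
  intro i _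
  rw [map_smul, smul_eq_mul]
  congr 1
  exact (LinearMap.IsIdempotentElem.isProj_range _ (hEE i)).trace

end Pool.Agent.H42.Wilde
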