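import Mathlib
import Pool.Agent.H42.Wilde.Basic

/-!
Values of characters: expansions in roots of unity, complex conjugation, central characters.
-/

namespace Pool.Agent.H42.Wilde

open Finset Representation

variable {G V : Type*} [Group G] [Finite G] [AddCommGroup V] [Module ℂ V] [FiniteDimensional ℂ V]
  (ρ : Representation ℂ G V)

omit [Finite G] in
theorem exists_char_pow (N : ℕ) (hN : N ≠ 0) (ζ : ℂ) (hζ : IsPrimitiveRoot ζ N) (g : G)
    (hg : g ^ N = 1) :
    ∃ d : ℕ → ℕ, ∀ k : ℕ, 1 ≤ k →
      ρ.character (g ^ k) = ∑ i ∈ range N, ζ ^ (i * k) * (d i : ℂ) := by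
  have hT : (ρ g) ^ (N + 1) = ρ g := by
    rw [← map_pow, pow_succ, hg, one_mul]
  obtain ⟨d, hd⟩ := exists_trace_pow N hN ζ hζ (ρ g) hT
  refine ⟨d, fun k hk => ?_⟩
  rw [← hd k hk, ← map_pow]
  rfl

theorem isIntegral_char (g : G) : IsIntegral ℤ (ρ.character g) := by
  have hN : Nat.card G ≠ 0 := Nat.card_pos.ne'
  have hζ := Complex.isPrimitiveRoot_exp (Nat.card G) hN
  obtain ⟨d, hd⟩ := exists_char_pow ρ (Nat.card G) hN _ hζ g pow_card_eq_one'
  have h1 := hd 1 le_rfl
  rw [pow_one] at h1
  rw [h1]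
  apply IsIntegral.sum
  intro i _
  exact IsIntegral.mul (IsIntegral.pow (hζ.isIntegral (Nat.pos_of_ne_zero hN)) _)
    (isIntegral_natCast _)

theorem char_inv (g : G) : ρ.character g⁻¹ = starRingEnd ℂ (ρ.character g) := by
  have hN : Nat.card G ≠ 0 := Nat.card_pos.ne'
  set N := Nat.card G with hNdef
  have hζ := Complex.isPrimitiveRoot_exp N hN
  set ζ := Complex.exp (2 * Real.pi * Complex.I / N) with hζdef
  have hgN : g ^ N = 1 := pow_card_eq_one'
  obtain ⟨d, hd⟩ := exists_char_pow ρ N hN _ hζ g hgN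
  have hζ1 : ζ ^ N = 1 := hζ.pow_eq_one
  have hconj : starRingEnd ℂ ζ = ζ⁻¹ := by
    rw [Complex.inv_eq_conj]
    exact hζ.norm'_eq_one hN
  rcases Nat.lt_or_ge 1 N with h1 | h1
  · have hginv : g⁻¹ = g ^ (N - 1) := by
      rw [inv_eq_iff_mul_eq_one, ← pow_succ']
      rw [show N - 1 + 1 = N by omega]
      exact hgN
    have h2 := hd (N - 1) (by omega)
    have h3 := hd 1 le_rfl
    rw [pow_one] at h3
    rw [hginv, h2, h3, map_sum]
    apply Finset.sum_congr rfl
    intro i _
    rw [map_mul, map_pow, hconj, Complex.conj_natCast]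
    congr 1
    rw [mul_one, inv_pow]
    apply eq_inv_of_mul_eq_one_left
    rw [← pow_add]
    have : i * (N - 1) + i = N * i := by
      obtain ⟨M, hM⟩ : ∃ M, N = M + 1 := ⟨N - 1, by omega⟩
      rw [hM, Nat.add_sub_cancel]
      ring
    rw [this, pow_mul, hζ1, one_pow]
  · have hN1 : N = 1 := by omega
    have hg1 : g = 1 := by simpa [hN1] using hgN
    rw [hg1, inv_one, char_one, Complex.conj_natCast]

theorem char_mul_char_inv (g : G) :
    ρ.character g * ρ.character g⁻¹ = ((Complex.normSq (ρ.character g) : ℝ) : ℂ) := by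
  rw [char_inv, Complex.mul_conj]

/-- The size of the conjugacy class. -/
noncomputable def clCard (g : G) : ℕ := Nat.card (MulAction.orbit (ConjAct G) g)

omit [Finite G] in
theorem isConj_inv_inv {a b : G} (h : IsConj a b) : IsConj a⁻¹ b⁻¹ := by
  obtain ⟨c, rfl⟩ := isConj_iff.mp h
  refine isConj_iff.mpr ⟨c, ?_⟩
  group

omit [Finite G] in
theorem clCard_inv (g : G) : clCard g⁻¹ = clCard g := by
  unfold clCard
  apply Nat.card_congr
  refine ⟨fun x => ⟨x.1⁻¹, ?_⟩, fun x => ⟨x.1⁻¹, ?_⟩, fun x => by simp, fun x => by simp⟩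
  · have := ConjAct.mem_orbit_conjAct.mp x.2
    rw [ConjAct.mem_orbit_conjAct]
    simpa using isConj_inv_inv this
  · have := ConjAct.mem_orbit_conjAct.mp x.2
    rw [ConjAct.mem_orbit_conjAct]
    exact isConj_inv_inv this

theorem isIntegral_central [ρ.IsIrreducible] (g : G) :
    IsIntegral ℤ ((clCard g : ℂ) * ρ.character g / (Module.finrank ℂ V : ℂ)) := by
  classical
  have : Fintype G := Fintype.ofFinite G
  let s : Finset G := univ.filter (fun y => IsConj g y)
  let K : Module.End ℂ V := ∑ y ∈ s, ρ y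
  -- K commutes with G
  have hcomm : ∀ h : G, ρ h * K = K * ρ h := by
    intro h
    have h1 : ρ h * K * ρ h⁻¹ = K := by
      simp only [K]
      rw [Finset.mul_sum, Finset.sum_mul]
      apply Finset.sum_bij' (fun y _ => h * y * h⁻¹) (fun y _ => h⁻¹ * y * h)
      · intro y hy
        simp only [s, mem_filter, mem_univ, true_and] at hy ⊢
        exact hy.trans (isConj_iff.mpr ⟨h, rfl⟩)
      · intro y hy
        simp only [s, mem_filter, mem_univ, true_and] at hy ⊢
        exact hy.trans (isConj_iff.mpr ⟨h⁻¹, by simp⟩)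
      · intro y _
        group
      · intro y _
        group
      · intro y _
        rw [map_mul, map_mul]
    calc ρ h * K = ρ h * K * (ρ h⁻¹ * ρ h) := by rw [← map_mul]; simp
      _ = (ρ h * K * ρ h⁻¹) * ρ h := by simp only [mul_assoc]
      _ = K * ρ h := by rw [h1]
  let f : IntertwiningMap ρ ρ := ⟨K, by
    intro h
    exact (hcomm h).symm⟩
  obtain ⟨c, hc⟩ := (IsIrreducible.algebraMap_intertwiningMap_bijective_of_isAlgClosed
    (ρ := ρ)).surjective f
  have hK : K = algebraMap ℂ (Module.End ℂ V) c := by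
    have h1 : f.toLinearMap = K := rfl
    rw [← h1, ← hc, IntertwiningMap.algebraMap_apply]
    rfl
  have hnt : Nontrivial V := by
    by_contra hV
    rw [not_nontrivial_iff_subsingleton] at hV
    have h1 : (⊥ : Subrepresentation ρ) = ⊤ := by
      apply Subrepresentation.toSubmodule_injective
      exact Subsingleton.elim _ _
    exact bot_ne_top h1
  have hint : IsIntegral ℤ K := by
    let F : MonoidAlgebra ℤ G →ₐ[ℤ] Module.End ℂ V := MonoidAlgebra.lift ℤ (Module.End ℂ V) G ρ
    have h1 : F (∑ y ∈ s, MonoidAlgebra.of ℤ G y) = K := by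
      rw [map_sum]
      apply Finset.sum_congr rfl
      intro y _
      simp [F]
    rw [← h1]
    have h2 : IsIntegral ℤ (∑ y ∈ s, MonoidAlgebra.of ℤ G y) :=
      (Algebra.IsIntegral.of_finite ℤ (MonoidAlgebra ℤ G)).isIntegral _
    exact h2.map F
  have hcint : IsIntegral ℤ c := by
    rw [hK] at hint
    exact (isIntegral_algebraMap_iff (FaithfulSMul.algebraMap_injective ℂ (Module.End ℂ V))).mp hint
  have htr : (clCard g : ℂ) * ρ.character g = c * (Module.finrank ℂ V : ℂ) := by
    have h1 : LinearMap.trace ℂ V K = c * (Module.finrank ℂ V : ℂ) := by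
      rw [hK, Algebra.algebraMap_eq_smul_one, map_smul, LinearMap.trace_one, smul_eq_mul]
    rw [← h1]
    simp only [K]
    rw [map_sum]
    have h2 : ∀ y ∈ s, LinearMap.trace ℂ V (ρ y) = ρ.character g := by
      intro y hy
      simp only [s, mem_filter, mem_univ, true_and] at hy
      obtain ⟨h, rfl⟩ := isConj_iff.mp hy
      exact char_conj ρ g h
    rw [Finset.sum_congr rfl h2, Finset.sum_const, nsmul_eq_mul]
    congr 2
    unfold clCard
    rw [Nat.card_eq_fintype_card, ← Set.toFinset_card]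
    congr 1
    ext y
    simp only [Set.mem_toFinset, s, mem_filter, mem_univ, true_and]
    rw [ConjAct.mem_orbit_conjAct, isConj_comm]
  have hdim : (Module.finrank ℂ V : ℂ) ≠ 0 := by
    exact_mod_cast (Module.finrank_pos (R := ℂ) (M := V)).ne'
  rw [htr, mul_div_cancel_right₀ _ hdim]
  exact hcint

omit [Finite G] [FiniteDimensional ℂ V] in
theorem nontrivial_of_irreducible [ρ.IsIrreducible] : Nontrivial V := by
  by_contra hV
  rw [not_nontrivial_iff_subsingleton] at hV
  have h1 : (⊥ : Subrepresentation ρ) = ⊤ := by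
    apply Subrepresentation.toSubmodule_injective
    exact Subsingleton.elim _ _
  exact bot_ne_top h1

omit [Finite G] in
theorem finrank_pos_of_irreducible [ρ.IsIrreducible] : 0 < Module.finrank ℂ V := by
  have := nontrivial_of_irreducible ρ
  exact Module.finrank_pos

omit [Finite G] in
theorem sum_char_mul_inv [Fintype G] [ρ.IsIrreducible] :
    ∑ g : G, ρ.character g * ρ.character g⁻¹ = (Nat.card G : ℂ) := by
  classical
  have hN : (Nat.card G : ℂ) ≠ 0 := by
    exact_mod_cast Nat.card_pos.ne'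
  have : Invertible (Nat.card G : ℂ) := invertibleOfNonzero hN
  have h := char_orthonormal ρ ρ
  rw [if_pos ⟨Representation.Equiv.refl ρ⟩] at h
  rw [inv_mul_eq_iff_eq_mul₀ hN] at h
  simpa using h

/-- The degree of an irreducible character divides the order of the group. -/
theorem finrank_dvd_card [ρ.IsIrreducible] : Module.finrank ℂ V ∣ Nat.card G := by
  classical
  have : Fintype G := Fintype.ofFinite G
  have hdim : (Module.finrank ℂ V : ℂ) ≠ 0 := by
    exact_mod_cast (finrank_pos_of_irreducible ρ).ne'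
  have hd : 0 < Module.finrank ℂ V := finrank_pos_of_irreducible ρ
  have h1 : IsIntegral ℤ ((Module.finrank ℂ V : ℂ)⁻¹ *
      ∑ g : G, ρ.character g * ρ.character g⁻¹) := by
    apply isIntegral_sum_of_orbit (G := ConjAct G)
    · intro g y
      rw [ConjAct.smul_def, char_conj]
      have : (ConjAct.ofConjAct g * y * (ConjAct.ofConjAct g)⁻¹)⁻¹
        = ConjAct.ofConjAct g * y⁻¹ * (ConjAct.ofConjAct g)⁻¹ := by group
      rw [this, char_conj]
    · intro y
      have h2 := (isIntegral_central ρ y).mul (isIntegral_char ρ y⁻¹)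
      have h3 : (Module.finrank ℂ V : ℂ)⁻¹ * (Nat.card (MulAction.orbit (ConjAct G) y) : ℂ) *
          (ρ.character y * ρ.character y⁻¹) =
          (clCard y : ℂ) * ρ.character y / (Module.finrank ℂ V : ℂ) * ρ.character y⁻¹ := by
        unfold clCard
        field_simp
      rw [h3]
      exact h2
  rw [sum_char_mul_inv ρ] at h1
  have h3 : ((Module.finrank ℂ V : ℂ)⁻¹ * (Nat.card G : ℂ)) =
      algebraMap ℚ ℂ ((Nat.card G : ℚ) / (Module.finrank ℂ V : ℚ)) := by
    simp
    field_simp
  rw [h3, isIntegral_algebraMap_iff (algebraMap ℚ ℂ).injective,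
    IsIntegrallyClosed.isIntegral_iff] at h1
  obtain ⟨z, hz⟩ := h1
  have hq : (Module.finrank ℂ V : ℚ) ≠ 0 := by exact_mod_cast hd.ne'
  rw [eq_div_iff hq] at hz
  have h4 : z * (Module.finrank ℂ V : ℤ) = (Nat.card G : ℤ) := by
    have : ((z * (Module.finrank ℂ V : ℤ) : ℤ) : ℚ) = ((Nat.card G : ℤ) : ℚ) := by
      push_cast
      simpa using hz
    exact_mod_cast this
  have h5 : (Module.finrank ℂ V : ℤ) ∣ (Nat.card G : ℤ) := ⟨z, by rw [← h4]; ring⟩
  exact_mod_cast h5

end Pool.Agent.H42.Wilde
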