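import Mathlib
import Pool.Agent.H42.Wilde.Char

/-!
A nonzero algebraic integer in a cyclotomic field all of whose conjugates are nonnegative reals
has trace at least the degree.
-/

namespace Pool.Agent.H42.Wilde

open Finset Representation IsCyclotomicExtension

theorem card_le_sum_conj {K : Type*} [Field K] [NumberField K] [IsGalois ℚ K] (φ : K →+* ℂ)
    (w : K) (hw : w ≠ 0) (hint : IsIntegral ℤ w) (r : (K ≃ₐ[ℚ] K) → ℝ)
    (hr : ∀ σ : K ≃ₐ[ℚ] K, φ (σ w) = (r σ : ℂ)) (hr0 : ∀ σ, 0 ≤ r σ) :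
    (Fintype.card (K ≃ₐ[ℚ] K) : ℝ) ≤ ∑ σ, r σ := by
  classical
  have hnorm := Algebra.norm_eq_prod_automorphisms ℚ w
  have h1 : IsIntegral ℤ (Algebra.norm ℚ w) := Algebra.isIntegral_norm ℚ hint
  rw [IsIntegrallyClosed.isIntegral_iff] at h1
  obtain ⟨z, hz⟩ := h1
  have h2 : ((z : ℝ) : ℂ) = ((∏ σ, r σ : ℝ) : ℂ) := by
    have h3 := congrArg φ hnorm
    rw [map_prod] at h3
    simp_rw [hr] at h3
    rw [← hz] at h3
    push_cast
    rw [← h3]
    simp
  have h3 : (z : ℝ) = ∏ σ, r σ := by exact_mod_cast h2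
  have h4 : z ≠ 0 := by
    rintro rfl
    have h5 : Algebra.norm ℚ w = 0 := by rw [← hz]; simp
    rw [Algebra.norm_eq_zero_iff] at h5
    exact hw h5
  have h5 : 0 ≤ z := by
    have : (0 : ℝ) ≤ (z : ℝ) := by
      rw [h3]; exact Finset.prod_nonneg (fun σ _ => hr0 σ)
    exact_mod_cast this
  have h6 : (1 : ℝ) ≤ ∏ σ, r σ := by
    rw [← h3]
    have : 1 ≤ z := by omega
    exact_mod_cast this
  have hpos : ∀ σ, 0 < r σ := by
    intro σ
    rcases (hr0 σ).lt_or_eq with h | h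
    · exact h
    · exfalso
      have : ∏ σ, r σ = 0 := Finset.prod_eq_zero (Finset.mem_univ σ) h.symm
      linarith
  have h7 : 0 ≤ ∑ σ, Real.log (r σ) := by
    rw [← Real.log_prod (fun σ _ => (hpos σ).ne')]
    exact Real.log_nonneg h6
  have h8 : ∑ σ, Real.log (r σ) ≤ ∑ σ, (r σ - 1) :=
    Finset.sum_le_sum (fun σ _ => Real.log_le_sub_one_of_pos (hpos σ))
  rw [Finset.sum_sub_distrib, Finset.sum_const, Finset.card_univ, nsmul_eq_mul, mul_one] at h8
  linarith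

noncomputable section

variable (N : ℕ) [NeZero N]

instance instCycExt : IsCyclotomicExtension {N} ℚ (CyclotomicField N ℚ) :=
  CyclotomicField.isCyclotomicExtension N ℚ

/-- An embedding of the cyclotomic field in `ℂ`. -/
def emb : CyclotomicField N ℚ →ₐ[ℚ] ℂ := IsAlgClosed.lift

/-- The distinguished root of unity. -/
def zet : ℂ := emb N (zeta N ℚ (CyclotomicField N ℚ))

theorem zet_prim : IsPrimitiveRoot (zet N) N :=
  (zeta_spec N ℚ (CyclotomicField N ℚ)).map_of_injective (emb N).injective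

/-- The Galois group of the cyclotomic field. -/
def jj : (CyclotomicField N ℚ ≃ₐ[ℚ] CyclotomicField N ℚ) ≃* (ZMod N)ˣ :=
  autEquivPow (CyclotomicField N ℚ) (Polynomial.cyclotomic.irreducible_rat (NeZero.pos N))

theorem jj_spec (σ : CyclotomicField N ℚ ≃ₐ[ℚ] CyclotomicField N ℚ) :
    σ (zeta N ℚ (CyclotomicField N ℚ)) =
      zeta N ℚ (CyclotomicField N ℚ) ^ (jj N σ : ZMod N).val := by
  have h := (zeta_spec N ℚ (CyclotomicField N ℚ)).autToPow_spec ℚ σ
  rw [← h]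
  rfl

/-- Families of conjugates of elements of the cyclotomic field. -/
def IsCyc (a : (ZMod N)ˣ → ℂ) : Prop :=
  ∃ α : CyclotomicField N ℚ, ∀ σ : CyclotomicField N ℚ ≃ₐ[ℚ] CyclotomicField N ℚ,
    emb N (σ α) = a (jj N σ)

variable {N}

theorem IsCyc.const (c : ℚ) : IsCyc N (fun _ => (c : ℂ)) :=
  ⟨algebraMap ℚ _ c, fun σ => by simp⟩

theorem IsCyc.mul {a b : (ZMod N)ˣ → ℂ} (ha : IsCyc N a) (hb : IsCyc N b) :
    IsCyc N (fun j => a j * b j) := by
  obtain ⟨α, hα⟩ := ha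
  obtain ⟨β, hβ⟩ := hb
  exact ⟨α * β, fun σ => by rw [map_mul, map_mul, hα, hβ]⟩

theorem IsCyc.sum {ι : Type*} (s : Finset ι) (a : ι → (ZMod N)ˣ → ℂ)
    (ha : ∀ i ∈ s, IsCyc N (a i)) : IsCyc N (fun j => ∑ i ∈ s, a i j) := by
  choose! α hα using ha
  refine ⟨∑ i ∈ s, α i, fun σ => ?_⟩
  rw [map_sum, map_sum]
  exact Finset.sum_congr rfl (fun i hi => hα i hi σ)

theorem IsCyc.zet_pow (m : ℕ) : IsCyc N (fun j => zet N ^ (m * (j : ZMod N).val)) := by
  refine ⟨zeta N ℚ (CyclotomicField N ℚ) ^ m, fun σ => ?_⟩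
  rw [map_pow, jj_spec, map_pow, map_pow, ← pow_mul, mul_comm]
  rfl

theorem IsCyc.totient_le {a : (ZMod N)ˣ → ℂ} (ha : IsCyc N a) (r : (ZMod N)ˣ → ℝ)
    (hr : ∀ j, a j = (r j : ℂ)) (hr0 : ∀ j, 0 ≤ r j) (hint : IsIntegral ℤ (a 1))
    (hne : a 1 ≠ 0) : (N.totient : ℝ) ≤ ∑ j, r j := by
  classical
  obtain ⟨α, hα⟩ := ha
  have : IsGalois ℚ (CyclotomicField N ℚ) := IsCyclotomicExtension.isGalois {N} ℚ _
  have h1 : emb N α = a 1 := by
    have := hα 1
    rw [map_one] at this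
    exact this
  have hint' : IsIntegral ℤ α := by
    rw [← h1] at hint
    exact (isIntegral_algHom_iff ((emb N).restrictScalars ℤ) (emb N).injective).mp hint
  have hne' : α ≠ 0 := by
    rintro rfl
    rw [map_zero] at h1
    exact hne h1.symm
  have h2 := card_le_sum_conj (emb N).toRingHom α hne' hint' (fun σ => r (jj N σ))
    (fun σ => by rw [← hr]; exact hα σ) (fun σ => hr0 _)
  have h3 : ∑ σ, r (jj N σ) = ∑ j, r j := Fintype.sum_equiv (jj N).toEquiv _ _ (fun _ => rfl)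
  have h4 : Fintype.card (CyclotomicField N ℚ ≃ₐ[ℚ] CyclotomicField N ℚ) = N.totient := by
    rw [Fintype.card_congr (jj N).toEquiv, ZMod.card_units_eq_totient]
  rw [h3, h4] at h2
  exact h2

/-- Character values form such families. -/
theorem IsCyc.char {G V : Type*} [Group G] [AddCommGroup V] [Module ℂ V]
    [FiniteDimensional ℂ V] (ρ : Representation ℂ G V) (g : G) (hg : g ^ N = 1) :
    IsCyc N (fun j => ρ.character (g ^ (j : ZMod N).val)) := by
  obtain ⟨d, hd⟩ := exists_char_pow ρ N (NeZero.ne N) _ (zet_prim N) g hg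
  have h1 : (fun j : (ZMod N)ˣ => ρ.character (g ^ (j : ZMod N).val)) =
      fun j : (ZMod N)ˣ => ∑ i ∈ range N, zet N ^ (i * (j : ZMod N).val) * (((d i : ℕ) : ℚ) : ℂ) := by
    funext j
    have h2 := hd ((j : ZMod N).val + N) (by have := NeZero.pos N; omega)
    rw [pow_add, hg, mul_one] at h2
    rw [h2]
    apply Finset.sum_congr rfl
    intro i _
    rw [mul_add, pow_add, mul_comm i N, pow_mul (zet N) N, (zet_prim N).pow_eq_one, one_pow, mul_one]
    simp
  rw [h1]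
  exact IsCyc.sum _ _ (fun i _ => (IsCyc.zet_pow i).mul (IsCyc.const _))

end

end Pool.Agent.H42.Wilde
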