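import Mathlib
import Pool.Agent.H42.Wilde.Char

/-!
Divisibility of sums of characters over unions of sections.
-/

namespace Pool.Agent.H42.Wilde

open Finset Representation

/-- Sum of `trace (Z * R x)` over a group. -/
theorem isIntegral_sum_trace_mul {D W : Type*} [Group D] [Fintype D] [AddCommGroup W] [Module ℂ W]
    [FiniteDimensional ℂ W] (R : Representation ℂ D W) (Z : Module.End ℂ W) (N : ℕ) (hN : N ≠ 0)
    (hZ : Z ^ N = 1) (hcomm : ∀ x, Commute Z (R x)) :
    IsIntegral ℤ ((Nat.card D : ℂ)⁻¹ * ∑ x : D, LinearMap.trace ℂ W (Z * R x)) := by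
  classical
  have hD : (Nat.card D : ℂ) ≠ 0 := by exact_mod_cast Nat.card_pos.ne'
  let e : Module.End ℂ W := (Nat.card D : ℂ)⁻¹ • ∑ x : D, R x
  have hRe : ∀ y : D, R y * e = e := by
    intro y
    simp only [e]
    rw [mul_smul_comm, Finset.mul_sum]
    congr 1
    simp_rw [← map_mul]
    exact Fintype.sum_equiv (Equiv.mulLeft y) _ _ (fun x => rfl)
  have hee : e * e = e := by
    have h0 : e * e = ((Nat.card D : ℂ)⁻¹ • ∑ x : D, R x) * e := rfl
    rw [h0, smul_mul_assoc, Finset.sum_mul]
    simp_rw [hRe]
    rw [Finset.sum_const, Finset.card_univ, ← Nat.card_eq_fintype_card, ← Nat.cast_smul_eq_nsmul ℂ,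
      smul_smul, inv_mul_cancel₀ hD, one_smul]
  have hZe : Commute Z e := by
    simp only [e]
    apply Commute.smul_right
    exact Commute.sum_right _ _ _ (fun x _ => hcomm x)
  have hpow : ∀ m : ℕ, e ^ (m + 1) = e := by
    intro m
    induction m with
    | zero => simp
    | succ m ih => rw [pow_succ, ih, hee]
  have hT : (Z * e) ^ (N + 1) = Z * e := by
    rw [hZe.mul_pow, hpow, pow_succ, hZ, one_mul]
  have hζ := Complex.isPrimitiveRoot_exp N hN
  obtain ⟨d, hd⟩ := exists_trace_pow N hN _ hζ (Z * e) hT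
  have h1 := hd 1 le_rfl
  rw [pow_one] at h1
  have h2 : (Nat.card D : ℂ)⁻¹ * ∑ x : D, LinearMap.trace ℂ W (Z * R x)
      = LinearMap.trace ℂ W (Z * e) := by
    simp only [e]
    rw [mul_smul_comm, map_smul, smul_eq_mul]
    congr 1
    rw [Finset.mul_sum, map_sum]
  rw [h2, h1]
  apply IsIntegral.sum
  intro i _
  exact IsIntegral.mul (IsIntegral.pow (hζ.isIntegral (Nat.pos_of_ne_zero hN)) _)
    (isIntegral_natCast _)

theorem qelement_of_fixed {H : Type*} [Group H] {q : ℕ} (Q : Subgroup H) (hQ : IsPGroup q Q)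
    (x : H) (c : H ⧸ Q) (h : x • c = c) : ∃ k : ℕ, x ^ q ^ k = 1 := by
  obtain ⟨g, rfl⟩ := QuotientGroup.mk_surjective c
  have h1 : ((x * g : H) : H ⧸ Q) = (g : H ⧸ Q) := h
  rw [eq_comm, QuotientGroup.eq] at h1
  obtain ⟨k, hk⟩ := hQ ⟨_, h1⟩
  refine ⟨k, ?_⟩
  have h2 : (g⁻¹ * (x * g)) ^ q ^ k = 1 := by
    have := congrArg Subtype.val hk
    simpa using this
  have h3 : g⁻¹ * (x * g) = g⁻¹ * x * g⁻¹⁻¹ := by group
  rw [h3, conj_pow] at h2
  have h4 : x ^ q ^ k = g * (g⁻¹ * x ^ q ^ k * g⁻¹⁻¹) * g⁻¹ := by group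
  rw [h4, h2]
  group

/-- Number of fixed points of a `q`-element on the cosets of a Sylow subgroup is prime to `q`. -/
theorem coprime_card_fixedBy {H : Type*} [Group H] [Finite H] {q : ℕ} [hq : Fact q.Prime]
    (Q : Sylow q H) (x : H) (hx : ∃ k : ℕ, x ^ q ^ k = 1) :
    (Nat.card (MulAction.fixedBy (H ⧸ (Q : Subgroup H)) x)).Coprime q := by
  have hP : IsPGroup q (Subgroup.zpowers x) := by
    rintro ⟨y, hy⟩
    obtain ⟨k, hk⟩ := hx
    obtain ⟨n, rfl⟩ := Subgroup.mem_zpowers_iff.mp hy
    refine ⟨k, ?_⟩
    apply Subtype.ext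
    simp only [SubmonoidClass.mk_pow, OneMemClass.coe_one]
    rw [← zpow_natCast, ← zpow_mul, mul_comm, zpow_mul, zpow_natCast, hk, one_zpow]
  have h1 := hP.card_modEq_card_fixedPoints (H ⧸ (Q : Subgroup H))
  have h2 : MulAction.fixedPoints (Subgroup.zpowers x) (H ⧸ (Q : Subgroup H))
      = MulAction.fixedBy (H ⧸ (Q : Subgroup H)) x := by
    ext c
    rw [MulAction.mem_fixedPoints, MulAction.mem_fixedBy]
    constructor
    · intro h
      exact h ⟨x, Subgroup.mem_zpowers x⟩
    · rintro h ⟨y, hy⟩
      obtain ⟨n, rfl⟩ := Subgroup.mem_zpowers_iff.mp hy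
      change x ^ n • c = c
      have : c ∈ MulAction.fixedBy (H ⧸ (Q : Subgroup H)) (x ^ n) :=
        MulAction.fixedBy_subset_fixedBy_zpow _ _ _ h
      exact this
  rw [h2] at h1
  have h3 : ¬ q ∣ Nat.card (H ⧸ (Q : Subgroup H)) := Q.not_dvd_index
  rw [Nat.coprime_comm, hq.out.coprime_iff_not_dvd]
  intro h4
  apply h3
  exact (h1.dvd_iff dvd_rfl).mpr h4

/-- A class function whose sums over `q`-subgroups `D` are divisible by `|D|` has sum over the
`q`-elements divisible by the `q`-part of the group order. -/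
theorem isIntegral_sum_qelements {H : Type*} [Group H] [Fintype H] {q : ℕ} [hq : Fact q.Prime]
    (f : H → ℂ) (hf : ∀ h x, f (h * x * h⁻¹) = f x) (hint : ∀ x, IsIntegral ℤ (f x))
    (hD : ∀ D : Subgroup H, IsPGroup q D →
      ∀ s : Finset H, (∀ x, x ∈ s ↔ x ∈ D) → IsIntegral ℤ ((Nat.card D : ℂ)⁻¹ * ∑ x ∈ s, f x))
    (s : Finset H) (hs : ∀ x, x ∈ s ↔ ∃ k : ℕ, x ^ q ^ k = 1) :
    IsIntegral ℤ (((q ^ (Nat.card H).factorization q : ℕ) : ℂ)⁻¹ * ∑ x ∈ s, f x) := by
  classical
  obtain ⟨Q⟩ : Nonempty (Sylow q H) := inferInstance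
  set nq : ℕ := q ^ (Nat.card H).factorization q with hnq
  set k : ℕ := Nat.totient nq with hk
  have hnq0 : 0 < nq := pow_pos hq.out.pos _
  have hk0 : 0 < k := Nat.totient_pos.mpr hnq0
  let X := H ⧸ (Q : Subgroup H)
  let fx : H → ℕ := fun x => Nat.card (MulAction.fixedBy X x)
  have hcardH : (Nat.card H : ℂ) ≠ 0 := by exact_mod_cast Nat.card_pos.ne'
  have hnqC : (nq : ℂ) ≠ 0 := by exact_mod_cast hnq0.ne'
  have hdvd : nq ∣ Nat.card H := Nat.ordProj_dvd _ _
  -- the double counting
  let A : (Fin k → X) → ℂ := fun y => ∑ x : H, if x • y = y then f x else 0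
  have hA1 : IsIntegral ℤ ((Nat.card H : ℂ)⁻¹ * ∑ y, A y) := by
    apply isIntegral_sum_of_orbit (G := H)
    · intro g y
      simp only [A]
      refine Fintype.sum_equiv (MulAut.conj g⁻¹).toEquiv _ _ ?_
      intro x
      have h1 : (MulAut.conj g⁻¹).toEquiv x = g⁻¹ * x * g⁻¹⁻¹ := rfl
      rw [h1, hf]
      have h2 : (x • g • y = g • y) ↔ ((g⁻¹ * x * g⁻¹⁻¹) • y = y) := by
        rw [inv_inv, mul_smul, mul_smul, inv_smul_eq_iff]
      simp only [h2]
    · intro y
      have hst : IsPGroup q (MulAction.stabilizer H y) := by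
        rintro ⟨x, hx⟩
        rw [MulAction.mem_stabilizer_iff] at hx
        have h1 : x • y ⟨0, hk0⟩ = y ⟨0, hk0⟩ := congrFun hx ⟨0, hk0⟩
        obtain ⟨m, hm⟩ := qelement_of_fixed (Q : Subgroup H) Q.isPGroup' x _ h1
        exact ⟨m, Subtype.ext (by simpa using hm)⟩
      have h1 := hD (MulAction.stabilizer H y) hst (univ.filter (fun x => x • y = y))
        (by intro x; simp [MulAction.mem_stabilizer_iff])
      have h2 : (Nat.card (MulAction.orbit H y)) * Nat.card (MulAction.stabilizer H y)
          = Nat.card H := by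
        rw [Nat.card_eq_fintype_card, Nat.card_eq_fintype_card, Nat.card_eq_fintype_card]
        exact MulAction.card_orbit_mul_card_stabilizer_eq_card_group H y
      have h3 : (Nat.card H : ℂ)⁻¹ * (Nat.card (MulAction.orbit H y) : ℂ) * A y =
          (Nat.card (MulAction.stabilizer H y) : ℂ)⁻¹ *
            ∑ x ∈ univ.filter (fun x => x • y = y), f x := by
        have h4 : (Nat.card (MulAction.stabilizer H y) : ℂ) ≠ 0 := by
          exact_mod_cast Nat.card_pos.ne'
        have h5 : (Nat.card (MulAction.orbit H y) : ℂ) ≠ 0 := by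
          have hne : Nonempty (MulAction.orbit H y) := ⟨⟨y, MulAction.mem_orbit_self y⟩⟩
          have : 0 < Nat.card (MulAction.orbit H y) := Nat.card_pos
          exact_mod_cast this.ne'
        rw [← h2]
        simp only [A]
        rw [← Finset.sum_filter]
        push_cast
        field_simp
      rw [h3]
      exact h1
  have hA2 : ∑ y, A y = ∑ x : H, ((fx x) ^ k : ℕ) * f x := by
    simp only [A]
    rw [Finset.sum_comm]
    apply Finset.sum_congr rfl
    intro x _
    rw [← Finset.sum_filter, Finset.sum_const, nsmul_eq_mul]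
    congr 2
    have h1 : (univ.filter (fun y : Fin k → X => x • y = y))
        = Fintype.piFinset (fun _ : Fin k => univ.filter (fun c : X => x • c = c)) := by
      ext y
      simp only [mem_filter, mem_univ, true_and, Fintype.mem_piFinset]
      exact funext_iff
    rw [h1, Fintype.card_piFinset, Finset.prod_const, Finset.card_univ, Fintype.card_fin]
    congr 1
    simp only [fx]
    rw [Nat.card_eq_fintype_card, ← Set.toFinset_card]
    congr 1
    ext c
    simp
  have hfx0 : ∀ x : H, x ∉ s → fx x = 0 := by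
    intro x hx
    by_contra h0
    have h1 : 0 < fx x := Nat.pos_of_ne_zero h0
    have h2 : Nonempty (MulAction.fixedBy X x) := (Nat.card_pos_iff.mp h1).1
    obtain ⟨c, hc⟩ := h2
    apply hx
    rw [hs]
    exact qelement_of_fixed (Q : Subgroup H) Q.isPGroup' x c hc
  have hfx1 : ∀ x ∈ s, ∃ t : ℤ, (((fx x) ^ k : ℕ) : ℂ) = 1 + (nq : ℂ) * (t : ℂ) := by
    intro x hx
    rw [hs] at hx
    have h1 : (fx x).Coprime nq := (coprime_card_fixedBy Q x hx).pow_right _
    have h2 := Nat.ModEq.pow_totient h1
    have h3 := (Nat.modEq_iff_dvd.mp h2.symm)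
    obtain ⟨t, ht⟩ := h3
    refine ⟨t, ?_⟩
    have h4 : (((fx x) ^ k : ℕ) : ℤ) = 1 + (nq : ℤ) * t := by
      rw [← ht]
      push_cast
      ring
    exact_mod_cast congrArg (Int.cast : ℤ → ℂ) h4
  have hA3 : ∑ x : H, (((fx x) ^ k : ℕ) : ℂ) * f x = ∑ x ∈ s, (((fx x) ^ k : ℕ) : ℂ) * f x := by
    symm
    apply Finset.sum_subset (Finset.subset_univ s)
    intro x _ hx
    rw [hfx0 x hx, zero_pow hk0.ne']
    simp
  choose! t ht using hfx1
  have hA4 : ∑ x ∈ s, (((fx x) ^ k : ℕ) : ℂ) * f x
      = ∑ x ∈ s, f x + (nq : ℂ) * ∑ x ∈ s, (t x : ℂ) * f x := by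
    rw [Finset.mul_sum, ← Finset.sum_add_distrib]
    apply Finset.sum_congr rfl
    intro x hx
    rw [ht x hx]
    ring
  have hfin : (nq : ℂ)⁻¹ * ∑ x ∈ s, f x
      = ((Nat.card H / nq : ℕ) : ℂ) * ((Nat.card H : ℂ)⁻¹ * ∑ y, A y)
        - ∑ x ∈ s, (t x : ℂ) * f x := by
    have h1 : ((Nat.card H / nq : ℕ) : ℂ) = (Nat.card H : ℂ) / (nq : ℂ) :=
      Nat.cast_div hdvd hnqC
    rw [h1, hA2, hA3, hA4]
    field_simp
    ring
  rw [hfin]
  apply IsIntegral.sub
  · exact (isIntegral_natCast _).mul hA1
  · apply IsIntegral.sum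
    intro x _
    exact (isIntegral_intCast _).mul (hint x)

/-- Divisibility of sums over `z D`, for `D` a subgroup centralising `z`. -/
theorem isIntegral_sum_coset {G W : Type*} [Group G] [Fintype G] [AddCommGroup W] [Module ℂ W]
    [FiniteDimensional ℂ W] (R : Representation ℂ G W) (z : G)
    (D : Subgroup (Subgroup.centralizer ({z} : Set G)))
    (s : Finset (Subgroup.centralizer ({z} : Set G))) (hs : ∀ x, x ∈ s ↔ x ∈ D) :
    IsIntegral ℤ ((Nat.card D : ℂ)⁻¹ * ∑ x ∈ s, R.character (z * (x : G))) := by
  classical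
  let R' : Representation ℂ D W :=
    R.comp ((Subgroup.centralizer ({z} : Set G)).subtype.comp D.subtype)
  have hN : Nat.card G ≠ 0 := Nat.card_pos.ne'
  have h1 := isIntegral_sum_trace_mul R' (R z) (Nat.card G) hN
    (by rw [← map_pow, pow_card_eq_one', map_one])
    (by
      intro x
      have h2 : z * ((x : Subgroup.centralizer ({z} : Set G)) : G) = (x : G) * z := by
        have := (x : Subgroup.centralizer ({z} : Set G)).2
        rw [Subgroup.mem_centralizer_iff] at this
        exact this z (Set.mem_singleton z)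
      change R z * R ((x : Subgroup.centralizer ({z} : Set G)) : G)
        = R ((x : Subgroup.centralizer ({z} : Set G)) : G) * R z
      rw [← map_mul, h2, map_mul])
  have h3 : ∑ x ∈ s, R.character (z * (x : G)) = ∑ x : D, LinearMap.trace ℂ W (R z * R' x) := by
    have h4 : ∑ x ∈ s, R.character (z * (x : G)) = ∑ x : D, R.character (z * ((x : Subgroup.centralizer ({z} : Set G)) : G)) := by
      exact (Finset.sum_subtype s hs (fun x => R.character (z * (x : G))))
    rw [h4]
    apply Finset.sum_congr rfl
    intro x _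
    change LinearMap.trace ℂ W (R (z * ((x : Subgroup.centralizer ({z} : Set G)) : G))) =
      LinearMap.trace ℂ W (R z * R ((x : Subgroup.centralizer ({z} : Set G)) : G))
    rw [map_mul]
  rw [h3]
  exact h1

theorem pow_eq_pow_of_modEq_card {G : Type*} [Group G] [Finite G] (y : G) {a b : ℕ}
    (h : a ≡ b [MOD Nat.card G]) : y ^ a = y ^ b :=
  pow_eq_pow_iff_modEq.mpr (h.of_dvd (orderOf_dvd_natCard y))

theorem pow_gamma_eq_one_iff {G : Type*} [Group G] [Finite G] {q : ℕ} (hq : q.Prime) (γ : ℕ)
    (hγ0 : q ^ (Nat.card G).factorization q ∣ γ)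
    (hγ1 : γ ≡ 1 [MOD Nat.card G / q ^ (Nat.card G).factorization q]) (t : G) :
    t ^ γ = 1 ↔ ∃ k : ℕ, t ^ q ^ k = 1 := by
  have hN : Nat.card G ≠ 0 := Nat.card_pos.ne'
  have hcop : Nat.Coprime q (Nat.card G / q ^ (Nat.card G).factorization q) :=
    Nat.coprime_ordCompl hq hN
  have hmul : q ^ (Nat.card G).factorization q *
      (Nat.card G / q ^ (Nat.card G).factorization q) = Nat.card G :=
    Nat.ordProj_mul_ordCompl_eq_self _ _
  constructor
  · intro h
    refine ⟨(Nat.card G).factorization q, ?_⟩
    rw [← orderOf_dvd_iff_pow_eq_one] at h ⊢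
    have h1 : Nat.Coprime (orderOf t) (Nat.card G / q ^ (Nat.card G).factorization q) := by
      have h2 : Nat.Coprime γ (Nat.card G / q ^ (Nat.card G).factorization q) := by
        have := hγ1.gcd_eq
        rw [Nat.gcd_one_left] at this
        exact this
      exact Nat.Coprime.coprime_dvd_left h h2
    have h2 : orderOf t ∣ q ^ (Nat.card G).factorization q *
      (Nat.card G / q ^ (Nat.card G).factorization q) := by
      rw [hmul]; exact orderOf_dvd_natCard t
    exact h1.dvd_of_dvd_mul_right h2
  · rintro ⟨k, hk⟩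
    rw [← orderOf_dvd_iff_pow_eq_one] at hk ⊢
    have h2 : orderOf t ∣ q ^ (Nat.card G).factorization q *
      (Nat.card G / q ^ (Nat.card G).factorization q) := by
      rw [hmul]; exact orderOf_dvd_natCard t
    have h1 : Nat.Coprime (orderOf t) (Nat.card G / q ^ (Nat.card G).factorization q) :=
      Nat.Coprime.coprime_dvd_left hk (Nat.Coprime.pow_left k hcop)
    exact (h1.dvd_of_dvd_mul_right h2).trans hγ0

/-- Sums of a character over a union of `q'`-sections are divisible by the `q`-part of `|G|`. -/
theorem isIntegral_section {G W : Type*} [Group G] [Fintype G] [AddCommGroup W] [Module ℂ W]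
    [FiniteDimensional ℂ W] (R : Representation ℂ G W) {q : ℕ} [hq : Fact q.Prime]
    (S : Finset G) (hS : ∀ g y, y ∈ S → g * y * g⁻¹ ∈ S) (γ : ℕ)
    (hγ0 : q ^ (Nat.card G).factorization q ∣ γ)
    (hγ1 : γ ≡ 1 [MOD Nat.card G / q ^ (Nat.card G).factorization q])
    (hSγ : ∀ y, y ∈ S ↔ y ^ γ ∈ S) :
    IsIntegral ℤ (((q ^ (Nat.card G).factorization q : ℕ) : ℂ)⁻¹ * ∑ y ∈ S, R.character y) := by
  classical
  have hN : Nat.card G ≠ 0 := Nat.card_pos.ne'
  have hcop : Nat.Coprime q (Nat.card G / q ^ (Nat.card G).factorization q) :=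
    Nat.coprime_ordCompl hq.out hN
  have hmul : q ^ (Nat.card G).factorization q *
      (Nat.card G / q ^ (Nat.card G).factorization q) = Nat.card G :=
    Nat.ordProj_mul_ordCompl_eq_self _ _
  have hidem : ∀ y : G, (y ^ γ) ^ γ = y ^ γ := by
    intro y
    rw [← pow_mul]
    apply pow_eq_pow_of_modEq_card
    rw [← hmul]
    refine (Nat.modEq_and_modEq_iff_modEq_mul ?_).mp ⟨?_, ?_⟩
    · exact hcop.pow_left _
    · exact ((Nat.modEq_zero_iff_dvd.mpr (hγ0.mul_right _))).trans
        (Nat.modEq_zero_iff_dvd.mpr hγ0).symm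
    · simpa using hγ1.mul_right γ
  let F : G → ℂ := fun z => ∑ y ∈ S, if y ^ γ = z then R.character y else 0
  have hF : ∑ y ∈ S, R.character y = ∑ z, F z := by
    simp only [F]
    rw [Finset.sum_comm]
    apply Finset.sum_congr rfl
    intro y _
    simp
  rw [hF]
  apply isIntegral_sum_of_orbit (G := ConjAct G)
  · intro g z
    rw [ConjAct.smul_def]
    set c := ConjAct.ofConjAct g
    simp only [F]
    refine Finset.sum_bij' (fun y _ => c⁻¹ * y * c) (fun y _ => c * y * c⁻¹) ?_ ?_ ?_ ?_ ?_
    · intro y hy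
      have := hS c⁻¹ y hy
      simpa using this
    · intro y hy
      exact hS c y hy
    · intro y _
      group
    · intro y _
      group
    · intro y _
      have h1 : R.character (c⁻¹ * y * c) = R.character y := by
        have := char_conj R y c⁻¹
        simpa using this
      have h2 : (c⁻¹ * y * c) ^ γ = c⁻¹ * y ^ γ * c := by
        have := conj_pow (i := γ) (a := c⁻¹) (b := y)
        simpa using this
      rw [h1, h2]
      have h3 : (y ^ γ = c * z * c⁻¹) ↔ (c⁻¹ * y ^ γ * c = z) := by
        constructor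
        · intro h; rw [h]; group
        · intro h; rw [← h]; group
      simp only [h3]
  · intro z
    by_cases hz : ∃ y ∈ S, y ^ γ = z
    · obtain ⟨y0, hy0, hy0z⟩ := hz
      have hzz : z ^ γ = z := by rw [← hy0z]; exact hidem y0
      have hzS : z ∈ S := by rw [← hy0z]; exact (hSγ y0).mp hy0
      let H := Subgroup.centralizer ({z} : Set G)
      have hHz : ∀ t : H, z * (t : G) = (t : G) * z := by
        intro t
        have := t.2
        rw [Subgroup.mem_centralizer_iff] at this
        exact this z (Set.mem_singleton z)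
      let s : Finset H := univ.filter (fun t => ∃ k : ℕ, t ^ q ^ k = 1)
      have h1 := isIntegral_sum_qelements (q := q) (H := H) (fun t => R.character (z * (t : G)))
        (by
          intro h x
          have h2 : z * ((h * x * h⁻¹ : H) : G) = (h : G) * (z * (x : G)) * (h : G)⁻¹ := by
            push_cast
            rw [← mul_assoc, ← mul_assoc, hHz h, mul_assoc (h : G) z]
          rw [h2, char_conj])
        (fun x => isIntegral_char R _)
        (by
          intro D _ s hs
          exact isIntegral_sum_coset R z D s hs)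
        s (by intro x; simp [s])
      have h2 : F z = ∑ t ∈ s, R.character (z * (t : G)) := by
        simp only [F]
        rw [← Finset.sum_filter]
        symm
        refine Finset.sum_bij (fun (t : H) _ => z * (t : G)) ?_ ?_ ?_ ?_
        · intro t ht
          have ht' : (t : G) ^ γ = 1 := by
            rw [pow_gamma_eq_one_iff hq.out γ hγ0 hγ1]
            simp only [s, mem_filter, mem_univ, true_and] at ht
            obtain ⟨k, hk⟩ := ht
            exact ⟨k, by simpa using congrArg Subtype.val hk⟩
          have h3 : (z * (t : G)) ^ γ = z := by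
            have : Commute z (t : G) := hHz t
            rw [this.mul_pow, hzz, ht', mul_one]
          rw [mem_filter]
          refine ⟨?_, h3⟩
          rw [hSγ, h3]
          exact hzS
        · intro t _ t' _ h
          exact Subtype.ext (mul_left_cancel h)
        · intro y hy
          rw [mem_filter] at hy
          obtain ⟨hyS, hyz⟩ := hy
          have hcy : Commute z y := by
            rw [← hyz]
            exact (Commute.refl y).pow_left γ
          have h4 : z⁻¹ * y ∈ H := by
            rw [Subgroup.mem_centralizer_iff]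
            intro h hh
            rw [Set.mem_singleton_iff] at hh
            subst hh
            have : h * (h⁻¹ * y) = (h⁻¹ * y) * h := by
              rw [mul_inv_cancel_left, mul_assoc, ← hcy.eq, inv_mul_cancel_left]
            exact this
          refine ⟨⟨z⁻¹ * y, h4⟩, ?_, ?_⟩
          · simp only [s, mem_filter, mem_univ, true_and]
            have h5 : (z⁻¹ * y) ^ γ = 1 := by
              rw [hcy.inv_left.mul_pow, inv_pow, hzz, hyz, inv_mul_cancel]
            rw [pow_gamma_eq_one_iff hq.out γ hγ0 hγ1] at h5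
            obtain ⟨k, hk⟩ := h5
            exact ⟨k, Subtype.ext (by simpa using hk)⟩
          · simp
        · intro t _
          rfl
      have hcard : Nat.card (MulAction.orbit (ConjAct G) z) * Nat.card H = Nat.card G := by
        have h3 : Nat.card H = Nat.card (MulAction.stabilizer (ConjAct G) z) := by
          apply Nat.card_congr
          refine ⟨fun t => ⟨ConjAct.toConjAct (t : G), ?_⟩, fun t => ⟨ConjAct.ofConjAct (t : ConjAct G), ?_⟩,
            fun t => by simp, fun t => by simp⟩
          · rw [MulAction.mem_stabilizer_iff, ConjAct.smul_def, ConjAct.ofConjAct_toConjAct,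
              ← hHz t, mul_inv_cancel_right]
          · have h4 := t.2
            rw [MulAction.mem_stabilizer_iff, ConjAct.smul_def, mul_inv_eq_iff_eq_mul] at h4
            rw [Subgroup.mem_centralizer_iff]
            intro h hh
            rw [Set.mem_singleton_iff] at hh
            rw [hh]
            exact h4.symm
        rw [h3, Nat.card_eq_fintype_card, Nat.card_eq_fintype_card, Nat.card_eq_fintype_card]
        have h5 : Fintype.card G = Fintype.card (ConjAct G) := rfl
        rw [h5]
        exact MulAction.card_orbit_mul_card_stabilizer_eq_card_group (ConjAct G) z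
      have hHdvd : Nat.card H ∣ Nat.card G := ⟨_, by rw [← hcard, mul_comm]⟩
      have hcompl := Nat.ordCompl_dvd_ordCompl_of_dvd hHdvd q
      obtain ⟨m, hm⟩ := hcompl
      have hmulH : q ^ (Nat.card H).factorization q *
          (Nat.card H / q ^ (Nat.card H).factorization q) = Nat.card H :=
        Nat.ordProj_mul_ordCompl_eq_self _ _
      have hq0 : (q : ℂ) ≠ 0 := by exact_mod_cast hq.out.ne_zero
      have hH0 : (Nat.card H : ℂ) ≠ 0 := by exact_mod_cast Nat.card_pos.ne'
      have h6 : (((q ^ (Nat.card G).factorization q : ℕ) : ℂ))⁻¹ *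
          (Nat.card (MulAction.orbit (ConjAct G) z) : ℂ) * F z =
          (m : ℂ) * ((((q ^ (Nat.card H).factorization q : ℕ) : ℂ))⁻¹ * F z) := by
        have h7 : (Nat.card (MulAction.orbit (ConjAct G) z)) * q ^ (Nat.card H).factorization q
            = m * q ^ (Nat.card G).factorization q := by
          have hpos : 0 < Nat.card H / q ^ (Nat.card H).factorization q :=
            Nat.ordCompl_pos q Nat.card_pos.ne'
          apply Nat.eq_of_mul_eq_mul_right hpos
          calc Nat.card (MulAction.orbit (ConjAct G) z) * q ^ (Nat.card H).factorization q *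
              (Nat.card H / q ^ (Nat.card H).factorization q)
              = Nat.card (MulAction.orbit (ConjAct G) z) * Nat.card H := by
                rw [mul_assoc, hmulH]
            _ = q ^ (Nat.card G).factorization q *
                (Nat.card G / q ^ (Nat.card G).factorization q) := by rw [hcard, hmul]
            _ = m * q ^ (Nat.card G).factorization q *
              (Nat.card H / q ^ (Nat.card H).factorization q) := by rw [hm]; ring
        have h8 : (Nat.card (MulAction.orbit (ConjAct G) z) : ℂ) *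
            ((q ^ (Nat.card H).factorization q : ℕ) : ℂ)
            = (m : ℂ) * ((q ^ (Nat.card G).factorization q : ℕ) : ℂ) := by
          exact_mod_cast congrArg (Nat.cast : ℕ → ℂ) h7
        have h9 : ((q ^ (Nat.card H).factorization q : ℕ) : ℂ) ≠ 0 := by
          push_cast; exact pow_ne_zero _ hq0
        have h10 : ((q ^ (Nat.card G).factorization q : ℕ) : ℂ) ≠ 0 := by
          push_cast; exact pow_ne_zero _ hq0
        have h11 : (((q ^ (Nat.card G).factorization q : ℕ) : ℂ))⁻¹ *
            (Nat.card (MulAction.orbit (ConjAct G) z) : ℂ) =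
            (m : ℂ) * (((q ^ (Nat.card H).factorization q : ℕ) : ℂ))⁻¹ := by
          field_simp
          linear_combination h8
        rw [h11, mul_assoc]
      rw [h6, h2]
      exact (isIntegral_natCast _).mul h1
    · push Not at hz
      have h1 : F z = 0 := by
        simp only [F]
        apply Finset.sum_eq_zero
        intro y hy
        rw [if_neg (hz y hy)]
      rw [h1, mul_zero]
      exact isIntegral_zero

end Pool.Agent.H42.Wilde
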