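import Mathlib
import Pool.Agent.H42.Wilde.Section
import Pool.Agent.H42.Wilde.Norm

/-!
The main inequality, in terms of the group of units of `ZMod |G|`.
-/

namespace Pool.Agent.H42.Wilde

open Finset Representation

section pw

variable {G : Type*} [Group G] [Finite G]

/-- Power by a residue class. -/
noncomputable def pw (j : (ZMod (Nat.card G))ˣ) (y : G) : G := y ^ (j : ZMod (Nat.card G)).val

theorem pw_one (y : G) : pw 1 y = y := by
  have : NeZero (Nat.card G) := ⟨Nat.card_pos.ne'⟩
  unfold pw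
  rw [Units.val_one, ZMod.val_one_eq_one_mod, pow_mod_natCard, pow_one]

theorem pw_mul (j k : (ZMod (Nat.card G))ˣ) (y : G) : pw (j * k) y = pw j (pw k y) := by
  have : NeZero (Nat.card G) := ⟨Nat.card_pos.ne'⟩
  unfold pw
  rw [Units.val_mul, ZMod.val_mul, pow_mod_natCard, ← pow_mul, mul_comm]

/-- The power map as a permutation. -/
noncomputable def pwEquiv (j : (ZMod (Nat.card G))ˣ) : G ≃ G where
  toFun := pw j
  invFun := pw j⁻¹
  left_inv y := by rw [← pw_mul, inv_mul_cancel, pw_one]
  right_inv y := by rw [← pw_mul, mul_inv_cancel, pw_one]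

omit [Finite G] in
theorem pw_pow (j : (ZMod (Nat.card G))ˣ) (y : G) (k : ℕ) : (pw j y) ^ k = pw j (y ^ k) := by
  unfold pw
  rw [← pow_mul, ← pow_mul, mul_comm]

omit [Finite G] in
theorem isConj_pw (j : (ZMod (Nat.card G))ˣ) {y z : G} (h : IsConj y z) :
    IsConj (pw j y) (pw j z) := by
  obtain ⟨c, rfl⟩ := isConj_iff.mp h
  refine isConj_iff.mpr ⟨c, ?_⟩
  unfold pw
  rw [conj_pow]

theorem isConj_pw_iff (j : (ZMod (Nat.card G))ˣ) {y z : G} :
    IsConj (pw j y) (pw j z) ↔ IsConj y z := by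
  constructor
  · intro h
    have := isConj_pw j⁻¹ h
    rwa [← pw_mul, ← pw_mul, inv_mul_cancel, pw_one, pw_one] at this
  · exact isConj_pw j

theorem pw_eq_one {j : (ZMod (Nat.card G))ˣ} {y : G} (h : pw j y = 1) : y = 1 := by
  have h1 : pw j⁻¹ (pw j y) = pw j⁻¹ 1 := by rw [h]
  rw [← pw_mul, inv_mul_cancel, pw_one] at h1
  rw [h1]
  unfold pw
  rw [one_pow]

end pw

variable {G V : Type*} [Group G] [Fintype G] [AddCommGroup V] [Module ℂ V] [FiniteDimensional ℂ V]
  (ρ : Representation ℂ G V)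

/-- The `p`-section attached to the power map `y ↦ y ^ α`. -/
noncomputable def sec (α : ℕ) (u : G) : Finset G :=
  haveI := Classical.decPred (fun y : G => IsConj (y ^ α) u)
  univ.filter (fun y => IsConj (y ^ α) u)

theorem mem_sec {α : ℕ} {u y : G} : y ∈ sec α u ↔ IsConj (y ^ α) u := by
  simp [sec]

theorem sec_conj {α : ℕ} {u : G} (g y : G) (hy : y ∈ sec α u) : g * y * g⁻¹ ∈ sec α u := by
  rw [mem_sec] at hy ⊢
  rw [conj_pow]
  exact (isConj_iff.mpr ⟨g⁻¹, by group⟩ : IsConj (g * y ^ α * g⁻¹) (y ^ α)).trans hy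

/-- Integrality at the primes `q ≠ p`. -/
theorem isIntegral_sec_q {p q : ℕ} (hp : p.Prime) (hq : q.Prime) (hpq : q ≠ p) {α : ℕ}
    (hα : Nat.card G / p ^ (Nat.card G).factorization p ∣ α) (u : G) :
    IsIntegral ℤ (((q ^ (Nat.card G).factorization q : ℕ) : ℂ)⁻¹ *
      ∑ y ∈ sec α u, ρ.character y * ρ.character y⁻¹) := by
  have : Fact q.Prime := ⟨hq⟩
  have hN : Nat.card G ≠ 0 := Nat.card_pos.ne'
  have hmul : q ^ (Nat.card G).factorization q *
      (Nat.card G / q ^ (Nat.card G).factorization q) = Nat.card G :=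
    Nat.ordProj_mul_ordCompl_eq_self _ _
  have hcop : Nat.Coprime (q ^ (Nat.card G).factorization q)
      (Nat.card G / q ^ (Nat.card G).factorization q) :=
    (Nat.coprime_ordCompl hq hN).pow_left _
  obtain ⟨γ, hγ0, hγ1⟩ := Nat.chineseRemainder hcop 0 1
  have hqα : q ^ (Nat.card G).factorization q ∣ α := by
    refine dvd_trans ?_ hα
    have h1 : q ^ (Nat.card G).factorization q ∣ p ^ (Nat.card G).factorization p *
      (Nat.card G / p ^ (Nat.card G).factorization p) := by
      rw [Nat.ordProj_mul_ordCompl_eq_self]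
      exact Nat.ordProj_dvd _ _
    have h2 : Nat.Coprime (q ^ (Nat.card G).factorization q)
        (p ^ (Nat.card G).factorization p) :=
      Nat.Coprime.pow _ _ ((Nat.coprime_primes hq hp).mpr hpq)
    exact h2.dvd_of_dvd_mul_left h1
  have h := isIntegral_section (ρ.tprod ρ.dual) (q := q) (sec α u)
    (fun g y hy => sec_conj g y hy) γ (Nat.modEq_zero_iff_dvd.mp hγ0) hγ1
    (by
      intro y
      rw [mem_sec, mem_sec]
      have h1 : (y ^ γ) ^ α = y ^ α := by
        rw [← pow_mul]
        apply pow_eq_pow_of_modEq_card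
        rw [← hmul]
        refine (Nat.modEq_and_modEq_iff_modEq_mul hcop).mp ⟨?_, ?_⟩
        · exact ((Nat.modEq_zero_iff_dvd.mpr (hqα.mul_left _))).trans
            (Nat.modEq_zero_iff_dvd.mpr hqα).symm
        · simpa using hγ1.mul_right α
      rw [h1])
  simpa [char_tensor, char_dual] using h

/-- Integrality at `p`. -/
theorem isIntegral_sec_p [ρ.IsIrreducible] (α : ℕ) (u : G) :
    IsIntegral ℤ ((((Nat.card G / Module.finrank ℂ V : ℕ) : ℂ) ^ 2 /
      ((orderOf u : ℂ) * (Nat.card G : ℂ))) *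
      ∑ y ∈ sec α u, ρ.character y * ρ.character y⁻¹) := by
  classical
  have hdim : (Module.finrank ℂ V : ℂ) ≠ 0 := by
    exact_mod_cast (finrank_pos_of_irreducible ρ).ne'
  have he : ((Nat.card G / Module.finrank ℂ V : ℕ) : ℂ) =
      (Nat.card G : ℂ) / (Module.finrank ℂ V : ℂ) :=
    Nat.cast_div (finrank_dvd_card ρ) hdim
  have hN : (Nat.card G : ℂ) ≠ 0 := by exact_mod_cast Nat.card_pos.ne'
  have hu : (orderOf u : ℂ) ≠ 0 := by exact_mod_cast (orderOf_pos u).ne'
  have h1 : ∑ y ∈ sec α u, ρ.character y * ρ.character y⁻¹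
      = ∑ y : G, if y ∈ sec α u then ρ.character y * ρ.character y⁻¹ else 0 := by
    simp [Finset.sum_ite_mem]
  rw [h1]
  apply isIntegral_sum_of_orbit (G := ConjAct G)
  · intro g y
    rw [ConjAct.smul_def]
    set c := ConjAct.ofConjAct g
    have h2 : (c * y * c⁻¹ ∈ sec α u) ↔ y ∈ sec α u := by
      constructor
      · intro h
        have := sec_conj c⁻¹ _ h
        have h3 : c⁻¹ * (c * y * c⁻¹) * c⁻¹⁻¹ = y := by group
        rwa [h3] at this
      · exact sec_conj c y
    have h3 : (c * y * c⁻¹)⁻¹ = c * y⁻¹ * c⁻¹ := by group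
    simp only [h2, h3, char_conj]
  · intro y
    by_cases hy : y ∈ sec α u
    · rw [if_pos hy]
      -- orderOf u divides the order of the centraliser
      have hcard : Nat.card (MulAction.orbit (ConjAct G) y) *
          Nat.card (MulAction.stabilizer (ConjAct G) y) = Nat.card G := by
        rw [Nat.card_eq_fintype_card, Nat.card_eq_fintype_card, Nat.card_eq_fintype_card]
        have h5 : Fintype.card G = Fintype.card (ConjAct G) := rfl
        rw [h5]
        exact MulAction.card_orbit_mul_card_stabilizer_eq_card_group (ConjAct G) y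
      have hdvd : orderOf u ∣ Nat.card (MulAction.stabilizer (ConjAct G) y) := by
        have h2 : orderOf u = orderOf (ConjAct.toConjAct (y ^ α)) := by
          rw [mem_sec] at hy
          obtain ⟨c, hc⟩ := isConj_iff.mp hy
          have h3 : orderOf (ConjAct.toConjAct (y ^ α)) = orderOf (y ^ α) :=
            MulEquiv.orderOf_eq (ConjAct.toConjAct (G := G)) (y ^ α)
          rw [h3, ← hc]
          exact orderOf_injective (MulAut.conj c).toMonoidHom (MulAut.conj c).injective (y ^ α)
        rw [h2]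
        have h3 : ConjAct.toConjAct (y ^ α) ∈ MulAction.stabilizer (ConjAct G) y := by
          rw [MulAction.mem_stabilizer_iff, ConjAct.smul_def, ConjAct.ofConjAct_toConjAct]
          have : Commute (y ^ α) y := (Commute.refl y).pow_left α
          rw [this.eq, mul_inv_cancel_right]
        have h4 := orderOf_dvd_natCard (⟨_, h3⟩ : MulAction.stabilizer (ConjAct G) y)
        rwa [Subgroup.orderOf_mk] at h4
      obtain ⟨m, hm⟩ := hdvd
      have hi := ((isIntegral_central ρ y).mul (isIntegral_central ρ y⁻¹)).mul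
        (isIntegral_natCast m)
      rw [clCard_inv] at hi
      have hstab : (Nat.card (MulAction.stabilizer (ConjAct G) y) : ℂ) ≠ 0 := by
        have : 0 < Nat.card (MulAction.stabilizer (ConjAct G) y) := Nat.card_pos
        exact_mod_cast this.ne'
      have hcl : (clCard y : ℂ) * ((orderOf u : ℂ) * (m : ℂ)) = (Nat.card G : ℂ) := by
        have h5 : clCard y * (orderOf u * m) = Nat.card G := by
          rw [← hm]; exact hcard
        exact_mod_cast congrArg (Nat.cast : ℕ → ℂ) h5
      have h6 : ((Nat.card G / Module.finrank ℂ V : ℕ) : ℂ) ^ 2 /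
          ((orderOf u : ℂ) * (Nat.card G : ℂ)) *
          (Nat.card (MulAction.orbit (ConjAct G) y) : ℂ) *
          (ρ.character y * ρ.character y⁻¹) =
          (clCard y : ℂ) * ρ.character y / (Module.finrank ℂ V : ℂ) *
          ((clCard y : ℂ) * ρ.character y⁻¹ / (Module.finrank ℂ V : ℂ)) * (m : ℂ) := by
        change ((Nat.card G / Module.finrank ℂ V : ℕ) : ℂ) ^ 2 /
          ((orderOf u : ℂ) * (Nat.card G : ℂ)) * (clCard y : ℂ) *
          (ρ.character y * ρ.character y⁻¹) = _
        rw [he]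
        rw [div_pow, ← hcl]
        have hcl0 : (clCard y : ℂ) ≠ 0 := by
          intro h0
          rw [h0, zero_mul] at hcl
          exact hN hcl.symm
        have hm0 : (m : ℂ) ≠ 0 := by
          intro h0
          rw [h0, mul_zero, mul_zero] at hcl
          exact hN hcl.symm
        field_simp
      rw [h6]
      exact hi
    · rw [if_neg hy, mul_zero]
      exact isIntegral_zero

/-- The normalised section sum is an algebraic integer. -/
theorem isIntegral_w [ρ.IsIrreducible] {p : ℕ} (hp : p.Prime) {α : ℕ}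
    (hα : Nat.card G / p ^ (Nat.card G).factorization p ∣ α) (u : G) {a : ℕ}
    (hu : orderOf u = p ^ a) :
    IsIntegral ℤ ((((p ^ (2 * (Nat.card G / Module.finrank ℂ V).factorization p) : ℕ) : ℂ) /
      (((p ^ a : ℕ) : ℂ) * (Nat.card G : ℂ))) *
      ∑ y ∈ sec α u, ρ.character y * ρ.character y⁻¹) := by
  have hN0 : Nat.card G ≠ 0 := Nat.card_pos.ne'
  have hN : (Nat.card G : ℂ) ≠ 0 := by exact_mod_cast hN0
  have hp0 : (p : ℂ) ≠ 0 := by exact_mod_cast hp.ne_zero
  set e : ℕ := Nat.card G / Module.finrank ℂ V with he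
  have he0 : e ≠ 0 := by
    rw [he]
    have := Nat.div_pos (Nat.le_of_dvd Nat.card_pos (finrank_dvd_card ρ))
      (finrank_pos_of_irreducible ρ)
    exact this.ne'
  set d : ℕ := e.factorization p with hd
  apply isIntegral_of_forall_prime
  intro r hr
  by_cases hrp : r = p
  · subst hrp
    refine ⟨(e / r ^ d) ^ 2, ?_, ?_⟩
    · intro h
      exact Nat.not_dvd_ordCompl hr he0 (hr.dvd_of_dvd_pow h)
    · have h1 := isIntegral_sec_p ρ α u
      rw [hu] at h1
      have h2 : (e : ℂ) = ((r ^ d : ℕ) : ℂ) * ((e / r ^ d : ℕ) : ℂ) := by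
        have : r ^ d * (e / r ^ d) = e := Nat.ordProj_mul_ordCompl_eq_self e r
        exact_mod_cast congrArg (Nat.cast : ℕ → ℂ) this.symm
      have h3 : ((((e / r ^ d) ^ 2 : ℕ)) : ℂ) *
          (((r ^ (2 * d) : ℕ) : ℂ) / (((r ^ a : ℕ) : ℂ) * (Nat.card G : ℂ)) *
          ∑ y ∈ sec α u, ρ.character y * ρ.character y⁻¹) =
          ((e : ℂ) ^ 2 / (((r ^ a : ℕ) : ℂ) * (Nat.card G : ℂ))) *
          ∑ y ∈ sec α u, ρ.character y * ρ.character y⁻¹ := by
        rw [h2]
        have h4 : ((r ^ (2 * d) : ℕ) : ℂ) = ((r ^ d : ℕ) : ℂ) ^ 2 := by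
          push_cast
          rw [mul_comm 2 d, pow_mul]
        rw [h4]
        push_cast
        ring
      rw [h3]
      exact h1
  · refine ⟨(Nat.card G / r ^ (Nat.card G).factorization r) * p ^ a, ?_, ?_⟩
    · intro h
      rcases (hr.dvd_mul).mp h with h | h
      · exact Nat.not_dvd_ordCompl hr hN0 h
      · exact hrp ((Nat.prime_dvd_prime_iff_eq hr hp).mp (hr.dvd_of_dvd_pow h))
    · have h1 := isIntegral_sec_q ρ hp hr hrp hα u
      have h2 : (Nat.card G : ℂ) = ((r ^ (Nat.card G).factorization r : ℕ) : ℂ) *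
          ((Nat.card G / r ^ (Nat.card G).factorization r : ℕ) : ℂ) := by
        have : r ^ (Nat.card G).factorization r *
          (Nat.card G / r ^ (Nat.card G).factorization r) = Nat.card G :=
          Nat.ordProj_mul_ordCompl_eq_self _ r
        exact_mod_cast congrArg (Nat.cast : ℕ → ℂ) this.symm
      have hr0 : ((r ^ (Nat.card G).factorization r : ℕ) : ℂ) ≠ 0 := by
        have := pow_ne_zero ((Nat.card G).factorization r) hr.ne_zero
        exact_mod_cast this
      have hr1 : ((Nat.card G / r ^ (Nat.card G).factorization r : ℕ) : ℂ) ≠ 0 := by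
        intro h0
        rw [h0, mul_zero] at h2
        exact hN h2
      have hpa : ((p ^ a : ℕ) : ℂ) ≠ 0 := by
        push_cast
        exact pow_ne_zero _ hp0
      have h3 : ((((Nat.card G / r ^ (Nat.card G).factorization r) * p ^ a : ℕ)) : ℂ) *
          (((p ^ (2 * d) : ℕ) : ℂ) / (((p ^ a : ℕ) : ℂ) * (Nat.card G : ℂ)) *
          ∑ y ∈ sec α u, ρ.character y * ρ.character y⁻¹) =
          ((p ^ (2 * d) : ℕ) : ℂ) * ((((r ^ (Nat.card G).factorization r : ℕ) : ℂ))⁻¹ *
          ∑ y ∈ sec α u, ρ.character y * ρ.character y⁻¹) := by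
        rw [h2]
        push_cast at hr0 hr1 hpa ⊢
        field_simp
      rw [h3]
      exact (isIntegral_natCast _).mul h1

/-- The number of exponents `j` with `u ^ j` conjugate to `u`. -/
noncomputable def MM (u : G) : ℕ :=
  Nat.card {j : (ZMod (Nat.card G))ˣ // IsConj u (pw j u)}

/-- Sum over all Galois conjugates of the sections. -/
theorem sum_sec_le (f : G → ℝ) (hf : ∀ y, 0 ≤ f y) (α : ℕ) (u : G) (hu : u ≠ 1)
    [NeZero (Nat.card G)] :
    ∑ j : (ZMod (Nat.card G))ˣ, ∑ y ∈ sec α u, f (pw j y) ≤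
      (MM u : ℝ) * (∑ y, f y - f 1) := by
  classical
  have h1 : ∀ j : (ZMod (Nat.card G))ˣ, ∑ y ∈ sec α u, f (pw j y)
      = ∑ g : G, if IsConj (g ^ α) (pw j u) then f g else 0 := by
    intro j
    rw [← Finset.sum_filter]
    refine Finset.sum_bij (fun y _ => pw j y) ?_ ?_ ?_ ?_
    · intro y hy
      rw [mem_sec] at hy
      rw [mem_filter]
      refine ⟨mem_univ _, ?_⟩
      rw [pw_pow]
      exact isConj_pw j hy
    · intro y _ y' _ h
      exact (pwEquiv j).injective h
    · intro g hg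
      rw [mem_filter] at hg
      obtain ⟨y, rfl⟩ := (pwEquiv j).surjective g
      refine ⟨y, ?_, rfl⟩
      rw [mem_sec]
      have h2 := hg.2
      change IsConj ((pw j y) ^ α) (pw j u) at h2
      rw [pw_pow] at h2
      exact (isConj_pw_iff j).mp h2
    · intro y _
      rfl
  simp_rw [h1]
  rw [Finset.sum_comm]
  have h2 : ∀ g : G, (∑ j : (ZMod (Nat.card G))ˣ, if IsConj (g ^ α) (pw j u) then f g else 0) ≤
      if g = 1 then 0 else (MM u : ℝ) * f g := by
    intro g
    split_ifs with hg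
    · subst hg
      apply le_of_eq
      apply Finset.sum_eq_zero
      intro j _
      rw [if_neg]
      intro h
      rw [one_pow, isConj_one_right] at h
      exact hu (pw_eq_one h)
    · rw [← Finset.sum_filter, Finset.sum_const, nsmul_eq_mul]
      apply mul_le_mul_of_nonneg_right _ (hf g)
      have h3 : #(univ.filter (fun j : (ZMod (Nat.card G))ˣ => IsConj (g ^ α) (pw j u))) ≤ MM u := by
        rcases Finset.eq_empty_or_nonempty
          (univ.filter (fun j : (ZMod (Nat.card G))ˣ => IsConj (g ^ α) (pw j u))) with h | h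
        · rw [h]; simp
        · obtain ⟨j0, hj0⟩ := h
          rw [mem_filter] at hj0
          unfold MM
          rw [Nat.card_eq_fintype_card (α := {j : (ZMod (Nat.card G))ˣ // IsConj u (pw j u)}),
            Fintype.card_subtype]
          apply Finset.card_le_card_of_injOn (fun j => j0⁻¹ * j)
          · intro j hj
            simp only [coe_filter, mem_univ, true_and, Set.mem_ofPred_eq] at hj ⊢
            have h4 : IsConj (pw j0 u) (pw j u) := hj0.2.symm.trans hj
            have h5 := isConj_pw j0⁻¹ h4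
            rwa [← pw_mul, ← pw_mul, inv_mul_cancel, pw_one] at h5
          · intro j _ j' _ h
            exact mul_left_cancel h
      exact_mod_cast h3
  refine (Finset.sum_le_sum (fun g _ => h2 g)).trans ?_
  apply le_of_eq
  rw [mul_sub, Finset.mul_sum, ← Finset.sum_erase_eq_sub (Finset.mem_univ (1 : G))]
  rw [← Finset.sum_erase (Finset.univ : Finset G) (a := (1 : G)) (by simp)]
  apply Finset.sum_congr rfl
  intro g hg
  rw [if_neg (Finset.ne_of_mem_erase hg)]

theorem MM_pos (u : G) : 0 < MM u := by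
  have : NeZero (Nat.card G) := ⟨Nat.card_pos.ne'⟩
  unfold MM
  rw [Nat.card_pos_iff]
  refine ⟨⟨1, ?_⟩, inferInstance⟩
  rw [pw_one]

/-- The main inequality. -/
theorem main_ineq [ρ.IsIrreducible] {p : ℕ} (hp : p.Prime) {α : ℕ}
    (hα : Nat.card G / p ^ (Nat.card G).factorization p ∣ α) (x u : G) (hxu : x ^ α = u) {a : ℕ}
    (hu : orderOf u = p ^ a) (ha : a ≠ 0) (hx : ρ.character x ≠ 0) :
    (Nat.card G).totient * p ^ a <
      p ^ (2 * (Nat.card G / Module.finrank ℂ V).factorization p) * MM u := by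
  classical
  have hN0 : Nat.card G ≠ 0 := Nat.card_pos.ne'
  have hNe : NeZero (Nat.card G) := ⟨hN0⟩
  have hN : (Nat.card G : ℂ) ≠ 0 := by exact_mod_cast hN0
  have hNpos : (0 : ℝ) < (Nat.card G : ℝ) := by exact_mod_cast Nat.card_pos
  have hp0 : (p : ℂ) ≠ 0 := by exact_mod_cast hp.ne_zero
  have hppos : (0 : ℝ) < (p : ℝ) := by exact_mod_cast hp.pos
  set d : ℕ := (Nat.card G / Module.finrank ℂ V).factorization p with hd
  have hint := isIntegral_w ρ hp hα u hu
  rw [← hd] at hint
  let f : G → ℝ := fun y => Complex.normSq (ρ.character y)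
  have hf0 : ∀ y, 0 ≤ f y := fun y => Complex.normSq_nonneg _
  have hu1 : u ≠ 1 := by
    rintro rfl
    rw [orderOf_one] at hu
    have := (Nat.one_lt_pow ha hp.one_lt)
    omega
  set c : ℝ := ((p ^ (2 * d) : ℕ) : ℝ) / (((p ^ a : ℕ) : ℝ) * (Nat.card G : ℝ)) with hc
  have hcpos : 0 < c := by
    rw [hc]
    push_cast
    positivity
  -- the family of conjugates
  let A : (ZMod (Nat.card G))ˣ → ℂ := fun j =>
    (((((p ^ (2 * d) : ℕ) : ℚ) / (((p ^ a : ℕ) : ℚ) * (Nat.card G : ℚ))) : ℚ) : ℂ) *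
      ∑ y ∈ sec α u, ρ.character (y ^ (j : ZMod (Nat.card G)).val) *
        ρ.character ((y⁻¹) ^ (j : ZMod (Nat.card G)).val)
  have hA : IsCyc (Nat.card G) A :=
    (IsCyc.const _).mul (IsCyc.sum _ _ (fun y _ =>
      (IsCyc.char ρ y pow_card_eq_one').mul (IsCyc.char ρ y⁻¹ pow_card_eq_one')))
  let r : (ZMod (Nat.card G))ˣ → ℝ := fun j => c * ∑ y ∈ sec α u, f (pw j y)
  have hr : ∀ j, A j = (r j : ℂ) := by
    intro j
    simp only [A, r]
    push_cast
    rw [hc]
    push_cast
    congr 1
    apply Finset.sum_congr rfl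
    intro y _
    rw [inv_pow, char_mul_char_inv]
    rfl
  have hr0 : ∀ j, 0 ≤ r j := fun j =>
    mul_nonneg hcpos.le (Finset.sum_nonneg (fun y _ => hf0 _))
  have hr1 : r 1 = c * ∑ y ∈ sec α u, f y := by
    simp only [r, pw_one]
  have hA1 : IsIntegral ℤ (A 1) := by
    rw [hr, hr1, hc]
    convert hint using 1
    push_cast
    congr 1
    apply Finset.sum_congr rfl
    intro y _
    rw [char_mul_char_inv]
  have hA1' : A 1 ≠ 0 := by
    rw [hr, hr1]
    have h1 : 0 < ∑ y ∈ sec α u, f y := by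
      apply Finset.sum_pos'
      · intro y _
        exact hf0 y
      · refine ⟨x, ?_, Complex.normSq_pos.mpr hx⟩
        rw [mem_sec, hxu]
    have h2 : 0 < c * ∑ y ∈ sec α u, f y := mul_pos hcpos h1
    exact_mod_cast h2.ne'
  have h1 := hA.totient_le r hr hr0 hA1 hA1'
  have h2 : ∑ j, r j ≤ c * ((MM u : ℝ) * (∑ y, f y - f 1)) := by
    simp only [r]
    rw [← Finset.mul_sum]
    exact mul_le_mul_of_nonneg_left (sum_sec_le f hf0 α u hu1) hcpos.le
  have h3 : ∑ y, f y = (Nat.card G : ℝ) := by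
    have h4 := sum_char_mul_inv ρ
    simp_rw [char_mul_char_inv] at h4
    exact_mod_cast h4
  have h4 : 0 < f 1 := by
    apply Complex.normSq_pos.mpr
    rw [char_one]
    exact_mod_cast (finrank_pos_of_irreducible ρ).ne'
  have hMM : (0 : ℝ) < (MM u : ℝ) := by exact_mod_cast MM_pos u
  have h5 : c * ((MM u : ℝ) * (∑ y, f y - f 1)) < c * ((MM u : ℝ) * (Nat.card G : ℝ)) := by
    rw [h3]
    apply mul_lt_mul_of_pos_left _ hcpos
    apply mul_lt_mul_of_pos_left _ hMM
    linarith
  have h6 : ((Nat.card G).totient : ℝ) < c * ((MM u : ℝ) * (Nat.card G : ℝ)) :=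
    lt_of_le_of_lt (h1.trans h2) h5
  have h7 : c * ((MM u : ℝ) * (Nat.card G : ℝ)) = ((p ^ (2 * d) : ℕ) : ℝ) * (MM u : ℝ) /
      ((p ^ a : ℕ) : ℝ) := by
    rw [hc]
    push_cast
    field_simp
  rw [h7, lt_div_iff₀ (by push_cast; positivity)] at h6
  exact_mod_cast h6

end Pool.Agent.H42.Wilde
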