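import Mathlib
import Pool.Agent.H42.Wilde.Ineq

/-!
The number of exponents fixing the class of `u`, and the index `|N(⟨u⟩) : C(u)|`.
-/

namespace Pool.Agent.H42.Wilde

open Finset

variable {G : Type*} [Group G] [Finite G]

/-- The subgroup of the units `j` modulo the order of `u` with `u ^ j` conjugate to `u`. -/
def HH (u : G) : Subgroup (ZMod (orderOf u))ˣ where
  carrier := {j | IsConj u (u ^ (j : ZMod (orderOf u)).val)}
  one_mem' := by
    have : NeZero (orderOf u) := ⟨(orderOf_pos u).ne'⟩
    change IsConj u _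
    rw [Units.val_one, ZMod.val_one_eq_one_mod, pow_mod_orderOf, pow_one]
  mul_mem' := by
    have : NeZero (orderOf u) := ⟨(orderOf_pos u).ne'⟩
    intro j k hj hk
    change IsConj u _ at hj hk ⊢
    rw [Units.val_mul, ZMod.val_mul, pow_mod_orderOf, pow_mul]
    refine hk.trans ?_
    exact hj.pow _
  inv_mem' := by
    have : NeZero (orderOf u) := ⟨(orderOf_pos u).ne'⟩
    intro j hj
    change IsConj u _ at hj ⊢
    have h1 := hj.pow ((j⁻¹ : (ZMod (orderOf u))ˣ) : ZMod (orderOf u)).val
    have h2 : (u ^ (j : ZMod (orderOf u)).val) ^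
        ((j⁻¹ : (ZMod (orderOf u))ˣ) : ZMod (orderOf u)).val = u := by
      rw [← pow_mul, ← pow_mod_orderOf, ← ZMod.val_mul, ← Units.val_mul, mul_inv_cancel,
        Units.val_one, ZMod.val_one_eq_one_mod, pow_mod_orderOf, pow_one]
    rw [h2] at h1
    exact h1.symm

theorem mem_HH {u : G} {j : (ZMod (orderOf u))ˣ} :
    j ∈ HH u ↔ IsConj u (u ^ (j : ZMod (orderOf u)).val) := Iff.rfl

theorem MM_mul_index (u : G) : MM u * (HH u).index = (Nat.card G).totient := by
  have hN : NeZero (Nat.card G) := ⟨Nat.card_pos.ne'⟩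
  have : NeZero (orderOf u) := ⟨(orderOf_pos u).ne'⟩
  have hdvd : orderOf u ∣ Nat.card G := orderOf_dvd_natCard u
  have h1 := Subgroup.index_comap_of_surjective (HH u) (ZMod.unitsMap_surjective hdvd)
  have h2 := Subgroup.card_mul_index ((HH u).comap (ZMod.unitsMap hdvd))
  rw [h1, Nat.card_eq_fintype_card (α := (ZMod (Nat.card G))ˣ), ZMod.card_units_eq_totient] at h2
  rw [← h2]
  congr 1
  unfold MM
  apply Nat.card_congr
  apply Equiv.subtypeEquivRight
  intro j
  rw [Subgroup.mem_comap, mem_HH, ZMod.unitsMap_val]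
  have h3 : u ^ ((j : ZMod (Nat.card G)).cast : ZMod (orderOf u)).val = pw j u := by
    unfold pw
    rw [← ZMod.natCast_val, ZMod.val_natCast, pow_mod_orderOf]
  rw [h3]

theorem card_HH_mul_index (u : G) : Nat.card (HH u) * (HH u).index = (orderOf u).totient := by
  have : NeZero (orderOf u) := ⟨(orderOf_pos u).ne'⟩
  rw [Subgroup.card_mul_index, Nat.card_eq_fintype_card, ZMod.card_units_eq_totient]

theorem card_HH (u : G) :
    Nat.card (HH u) = Nat.card {v : G // v ∈ Subgroup.zpowers u ∧ IsConj u v} := by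
  have : NeZero (orderOf u) := ⟨(orderOf_pos u).ne'⟩
  apply Nat.card_congr
  refine Equiv.ofBijective (fun j => ⟨u ^ ((j : (ZMod (orderOf u))ˣ) : ZMod (orderOf u)).val,
    ⟨Subgroup.npow_mem_zpowers _ _, j.2⟩⟩) ⟨?_, ?_⟩
  · intro j k h
    have h1 : u ^ ((j : (ZMod (orderOf u))ˣ) : ZMod (orderOf u)).val =
      u ^ ((k : (ZMod (orderOf u))ˣ) : ZMod (orderOf u)).val := congrArg Subtype.val h
    apply Subtype.ext
    apply Units.ext
    apply ZMod.val_injective
    exact pow_injOn_Iio_orderOf (ZMod.val_lt _) (ZMod.val_lt _) h1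
  · rintro ⟨v, hv, hc⟩
    have hv' : v ∈ Submonoid.powers u := (mem_powers_iff_mem_zpowers).mpr hv
    obtain ⟨s, rfl⟩ := Submonoid.mem_powers_iff _ _ |>.mp hv'
    have hord : orderOf (u ^ s) = orderOf u := by
      obtain ⟨c, hc'⟩ := isConj_iff.mp hc
      rw [← hc']
      exact orderOf_injective (MulAut.conj c).toMonoidHom (MulAut.conj c).injective u
    have hcop : s.Coprime (orderOf u) := by
      have h1 := orderOf_pow u (n := s)
      rw [hord] at h1
      have h2 : (orderOf u).gcd s ∣ orderOf u := Nat.gcd_dvd_left _ _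
      have h3 : 0 < orderOf u := orderOf_pos u
      have h4 : (orderOf u).gcd s = 1 := by
        obtain ⟨t, ht⟩ := h2
        have h5 : 0 < (orderOf u).gcd s := Nat.gcd_pos_of_pos_left _ h3
        have h6 : orderOf u / (orderOf u).gcd s = t := Nat.div_eq_of_eq_mul_right h5 ht
        rw [h6] at h1
        rw [← h1] at ht
        nth_rewrite 1 [← one_mul (orderOf u)] at ht
        exact (Nat.eq_of_mul_eq_mul_right h3 ht).symm
      rw [Nat.coprime_comm]
      exact h4
    have h7 : u ^ ((ZMod.unitOfCoprime s hcop : (ZMod (orderOf u))ˣ) : ZMod (orderOf u)).val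
        = u ^ s := by
      rw [ZMod.coe_unitOfCoprime, ZMod.val_natCast, pow_mod_orderOf]
    refine ⟨⟨ZMod.unitOfCoprime s hcop, ?_⟩, ?_⟩
    · rw [mem_HH, h7]
      exact hc
    · apply Subtype.ext
      exact h7

/-- The conjugates of `u` in `⟨u⟩` are counted by `|N(⟨u⟩) : C(u)|`. -/
theorem card_conj_eq_relIndex (u : G) :
    Nat.card {v : G // v ∈ Subgroup.zpowers u ∧ IsConj u v} =
      (Subgroup.centralizer {u}).relIndex (Subgroup.normalizer (Subgroup.zpowers u : Set G)) := by
  let Nn := Subgroup.normalizer (Subgroup.zpowers u : Set G)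
  let φ : Nn →* ConjAct G := (ConjAct.toConjAct (G := G)).toMonoidHom.comp Nn.subtype
  let _ : MulAction Nn G := MulAction.compHom G φ
  have hsmul : ∀ (g : Nn) (x : G), g • x = (g : G) * x * (g : G)⁻¹ := fun g x => rfl
  have h1 := MulAction.index_stabilizer Nn u
  have h2 : MulAction.stabilizer Nn u = (Subgroup.centralizer {u}).subgroupOf Nn := by
    ext g
    rw [MulAction.mem_stabilizer_iff, hsmul, Subgroup.mem_subgroupOf, Subgroup.mem_centralizer_iff]
    constructor
    · intro h y hy
      rw [Set.mem_singleton_iff] at hy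
      subst hy
      rw [mul_inv_eq_iff_eq_mul] at h
      exact h.symm
    · intro h
      rw [mul_inv_eq_iff_eq_mul]
      exact (h u rfl).symm
  have h3 : MulAction.orbit Nn u = {v : G | v ∈ Subgroup.zpowers u ∧ IsConj u v} := by
    ext v
    rw [MulAction.mem_orbit_iff]
    constructor
    · rintro ⟨g, rfl⟩
      rw [hsmul]
      refine ⟨?_, isConj_iff.mpr ⟨g, rfl⟩⟩
      exact (Subgroup.mem_normalizer_iff.mp g.2 u).mp (Subgroup.mem_zpowers u)
    · rintro ⟨hv, hc⟩
      obtain ⟨c, hc'⟩ := isConj_iff.mp hc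
      have hord : orderOf v = orderOf u := by
        rw [← hc']
        exact orderOf_injective (MulAut.conj c).toMonoidHom (MulAut.conj c).injective u
      have hle : Subgroup.zpowers v ≤ Subgroup.zpowers u := Subgroup.zpowers_le.mpr hv
      have heq : Subgroup.zpowers v = Subgroup.zpowers u := by
        apply Subgroup.eq_of_le_of_card_ge hle
        rw [Nat.card_zpowers, Nat.card_zpowers, hord]
      have hcN : c ∈ Nn := by
        rw [Subgroup.mem_normalizer_iff]
        intro h
        have h5 : ∀ k : ℤ, c * u ^ k * c⁻¹ = v ^ k := by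
          intro k
          rw [← hc', conj_zpow]
        constructor
        · intro hh
          obtain ⟨k, rfl⟩ := Subgroup.mem_zpowers_iff.mp hh
          rw [h5, ← heq]
          exact Subgroup.zpow_mem_zpowers _ _
        · intro hh
          rw [← heq] at hh
          obtain ⟨k, hk⟩ := Subgroup.mem_zpowers_iff.mp hh
          rw [← h5] at hk
          have : u ^ k = h := by
            have := congrArg (fun z => c⁻¹ * z * c) hk
            simpa [mul_assoc] using this
          rw [← this]
          exact Subgroup.zpow_mem_zpowers _ _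
      exact ⟨⟨c, hcN⟩, by rw [hsmul]; exact hc'⟩
  rw [h2, h3] at h1
  rw [Subgroup.relIndex]
  rw [h1]
  rfl

omit [Finite G] in
/-- `|N(⟨u⟩) : C(u)| · o(u)` divides the order of the group. -/
theorem relIndex_mul_orderOf_dvd (u : G) :
    (Subgroup.centralizer {u}).relIndex (Subgroup.normalizer (Subgroup.zpowers u : Set G)) *
      orderOf u ∣ Nat.card G := by
  set Nn := Subgroup.normalizer (Subgroup.zpowers u : Set G)
  have h1 : (Subgroup.centralizer {u}).relIndex Nn *
      Nat.card ((Subgroup.centralizer {u}).subgroupOf Nn) = Nat.card Nn := by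
    rw [Subgroup.relIndex, mul_comm]
    exact Subgroup.card_mul_index _
  have huN : u ∈ Nn := Subgroup.le_normalizer (Subgroup.mem_zpowers u)
  have hmem : (⟨u, huN⟩ : Nn) ∈ (Subgroup.centralizer {u}).subgroupOf Nn := by
    rw [Subgroup.mem_subgroupOf, Subgroup.mem_centralizer_iff]
    intro y hy
    rw [Set.mem_singleton_iff] at hy
    rw [hy]
  have h2 : orderOf u ∣ Nat.card ((Subgroup.centralizer {u}).subgroupOf Nn) := by
    have h4 := orderOf_dvd_natCard (⟨_, hmem⟩ : (Subgroup.centralizer {u}).subgroupOf Nn)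
    rwa [Subgroup.orderOf_mk, Subgroup.orderOf_mk] at h4
  refine dvd_trans (mul_dvd_mul_left _ h2) ?_
  rw [h1]
  exact Subgroup.card_subgroup_dvd_card Nn

end Pool.Agent.H42.Wilde
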