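import Mathlib
import Pool.Agent.H42.Wilde.Fusion

/-!
The local inequality and its arithmetic consequences.
-/

namespace Pool.Agent.H42.Wilde

open Finset

section

variable {G V : Type*} [Group G] [Finite G] [AddCommGroup V] [Module ℂ V] [FiniteDimensional ℂ V]
  (ρ : Representation ℂ G V)

/-- The local inequality. -/
theorem local_ineq [ρ.IsIrreducible] (x : G) (hx : ρ.character x ≠ 0) {p : ℕ} (hp : p.Prime)
    (hpx : p ∣ orderOf x) (u : G) (hux : u ∈ Subgroup.zpowers x)
    (hu : orderOf u = p ^ (orderOf x).factorization p) :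
    p ^ (orderOf x).factorization p * (p ^ (orderOf x).factorization p).totient <
      (Subgroup.centralizer {u}).relIndex (Subgroup.normalizer (Subgroup.zpowers u : Set G)) *
        p ^ (2 * (Nat.card G / Module.finrank ℂ V).factorization p) ∧
    (Subgroup.centralizer {u}).relIndex (Subgroup.normalizer (Subgroup.zpowers u : Set G)) ∣
      (p ^ (orderOf x).factorization p).totient ∧
    2 * (orderOf x).factorization p ≤
      2 * (Nat.card G / Module.finrank ℂ V).factorization p +
      ((Subgroup.centralizer {u}).relIndex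
        (Subgroup.normalizer (Subgroup.zpowers u : Set G))).factorization p := by
  have : Fintype G := Fintype.ofFinite G
  have hx0 : orderOf x ≠ 0 := (orderOf_pos x).ne'
  have hN0 : Nat.card G ≠ 0 := Nat.card_pos.ne'
  set a := (orderOf x).factorization p with ha
  set d := (Nat.card G / Module.finrank ℂ V).factorization p with hd
  set m := (Subgroup.centralizer {u}).relIndex
    (Subgroup.normalizer (Subgroup.zpowers u : Set G)) with hm
  have ha0 : a ≠ 0 := by
    rw [ha]
    exact (hp.factorization_pos_of_dvd hx0 hpx).ne'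
  -- write `u` as a power of `x`
  obtain ⟨s, hs⟩ := Submonoid.mem_powers_iff _ _ |>.mp ((mem_powers_iff_mem_zpowers).mpr hux)
  have hgcd : (orderOf x).gcd s * p ^ a = orderOf x := by
    have h1 := orderOf_pow x (n := s)
    rw [hs, hu] at h1
    rw [h1]
    exact Nat.mul_div_cancel' (Nat.gcd_dvd_left _ _)
  have hrcop : ¬ p ∣ (orderOf x).gcd s := by
    intro h
    have h1 : p ^ (a + 1) ∣ orderOf x := by
      rw [← hgcd, pow_succ, mul_comm]
      exact mul_dvd_mul_right h _
    have h2 := (hp.pow_dvd_iff_le_factorization hx0).mp h1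
    omega
  have hps : ¬ p ∣ s := fun h => hrcop (Nat.dvd_gcd hpx h)
  have hcop : Nat.Coprime (p ^ (Nat.card G).factorization p)
      (Nat.card G / p ^ (Nat.card G).factorization p) :=
    (Nat.coprime_ordCompl hp hN0).pow_left _
  have hmul : p ^ (Nat.card G).factorization p *
      (Nat.card G / p ^ (Nat.card G).factorization p) = Nat.card G :=
    Nat.ordProj_mul_ordCompl_eq_self _ _
  obtain ⟨α, hα1, hα0⟩ := Nat.chineseRemainder hcop s 0
  have hxN : orderOf x ∣ Nat.card G := orderOf_dvd_natCard x
  have hxu : x ^ α = u := by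
    rw [← hs, pow_eq_pow_iff_modEq]
    have h1 : orderOf x = p ^ a * (orderOf x).gcd s := by rw [mul_comm]; exact hgcd.symm
    rw [h1]
    have hc : Nat.Coprime (p ^ a) ((orderOf x).gcd s) :=
      ((hp.coprime_iff_not_dvd).mpr hrcop).pow_left _
    refine (Nat.modEq_and_modEq_iff_modEq_mul hc).mp ⟨?_, ?_⟩
    · apply hα1.of_dvd
      have h2 : p ^ a ∣ Nat.card G := (Nat.ordProj_dvd _ _).trans hxN
      exact pow_dvd_pow _ ((hp.pow_dvd_iff_le_factorization hN0).mp h2)
    · have h3 : (orderOf x).gcd s ∣ Nat.card G / p ^ (Nat.card G).factorization p := by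
        have h4 : (orderOf x).gcd s ∣ p ^ (Nat.card G).factorization p *
            (Nat.card G / p ^ (Nat.card G).factorization p) := by
          rw [hmul]
          exact (Nat.gcd_dvd_left _ _).trans hxN
        have h5 : Nat.Coprime ((orderOf x).gcd s) (p ^ (Nat.card G).factorization p) :=
          (((hp.coprime_iff_not_dvd).mpr hrcop).pow_left _).symm
        exact h5.dvd_of_dvd_mul_left h4
      have h6 : (orderOf x).gcd s ∣ α := h3.trans (Nat.modEq_zero_iff_dvd.mp hα0)
      exact (Nat.modEq_zero_iff_dvd.mpr h6).trans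
        (Nat.modEq_zero_iff_dvd.mpr (Nat.gcd_dvd_right _ _)).symm
  have hmain := main_ineq ρ hp (Nat.modEq_zero_iff_dvd.mp hα0) x u hxu hu ha0 hx
  rw [← hd, ← MM_mul_index] at hmain
  have hMM := MM_pos u
  have h1 : (HH u).index * p ^ a < p ^ (2 * d) := by
    have h2 : MM u * ((HH u).index * p ^ a) < MM u * p ^ (2 * d) := by
      rw [← mul_assoc, mul_comm (MM u) (p ^ (2 * d))]
      exact hmain
    exact Nat.lt_of_mul_lt_mul_left h2
  have hmi : m * (HH u).index = (p ^ a).totient := by
    rw [← hu, hm, ← card_conj_eq_relIndex, ← card_HH]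
    exact card_HH_mul_index u
  have hpa : 0 < (p ^ a).totient := Nat.totient_pos.mpr (pow_pos hp.pos _)
  have hm0 : 0 < m := Nat.pos_of_ne_zero (by rintro h; rw [h, zero_mul] at hmi; omega)
  have hi0 : 0 < (HH u).index :=
    Nat.pos_of_ne_zero (by rintro h; rw [h, mul_zero] at hmi; omega)
  refine ⟨?_, ⟨_, hmi.symm⟩, ?_⟩
  · rw [← hmi]
    calc p ^ a * (m * (HH u).index) = m * ((HH u).index * p ^ a) := by ring
      _ < m * p ^ (2 * d) := Nat.mul_lt_mul_of_pos_left h1 hm0
  · have h2 : (p ^ a).totient.factorization p = a - 1 := by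
      rw [Nat.totient_prime_pow hp (Nat.pos_of_ne_zero ha0)]
      rw [Nat.factorization_mul (pow_pos hp.pos _).ne' (by have := hp.two_le; omega)]
      rw [Nat.factorization_pow, hp.factorization]
      have h3 : (p - 1).factorization p = 0 := by
        apply Nat.factorization_eq_zero_of_not_dvd
        intro h
        have := Nat.le_of_dvd (by have := hp.two_le; omega) h
        have := hp.two_le
        omega
      simp [h3]
    have h3 : m.factorization p + (HH u).index.factorization p = a - 1 := by
      rw [← h2, ← hmi, Nat.factorization_mul hm0.ne' hi0.ne']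
      rfl
    have h4 : p ^ ((HH u).index.factorization p) ≤ (HH u).index :=
      Nat.le_of_dvd hi0 (Nat.ordProj_dvd _ _)
    have h5 : p ^ ((HH u).index.factorization p + a) < p ^ (2 * d) := by
      rw [pow_add]
      exact lt_of_le_of_lt (Nat.mul_le_mul_right _ h4) h1
    have h6 := (Nat.pow_lt_pow_iff_right hp.one_lt).mp h5
    omega

/-- A generator of the `p`-part of `⟨x⟩`. -/
theorem exists_ppart (x : G) (p : ℕ) :
    ∃ u ∈ Subgroup.zpowers x, orderOf u = p ^ (orderOf x).factorization p := by
  have hx0 : orderOf x ≠ 0 := (orderOf_pos x).ne'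
  refine ⟨x ^ (orderOf x / p ^ (orderOf x).factorization p),
    Subgroup.npow_mem_zpowers _ _, ?_⟩
  rw [orderOf_pow_of_dvd (Nat.ordCompl_pos p hx0).ne' (Nat.ordCompl_dvd _ _)]
  rw [Nat.div_div_self (Nat.ordProj_dvd _ _) hx0]

/-- Exponents at a prime dividing the order of `x`. -/
theorem local_exponents [ρ.IsIrreducible] (x : G) (hx : ρ.character x ≠ 0) {p : ℕ} (hp : p.Prime)
    (hpx : p ∣ orderOf x) :
    (orderOf x).factorization p + 1 ≤ 2 * (Nat.card G / Module.finrank ℂ V).factorization p ∧
    3 * (orderOf x).factorization p ≤ 2 * (Nat.card G / Module.finrank ℂ V).factorization p +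
      (Nat.card G).factorization p ∧
    ((orderOf x).factorization p ≤ (Nat.card G / Module.finrank ℂ V).factorization p ∨
      (p ^ 3 ∣ orderOf x ∧ p ^ 5 ∣ Nat.card G ∧
        ∀ u ∈ Subgroup.zpowers x, orderOf u = p ^ (orderOf x).factorization p →
          p ^ 2 ∣ (Subgroup.centralizer {u}).relIndex
            (Subgroup.normalizer (Subgroup.zpowers u : Set G)))) := by
  have hx0 : orderOf x ≠ 0 := (orderOf_pos x).ne'
  have hN0 : Nat.card G ≠ 0 := Nat.card_pos.ne'
  -- facts for each generator
  have key : ∀ u ∈ Subgroup.zpowers x, orderOf u = p ^ (orderOf x).factorization p →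
      ∃ c : ℕ, c = ((Subgroup.centralizer {u}).relIndex
        (Subgroup.normalizer (Subgroup.zpowers u : Set G))).factorization p ∧
      2 * (orderOf x).factorization p ≤
        2 * (Nat.card G / Module.finrank ℂ V).factorization p + c ∧
      c + 1 ≤ (orderOf x).factorization p ∧
      c + (orderOf x).factorization p ≤ (Nat.card G).factorization p := by
    intro u hux hu
    obtain ⟨_, h2, h3⟩ := local_ineq ρ x hx hp hpx u hux hu
    refine ⟨_, rfl, h3, ?_, ?_⟩
    · have ha0 : 0 < (orderOf x).factorization p := hp.factorization_pos_of_dvd hx0 hpx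
      have hpa : 0 < (p ^ (orderOf x).factorization p).totient :=
        Nat.totient_pos.mpr (pow_pos hp.pos _)
      have h4 := (Nat.factorization_le_iff_dvd
        (by rintro h; rw [h, zero_dvd_iff] at h2; omega) hpa.ne').mpr h2 p
      have h5 : (p ^ (orderOf x).factorization p).totient.factorization p =
          (orderOf x).factorization p - 1 := by
        rw [Nat.totient_prime_pow hp ha0]
        rw [Nat.factorization_mul (pow_pos hp.pos _).ne' (by have := hp.two_le; omega)]
        rw [Nat.factorization_pow, hp.factorization]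
        have h3 : (p - 1).factorization p = 0 := by
          apply Nat.factorization_eq_zero_of_not_dvd
          intro h
          have := Nat.le_of_dvd (by have := hp.two_le; omega) h
          have := hp.two_le
          omega
        simp [h3]
      omega
    · have h4 := relIndex_mul_orderOf_dvd u
      rw [hu] at h4
      have h6 : (Subgroup.centralizer {u}).relIndex
          (Subgroup.normalizer (Subgroup.zpowers u : Set G)) ≠ 0 := by
        intro h
        rw [h, zero_mul, zero_dvd_iff] at h4
        exact hN0 h4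
      have h5 := (Nat.factorization_le_iff_dvd
        (mul_ne_zero h6 (pow_pos hp.pos _).ne') hN0).mpr h4 p
      rw [Nat.factorization_mul h6 (pow_pos hp.pos _).ne', Nat.factorization_pow,
        hp.factorization] at h5
      simpa using h5
  obtain ⟨u, hux, hu⟩ := exists_ppart x p
  obtain ⟨c, hc, h1, h2, h3⟩ := key u hux hu
  refine ⟨by omega, by omega, ?_⟩
  by_cases h : (orderOf x).factorization p ≤ (Nat.card G / Module.finrank ℂ V).factorization p
  · exact Or.inl h
  · right
    refine ⟨?_, ?_, ?_⟩
    · rw [hp.pow_dvd_iff_le_factorization hx0]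
      omega
    · rw [hp.pow_dvd_iff_le_factorization hN0]
      omega
    · intro u' hux' hu'
      obtain ⟨c', hc', h1', h2', h3'⟩ := key u' hux' hu'
      rcases Nat.eq_zero_or_pos ((Subgroup.centralizer {u'}).relIndex
        (Subgroup.normalizer (Subgroup.zpowers u' : Set G))) with h0 | h0
      · rw [h0]; exact dvd_zero _
      · rw [hp.pow_dvd_iff_le_factorization h0.ne']
        omega

theorem factorization_prod_primeFactors (n : ℕ) (p : ℕ) :
    (∏ q ∈ n.primeFactors, q).factorization p = if p ∈ n.primeFactors then 1 else 0 := by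
  rw [Nat.factorization_prod (fun q hq => (Nat.prime_of_mem_primeFactors hq).ne_zero)]
  rw [Finsupp.finsetSum_apply]
  have h1 : ∀ q ∈ n.primeFactors, q.factorization p = if p = q then 1 else 0 := by
    intro q hq
    rw [(Nat.prime_of_mem_primeFactors hq).factorization, Finsupp.single_apply]
    simp [eq_comm]
  rw [Finset.sum_congr rfl h1, Finset.sum_ite_eq]

/-- The arithmetic consequences. -/
theorem global_consequences [ρ.IsIrreducible] (x : G) (hx : ρ.character x ≠ 0) :
    orderOf x * (∏ q ∈ (orderOf x).primeFactors, q) * Module.finrank ℂ V ^ 2 ∣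
      Nat.card G ^ 2 ∧
    orderOf x ^ 3 * Module.finrank ℂ V ^ 2 ∣ Nat.card G ^ 3 ∧
    (orderOf x * Module.finrank ℂ V) ^ 4 * (∏ q ∈ (orderOf x).primeFactors, q) ∣
      Nat.card G ^ 5 ∧
    ((∀ p : ℕ, p.Prime → p ^ 3 ∣ orderOf x → p ^ 5 ∣ Nat.card G →
      ∃ u ∈ Subgroup.zpowers x, orderOf u = p ^ (orderOf x).factorization p ∧
        ¬ p ^ 2 ∣ (Subgroup.centralizer {u}).relIndex
            (Subgroup.normalizer (Subgroup.zpowers u : Set G))) →
      orderOf x ∣ Nat.card G / Module.finrank ℂ V) := by
  have hx0 : orderOf x ≠ 0 := (orderOf_pos x).ne'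
  have hN0 : Nat.card G ≠ 0 := Nat.card_pos.ne'
  have hdim := finrank_pos_of_irreducible ρ
  have hdvd := finrank_dvd_card ρ
  have he0 : Nat.card G / Module.finrank ℂ V ≠ 0 :=
    (Nat.div_pos (Nat.le_of_dvd Nat.card_pos hdvd) hdim).ne'
  have hrad0 : (∏ q ∈ (orderOf x).primeFactors, q) ≠ 0 :=
    Finset.prod_ne_zero_iff.mpr (fun q hq => (Nat.prime_of_mem_primeFactors hq).ne_zero)
  -- exponents
  have hN : ∀ p, (Nat.card G).factorization p =
      (Nat.card G / Module.finrank ℂ V).factorization p + (Module.finrank ℂ V).factorization p := by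
    intro p
    have h1 : Nat.card G / Module.finrank ℂ V * Module.finrank ℂ V = Nat.card G :=
      Nat.div_mul_cancel hdvd
    conv_lhs => rw [← h1]
    rw [Nat.factorization_mul he0 hdim.ne']
    rfl
  have hrad := factorization_prod_primeFactors (orderOf x)
  have hcase : ∀ p : ℕ, p.Prime → (¬ p ∣ orderOf x ∧ (orderOf x).factorization p = 0 ∧
      (∏ q ∈ (orderOf x).primeFactors, q).factorization p = 0) ∨
      (p ∣ orderOf x ∧ (∏ q ∈ (orderOf x).primeFactors, q).factorization p = 1) := by
    intro p hp
    by_cases h : p ∣ orderOf x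
    · right
      refine ⟨h, ?_⟩
      rw [hrad, if_pos (Nat.mem_primeFactors.mpr ⟨hp, h, hx0⟩)]
    · left
      refine ⟨h, Nat.factorization_eq_zero_of_not_dvd h, ?_⟩
      rw [hrad, if_neg (fun hm => h (Nat.dvd_of_mem_primeFactors hm))]
  refine ⟨?_, ?_, ?_, ?_⟩
  · rw [← Nat.factorization_prime_le_iff_dvd
      (mul_ne_zero (mul_ne_zero hx0 hrad0) (pow_ne_zero _ hdim.ne')) (pow_ne_zero _ hN0)]
    intro p hp
    rw [Nat.factorization_mul (mul_ne_zero hx0 hrad0) (pow_ne_zero _ hdim.ne'),
      Nat.factorization_mul hx0 hrad0, Nat.factorization_pow, Nat.factorization_pow]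
    simp only [Finsupp.add_apply, Finsupp.smul_apply, smul_eq_mul]
    rw [hN p]
    rcases hcase p hp with ⟨_, h1, h2⟩ | ⟨h1, h2⟩
    · rw [h1, h2]; omega
    · obtain ⟨h3, h4, _⟩ := local_exponents ρ x hx hp h1
      rw [h2]; omega
  · rw [← Nat.factorization_prime_le_iff_dvd
      (mul_ne_zero (pow_ne_zero _ hx0) (pow_ne_zero _ hdim.ne')) (pow_ne_zero _ hN0)]
    intro p hp
    rw [Nat.factorization_mul (pow_ne_zero _ hx0) (pow_ne_zero _ hdim.ne'),
      Nat.factorization_pow, Nat.factorization_pow, Nat.factorization_pow]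
    simp only [Finsupp.add_apply, Finsupp.smul_apply, smul_eq_mul]
    have hNp := hN p
    rcases hcase p hp with ⟨_, h1, h2⟩ | ⟨h1, h2⟩
    · rw [h1]; omega
    · obtain ⟨h3, h4, _⟩ := local_exponents ρ x hx hp h1
      omega
  · rw [← Nat.factorization_prime_le_iff_dvd
      (mul_ne_zero (pow_ne_zero _ (mul_ne_zero hx0 hdim.ne')) hrad0) (pow_ne_zero _ hN0)]
    intro p hp
    rw [Nat.factorization_mul (pow_ne_zero _ (mul_ne_zero hx0 hdim.ne')) hrad0,
      Nat.factorization_pow, Nat.factorization_mul hx0 hdim.ne', Nat.factorization_pow]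
    simp only [Finsupp.add_apply, Finsupp.smul_apply, smul_eq_mul]
    have hNp := hN p
    rcases hcase p hp with ⟨_, h1, h2⟩ | ⟨h1, h2⟩
    · rw [h1, h2]; omega
    · obtain ⟨h3, h4, _⟩ := local_exponents ρ x hx hp h1
      rw [h2]; omega
  · intro hyp
    rw [← Nat.factorization_prime_le_iff_dvd hx0 he0]
    intro p hp
    rcases hcase p hp with ⟨_, h1, h2⟩ | ⟨h1, h2⟩
    · rw [h1]; omega
    · obtain ⟨_, _, h5⟩ := local_exponents ρ x hx hp h1
      rcases h5 with h5 | ⟨h6, h7, h8⟩
      · exact h5
      · exfalso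
        obtain ⟨u, hux, hu, hn⟩ := hyp p hp h6 h7
        exact hn (h8 u hux hu)

end

end Pool.Agent.H42.Wilde
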