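import Mathlib
import Pool.Agent.H42.Wilde.Fusion

/-!
Projective representations as families of invertible operators.
-/

namespace Pool.Agent.H42.Wilde

open Finset

/-- A set of operators acts irreducibly. -/
def IrrSet {V : Type*} [AddCommGroup V] [Module ℂ V] (s : Set (Module.End ℂ V)) : Prop :=
  Nontrivial V ∧ ∀ W : Submodule ℂ V, (∀ f ∈ s, ∀ v ∈ W, f v ∈ W) → W = ⊥ ∨ W = ⊤

section irr

variable {V : Type*} [AddCommGroup V] [Module ℂ V]

theorem IrrSet.mono {s t : Set (Module.End ℂ V)} (h : s ⊆ t) (hs : IrrSet s) : IrrSet t :=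
  ⟨hs.1, fun W hW => hs.2 W (fun f hf => hW f (h hf))⟩

/-- Schur's lemma. -/
theorem IrrSet.schur [FiniteDimensional ℂ V] {s : Set (Module.End ℂ V)} (hs : IrrSet s)
    (X : Module.End ℂ V) (hX : ∀ f ∈ s, f * X = X * f) : ∃ c : ℂ, X = c • (1 : Module.End ℂ V) := by
  have := hs.1
  obtain ⟨c, hc⟩ := Module.End.exists_eigenvalue X
  refine ⟨c, ?_⟩
  have h1 := hs.2 (Module.End.eigenspace X c) (by
    intro f hf v hv
    rw [Module.End.mem_eigenspace_iff] at hv ⊢
    have h2 : X (f v) = f (X v) := by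
      have := congrArg (fun Y : Module.End ℂ V => Y v) (hX f hf)
      exact this.symm
    rw [h2, hv, map_smul])
  rcases h1 with h1 | h1
  · exact absurd h1 hc
  · ext v
    have h2 : v ∈ Module.End.eigenspace X c := by rw [h1]; exact Submodule.mem_top
    rw [Module.End.mem_eigenspace_iff] at h2
    simpa using h2

end irr

/-- A projective representation: invertible operators multiplicative up to scalars. -/
structure PRep (G : Type*) [Group G] (V : Type*) [AddCommGroup V] [Module ℂ V] where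
  /-- the operators -/
  T : G → (Module.End ℂ V)ˣ
  /-- multiplicativity up to scalars -/
  mul' : ∀ g h : G, ∃ c : ℂ, (T g : Module.End ℂ V) * (T h : Module.End ℂ V) =
    c • ((T (g * h) : (Module.End ℂ V)ˣ) : Module.End ℂ V)

namespace PRep

variable {G : Type*} [Group G] {V : Type*} [AddCommGroup V] [Module ℂ V] (T : PRep G V)

/-- The operator attached to `g`. -/
def op (g : G) : Module.End ℂ V := (T.T g : Module.End ℂ V)

/-- The inverse of the operator attached to `g`. -/
def iop (g : G) : Module.End ℂ V := ((T.T g)⁻¹ : (Module.End ℂ V)ˣ)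

theorem op_mul_iop (g : G) : T.op g * T.iop g = 1 := Units.mul_inv _

theorem iop_mul_op (g : G) : T.iop g * T.op g = 1 := Units.inv_mul _

theorem op_ne_zero [Nontrivial V] (g : G) : T.op g ≠ 0 := (T.T g).ne_zero

theorem exists_mul [Nontrivial V] (g h : G) :
    ∃ c : ℂ, c ≠ 0 ∧ T.op g * T.op h = c • T.op (g * h) := by
  obtain ⟨c, hc⟩ := T.mul' g h
  refine ⟨c, ?_, hc⟩
  rintro rfl
  rw [zero_smul] at hc
  have : ((T.T g * T.T h : (Module.End ℂ V)ˣ) : Module.End ℂ V) = 0 := by
    rw [Units.val_mul]; exact hc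
  exact (T.T g * T.T h).ne_zero this

theorem exists_mul' [Nontrivial V] (g h : G) :
    ∃ c : ℂ, c ≠ 0 ∧ T.op (g * h) = c • (T.op g * T.op h) := by
  obtain ⟨c, hc, h1⟩ := T.exists_mul g h
  exact ⟨c⁻¹, inv_ne_zero hc, by rw [h1, smul_smul, inv_mul_cancel₀ hc, one_smul]⟩

theorem op_one [Nontrivial V] : ∃ c : ℂ, c ≠ 0 ∧ T.op 1 = c • (1 : Module.End ℂ V) := by
  obtain ⟨c, hc, h⟩ := T.exists_mul 1 1
  refine ⟨c, hc, ?_⟩
  rw [mul_one] at h
  have := congrArg (fun Y => Y * T.iop 1) h
  simpa [mul_assoc, op_mul_iop] using this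

theorem iop_eq [Nontrivial V] (g : G) : ∃ c : ℂ, c ≠ 0 ∧ T.iop g = c • T.op g⁻¹ := by
  obtain ⟨c, hc, h⟩ := T.exists_mul g g⁻¹
  obtain ⟨d, hd, h1⟩ := T.op_one
  rw [mul_inv_cancel, h1, smul_smul] at h
  refine ⟨(c * d)⁻¹, inv_ne_zero (mul_ne_zero hc hd), ?_⟩
  have h2 : T.op g⁻¹ = (c * d) • T.iop g := by
    have := congrArg (fun Y => T.iop g * Y) h
    simpa [← mul_assoc, iop_mul_op] using this
  rw [h2, smul_smul, inv_mul_cancel₀ (mul_ne_zero hc hd), one_smul]

theorem conj_op [Nontrivial V] (g h : G) :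
    ∃ c : ℂ, c ≠ 0 ∧ T.op g * T.op h * T.iop g = c • T.op (g * h * g⁻¹) := by
  obtain ⟨c, hc, h1⟩ := T.exists_mul g h
  obtain ⟨d, hd, h2⟩ := T.iop_eq g
  obtain ⟨e, he, h3⟩ := T.exists_mul (g * h) g⁻¹
  refine ⟨c * d * e, mul_ne_zero (mul_ne_zero hc hd) he, ?_⟩
  rw [h1, h2, smul_mul_smul_comm, h3, smul_smul]

theorem exists_pow [Nontrivial V] (g : G) (k : ℕ) :
    ∃ c : ℂ, c ≠ 0 ∧ T.op g ^ k = c • T.op (g ^ k) := by
  induction k with
  | zero =>
    obtain ⟨c, hc, h⟩ := T.op_one
    exact ⟨c⁻¹, inv_ne_zero hc, by rw [pow_zero, pow_zero, h, smul_smul, inv_mul_cancel₀ hc, one_smul]⟩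
  | succ k ih =>
    obtain ⟨c, hc, h⟩ := ih
    obtain ⟨d, hd, h1⟩ := T.exists_mul (g ^ k) g
    exact ⟨c * d, mul_ne_zero hc hd, by rw [pow_succ, pow_succ, h, smul_mul_assoc, h1, smul_smul]⟩

/-- Irreducibility on a subset of the group. -/
def IrrOn (s : Set G) : Prop := IrrSet (T.op '' s)

/-- Irreducibility. -/
def Irr : Prop := T.IrrOn Set.univ

theorem IrrOn.mono {T : PRep G V} {s t : Set G} (h : s ⊆ t) (hs : T.IrrOn s) : T.IrrOn t :=
  IrrSet.mono (Set.image_mono h) hs

theorem IrrOn.irr {T : PRep G V} {s : Set G} (hs : T.IrrOn s) : T.Irr :=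
  hs.mono (Set.subset_univ s)

theorem IrrOn.schur {T : PRep G V} [FiniteDimensional ℂ V] {s : Set G} (hs : T.IrrOn s)
    (X : Module.End ℂ V) (hX : ∀ g ∈ s, T.op g * X = X * T.op g) :
    ∃ c : ℂ, X = c • (1 : Module.End ℂ V) := by
  apply IrrSet.schur hs
  rintro f ⟨g, hg, rfl⟩
  exact hX g hg

theorem Irr.schur {T : PRep G V} [FiniteDimensional ℂ V] (hs : T.Irr)
    (X : Module.End ℂ V) (hX : ∀ g, T.op g * X = X * T.op g) :
    ∃ c : ℂ, X = c • (1 : Module.End ℂ V) :=
  IrrOn.schur hs X (fun g _ => hX g)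

/-- Pull back along a homomorphism. -/
def comap {H : Type*} [Group H] (φ : H →* G) : PRep H V where
  T h := T.T (φ h)
  mul' g h := by
    obtain ⟨c, hc⟩ := T.mul' (φ g) (φ h)
    exact ⟨c, by rw [hc, map_mul]⟩

@[simp] theorem comap_op {H : Type*} [Group H] (φ : H →* G) (h : H) :
    (T.comap φ).op h = T.op (φ h) := rfl

/-- The character of the adjoint action: `tr(T_g) tr(T_g⁻¹)`. -/
noncomputable def psi (g : G) : ℂ := LinearMap.trace ℂ V (T.op g) * LinearMap.trace ℂ V (T.iop g)

/-- The adjoint representation. -/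
def adj [Nontrivial V] : Representation ℂ G (Module.End ℂ V) where
  toFun g := (LinearMap.mulLeft ℂ (T.op g)) * (LinearMap.mulRight ℂ (T.iop g))
  map_one' := by
    obtain ⟨c, hc, h⟩ := T.op_one
    have h1 : T.iop 1 = c⁻¹ • (1 : Module.End ℂ V) := by
      have := T.iop_mul_op 1
      rw [h, mul_smul_comm, mul_one] at this
      rw [← this, smul_smul, inv_mul_cancel₀ hc, one_smul]
    ext1 X
    change T.op 1 * (X * T.iop 1) = X
    rw [h, h1, mul_smul_comm, smul_mul_smul_comm, mul_inv_cancel₀ hc, one_smul, one_mul, mul_one]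
  map_mul' g h := by
    obtain ⟨c, hc, h1⟩ := T.exists_mul g h
    have h2 : T.iop (g * h) = c • (T.iop h * T.iop g) := by
      have h3 : (T.op g * T.op h) * (T.iop h * T.iop g) = 1 := by
        rw [mul_assoc, ← mul_assoc (T.op h), op_mul_iop, one_mul, op_mul_iop]
      rw [h1] at h3
      have h4 : T.iop (g * h) * ((c • T.op (g * h)) * (T.iop h * T.iop g)) = T.iop (g * h) := by
        rw [h3, mul_one]
      rw [smul_mul_assoc, mul_smul_comm, ← mul_assoc, iop_mul_op, one_mul] at h4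
      exact h4.symm
    have h5 : T.op (g * h) = c⁻¹ • (T.op g * T.op h) := by
      rw [h1, smul_smul, inv_mul_cancel₀ hc, one_smul]
    ext1 X
    change T.op (g * h) * (X * T.iop (g * h)) = T.op g * ((T.op h * (X * T.iop h)) * T.iop g)
    rw [h2, h5, mul_smul_comm, smul_mul_smul_comm, inv_mul_cancel₀ hc, one_smul]
    simp only [mul_assoc]

theorem adj_apply [Nontrivial V] (g : G) (X : Module.End ℂ V) :
    T.adj g X = T.op g * X * T.iop g := by
  change T.op g * (X * T.iop g) = _
  rw [mul_assoc]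

end PRep

/-- The trace of `X ↦ a X b`. -/
theorem trace_conj {V : Type*} [AddCommGroup V] [Module ℂ V] [FiniteDimensional ℂ V]
    (a : (Module.End ℂ V)ˣ) :
    LinearMap.trace ℂ (Module.End ℂ V)
      ((LinearMap.mulLeft ℂ (a : Module.End ℂ V)) *
        (LinearMap.mulRight ℂ ((a⁻¹ : (Module.End ℂ V)ˣ) : Module.End ℂ V))) =
    LinearMap.trace ℂ V (a : Module.End ℂ V) *
      LinearMap.trace ℂ V ((a⁻¹ : (Module.End ℂ V)ˣ) : Module.End ℂ V) := by
  let ρ : Representation ℂ (Multiplicative ℤ) V :=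
    (Units.coeHom (Module.End ℂ V)).comp (zpowersHom (Module.End ℂ V)ˣ a)
  have h := Representation.char_linHom ρ ρ (Multiplicative.ofAdd 1)
  have h1 : ρ (Multiplicative.ofAdd 1) = (a : Module.End ℂ V) := by
    simp [ρ]
  have h2 : ρ (Multiplicative.ofAdd 1)⁻¹ = ((a⁻¹ : (Module.End ℂ V)ˣ) : Module.End ℂ V) := by
    simp [ρ]
  have h3 : ρ.character (Multiplicative.ofAdd 1) = LinearMap.trace ℂ V (a : Module.End ℂ V) := by
    rw [Representation.character, h1]
  have h4 : ρ.character (Multiplicative.ofAdd 1)⁻¹ =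
      LinearMap.trace ℂ V ((a⁻¹ : (Module.End ℂ V)ˣ) : Module.End ℂ V) := by
    rw [Representation.character, h2]
  rw [h3, h4] at h
  rw [mul_comm (LinearMap.trace ℂ V (a : Module.End ℂ V)), ← h, Representation.character]
  congr 1

namespace PRep

variable {G : Type*} [Group G] {V : Type*} [AddCommGroup V] [Module ℂ V] [FiniteDimensional ℂ V]
  (T : PRep G V)

theorem adj_character [Nontrivial V] (g : G) : T.adj.character g = T.psi g := by
  rw [Representation.character, psi]
  exact trace_conj (T.T g)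

end PRep

/-- For an operator of finite order the trace of the inverse is the conjugate of the trace. -/
theorem trace_inv_conj {V : Type*} [AddCommGroup V] [Module ℂ V] [FiniteDimensional ℂ V]
    (a b : Module.End ℂ V) (N : ℕ) (hN : N ≠ 0) (haN : a ^ N = 1) (hab : a * b = 1) :
    LinearMap.trace ℂ V b = starRingEnd ℂ (LinearMap.trace ℂ V a) := by
  have ha : a ^ N * a = a := by rw [haN, one_mul]
  let ρ : Representation ℂ (Multiplicative (ZMod N)) V :=
    { toFun := fun z => a ^ (Multiplicative.toAdd z).val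
      map_one' := by
        have : NeZero N := ⟨hN⟩
        simp
      map_mul' := by
        intro x y
        have : NeZero N := ⟨hN⟩
        rw [toAdd_mul, ZMod.val_add, ← pow_add]
        conv_rhs => rw [← Nat.mod_add_div ((Multiplicative.toAdd x).val + (Multiplicative.toAdd y).val) N]
        rw [pow_add, pow_mul, haN, one_pow, mul_one] }
  have : NeZero N := ⟨hN⟩
  have : Finite (Multiplicative (ZMod N)) := inferInstance
  have h := char_inv ρ (Multiplicative.ofAdd (1 : ZMod N))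
  have h1 : ρ (Multiplicative.ofAdd (1 : ZMod N)) = a := by
    change a ^ (Multiplicative.toAdd (Multiplicative.ofAdd (1 : ZMod N))).val = a
    rw [toAdd_ofAdd, ZMod.val_one_eq_one_mod]
    rcases Nat.lt_or_ge 1 N with h2 | h2
    · rw [Nat.mod_eq_of_lt h2, pow_one]
    · have h3 : N = 1 := by omega
      subst h3
      rw [Nat.mod_self, pow_zero]
      rw [pow_one] at haN
      exact haN.symm
  have h2 : ρ (Multiplicative.ofAdd (1 : ZMod N))⁻¹ = b := by
    have h3 : ρ (Multiplicative.ofAdd (1 : ZMod N)) * ρ (Multiplicative.ofAdd (1 : ZMod N))⁻¹ = 1 := by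
      rw [← map_mul, mul_inv_cancel, map_one]
    have h4 : ρ (Multiplicative.ofAdd (1 : ZMod N))⁻¹ * ρ (Multiplicative.ofAdd (1 : ZMod N)) = 1 := by
      rw [← map_mul, inv_mul_cancel, map_one]
    rw [h1] at h3 h4
    calc ρ (Multiplicative.ofAdd (1 : ZMod N))⁻¹
        = ρ (Multiplicative.ofAdd (1 : ZMod N))⁻¹ * (a * b) := by rw [hab, mul_one]
      _ = b := by rw [← mul_assoc, h4, one_mul]
  rw [Representation.character, Representation.character, h1, h2] at h
  exact h

end Pool.Agent.H42.Wilde
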