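import Mathlib
import Pool.Agent.H42.Wilde.PRep

/-!
Characters of projective representations: positivity, orthogonality, integrality.
-/

namespace Pool.Agent.H42.Wilde

open Finset

namespace PRep

variable {G : Type*} [Group G] [Finite G] {V : Type*} [AddCommGroup V] [Module ℂ V]
  [FiniteDimensional ℂ V] (T : PRep G V)

/-- `psi` is the square of an absolute value. -/
theorem psi_real [Nontrivial V] (g : G) :
    ∃ r : ℝ, 0 ≤ r ∧ T.psi g = (r : ℂ) ∧ (LinearMap.trace ℂ V (T.op g) ≠ 0 → r ≠ 0) := by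
  set k := orderOf g with hk
  have hk0 : 0 < k := orderOf_pos g
  obtain ⟨c, hc, h1⟩ := T.exists_pow g k
  obtain ⟨d, hd, h2⟩ := T.op_one
  rw [hk, pow_orderOf_eq_one, h2, smul_smul, ← hk] at h1
  obtain ⟨l, hl⟩ := IsAlgClosed.exists_pow_nat_eq (c * d) hk0
  have hl0 : l ≠ 0 := by
    rintro rfl
    rw [zero_pow hk0.ne'] at hl
    exact mul_ne_zero hc hd hl.symm
  have ha : (l⁻¹ • T.op g) ^ k = 1 := by
    rw [smul_pow, h1, smul_smul, inv_pow, hl, inv_mul_cancel₀ (mul_ne_zero hc hd), one_smul]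
  have hab : (l⁻¹ • T.op g) * (l • T.iop g) = 1 := by
    rw [smul_mul_smul_comm, inv_mul_cancel₀ hl0, one_smul, op_mul_iop]
  have h3 := trace_inv_conj _ _ k hk0.ne' ha hab
  refine ⟨Complex.normSq (LinearMap.trace ℂ V (l⁻¹ • T.op g)), Complex.normSq_nonneg _, ?_, ?_⟩
  · rw [← Complex.mul_conj, ← h3, map_smul, map_smul, psi, smul_eq_mul, smul_eq_mul]
    field_simp
  · intro h
    have h4 : LinearMap.trace ℂ V (l⁻¹ • T.op g) ≠ 0 := by
      rw [map_smul, smul_eq_mul]
      exact mul_ne_zero (inv_ne_zero hl0) h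
    exact (Complex.normSq_pos.mpr h4).ne'

omit [Finite G] in
theorem psi_one [Nontrivial V] : T.psi 1 = (Module.finrank ℂ V : ℂ) ^ 2 := by
  obtain ⟨c, hc, h⟩ := T.op_one
  have h1 : T.iop 1 = c⁻¹ • (1 : Module.End ℂ V) := by
    have := T.iop_mul_op 1
    rw [h, mul_smul_comm, mul_one] at this
    rw [← this, smul_smul, inv_mul_cancel₀ hc, one_smul]
  rw [psi, h, h1, map_smul, map_smul, LinearMap.trace_one, smul_eq_mul, smul_eq_mul]
  field_simp

/-- Orthogonality. -/
theorem sum_psi [Nontrivial V] [Fintype G] (hT : T.Irr) :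
    ∑ g : G, T.psi g = (Nat.card G : ℂ) := by
  have hN : (Nat.card G : ℂ) ≠ 0 := by exact_mod_cast Nat.card_pos.ne'
  have : Invertible (Nat.card G : ℂ) := invertibleOfNonzero hN
  have h := Representation.card_inv_mul_sum_char_eq_finrank T.adj
  have h1 : Module.finrank ℂ (Representation.invariants T.adj) = 1 := by
    have h2 : Representation.invariants T.adj = Submodule.span ℂ {(1 : Module.End ℂ V)} := by
      ext X
      rw [Representation.mem_invariants, Submodule.mem_span_singleton]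
      constructor
      · intro hX
        obtain ⟨c, hc⟩ := hT.schur X (by
          intro g
          have h3 := hX g
          rw [adj_apply] at h3
          have h4 := congrArg (fun Y => Y * T.op g) h3
          simpa [mul_assoc, iop_mul_op] using h4)
        exact ⟨c, hc.symm⟩
      · rintro ⟨c, rfl⟩ g
        rw [adj_apply, mul_smul_comm, mul_one, smul_mul_assoc, op_mul_iop]
    rw [h2]
    exact finrank_span_singleton one_ne_zero
  rw [h1, inv_mul_eq_iff_eq_mul₀ hN] at h
  simp_rw [adj_character] at h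
  simpa using h

omit [Finite G] in
/-- Rescale to determinant one. -/
theorem exists_normalize [Nontrivial V] : ∃ T' : PRep G V,
    (∀ g, LinearMap.det (T'.op g) = 1) ∧ (∀ g, ∃ c : ℂ, c ≠ 0 ∧ T'.op g = c • T.op g) := by
  have hn : 0 < Module.finrank ℂ V := Module.finrank_pos
  have h1 : ∀ g : G, ∃ c : ℂ, c ≠ 0 ∧ c ^ Module.finrank ℂ V = (LinearMap.det (T.op g))⁻¹ := by
    intro g
    have hdet : LinearMap.det (T.op g) ≠ 0 := by
      have h2 := congrArg LinearMap.det (T.op_mul_iop g)
      rw [map_mul, map_one] at h2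
      exact left_ne_zero_of_mul_eq_one h2
    obtain ⟨l, hl⟩ := IsAlgClosed.exists_pow_nat_eq ((LinearMap.det (T.op g))⁻¹) hn
    refine ⟨l, ?_, hl⟩
    rintro rfl
    rw [zero_pow hn.ne'] at hl
    exact inv_ne_zero hdet hl.symm
  choose l hl0 hl using h1
  let T' : PRep G V :=
    { T := fun g => ⟨l g • T.op g, (l g)⁻¹ • T.iop g, by
          rw [smul_mul_smul_comm, mul_inv_cancel₀ (hl0 g), one_smul, op_mul_iop], by
          rw [smul_mul_smul_comm, inv_mul_cancel₀ (hl0 g), one_smul, iop_mul_op]⟩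
      mul' := by
        intro g h
        obtain ⟨c, hc, h2⟩ := T.exists_mul g h
        refine ⟨l g * l h * c * (l (g * h))⁻¹, ?_⟩
        change (l g • T.op g) * (l h • T.op h) = _ • (l (g * h) • T.op (g * h))
        rw [smul_mul_smul_comm, h2, smul_smul, smul_smul, mul_assoc, mul_assoc,
          inv_mul_cancel₀ (hl0 _), mul_one] }
  refine ⟨T', fun g => ?_, fun g => ⟨l g, hl0 g, rfl⟩⟩
  change LinearMap.det (l g • T.op g) = 1
  have hdet : LinearMap.det (T.op g) ≠ 0 := by
    have h2 := congrArg LinearMap.det (T.op_mul_iop g)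
    rw [map_mul, map_one] at h2
    exact left_ne_zero_of_mul_eq_one h2
  rw [LinearMap.det_smul, hl, inv_mul_cancel₀ hdet]

omit [Finite G] [FiniteDimensional ℂ V] in
theorem psi_eq_of_smul [Nontrivial V] {T' : PRep G V}
    (h : ∀ g, ∃ c : ℂ, c ≠ 0 ∧ T'.op g = c • T.op g) (g : G) : T'.psi g = T.psi g := by
  obtain ⟨c, hc, h1⟩ := h g
  have h2 : T'.iop g = c⁻¹ • T.iop g := by
    have h3 := T'.iop_mul_op g
    rw [h1] at h3
    have h4 := congrArg (fun Y => Y * T.iop g) h3
    simp only [mul_smul_comm, smul_mul_assoc, mul_assoc, op_mul_iop, mul_one, one_mul] at h4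
    rw [← h4, smul_smul, inv_mul_cancel₀ hc, one_smul]
  rw [psi, psi, h1, h2, map_smul, map_smul, smul_eq_mul, smul_eq_mul]
  field_simp

omit [Finite G] [FiniteDimensional ℂ V] in
theorem irrOn_of_smul {T T' : PRep G V} {s : Set G}
    (h : ∀ g, ∃ c : ℂ, c ≠ 0 ∧ T'.op g = c • T.op g) (hs : T.IrrOn s) : T'.IrrOn s := by
  refine ⟨hs.1, fun W hW => hs.2 W ?_⟩
  rintro f ⟨g, hg, rfl⟩ v hv
  obtain ⟨c, hc, h1⟩ := h g
  have h2 := hW (T'.op g) ⟨g, hg, rfl⟩ v hv
  rw [h1, LinearMap.smul_apply] at h2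
  exact (Submodule.smul_mem_iff W hc).mp h2

omit [Finite G] [FiniteDimensional ℂ V] in
theorem trace_conj_op (g : G) (X : Module.End ℂ V) :
    LinearMap.trace ℂ V (T.op g * X * T.iop g) = LinearMap.trace ℂ V X := by
  rw [LinearMap.trace_mul_comm, ← mul_assoc, iop_mul_op, one_mul]

omit [Finite G] [FiniteDimensional ℂ V] in
/-- Conjugates of `T_y` only depend on the conjugate of `y`, if the trace does not vanish. -/
theorem adj_eq_of_conj_eq [Nontrivial V] {y g g' : G} (hy : LinearMap.trace ℂ V (T.op y) ≠ 0)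
    (h : g * y * g⁻¹ = g' * y * g'⁻¹) : T.adj g (T.op y) = T.adj g' (T.op y) := by
  have h1 : g = g' * (g'⁻¹ * g) := by group
  have h2 : T.adj (g'⁻¹ * g) (T.op y) = T.op y := by
    obtain ⟨c, hc, h3⟩ := T.conj_op (g'⁻¹ * g) y
    have h4 : g'⁻¹ * g * y * (g'⁻¹ * g)⁻¹ = y := by
      have h5 : g'⁻¹ * g * y * (g'⁻¹ * g)⁻¹ = g'⁻¹ * (g * y * g⁻¹) * g' := by group
      rw [h5, h]
      group
    rw [h4] at h3
    have h6 := congrArg (LinearMap.trace ℂ V) h3
    rw [trace_conj_op, map_smul, smul_eq_mul] at h6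
    have h7 : c = 1 := by
      have : (c - 1) * LinearMap.trace ℂ V (T.op y) = 0 := by
        rw [sub_mul, one_mul, ← h6, sub_self]
      exact sub_eq_zero.mp ((mul_eq_zero.mp this).resolve_right hy)
    rw [adj_apply, h3, h7, one_smul]
  conv_lhs => rw [h1, map_mul]
  change T.adj g' (T.adj (g'⁻¹ * g) (T.op y)) = _
  rw [h2]

/-- Central characters of projective representations are integral. -/
theorem isIntegral_central_of_det [Nontrivial V] (hT : T.Irr)
    (hdet : ∀ g, LinearMap.det (T.op g) = 1) (y : G)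
    (hy : LinearMap.trace ℂ V (T.op y) ≠ 0) :
    IsIntegral ℤ ((clCard y : ℂ) * LinearMap.trace ℂ V (T.op y) / (Module.finrank ℂ V : ℂ)) := by
  classical
  have : Fintype G := Fintype.ofFinite G
  have hn : 0 < Module.finrank ℂ V := Module.finrank_pos
  set n := Module.finrank ℂ V with hndef
  -- the finite monoid
  let M : Submonoid (Module.End ℂ V) :=
    { carrier := {X | ∃ z : ℂ, z ^ n = 1 ∧ ∃ g, X = z • T.op g}
      one_mem' := by
        obtain ⟨c, hc, h⟩ := T.op_one
        refine ⟨c⁻¹, ?_, 1, ?_⟩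
        · have h1 := hdet 1
          rw [h, LinearMap.det_smul, map_one, mul_one] at h1
          rw [inv_pow, h1, inv_one]
        · rw [h, smul_smul, inv_mul_cancel₀ hc, one_smul]
      mul_mem' := by
        rintro _ _ ⟨z, hz, g, rfl⟩ ⟨w, hw, h, rfl⟩
        obtain ⟨c, hc, h1⟩ := T.exists_mul g h
        refine ⟨z * w * c, ?_, g * h, ?_⟩
        · have h2 := congrArg LinearMap.det h1
          rw [map_mul, hdet, hdet, LinearMap.det_smul, hdet, mul_one, mul_one] at h2
          rw [mul_pow, mul_pow, hz, hw, ← h2]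
          norm_num
        · rw [smul_mul_smul_comm, h1, smul_smul] }
  have hMfin : (M : Set (Module.End ℂ V)).Finite := by
    have h1 : (M : Set (Module.End ℂ V)) ⊆
        (fun q : ℂ × G => q.1 • T.op q.2) '' (((Polynomial.nthRootsFinset n (1 : ℂ)) : Set ℂ) ×ˢ
          (Set.univ : Set G)) := by
      rintro X ⟨z, hz, g, rfl⟩
      refine ⟨(z, g), ⟨?_, Set.mem_univ _⟩, rfl⟩
      exact (Polynomial.mem_nthRootsFinset hn 1).mpr hz
    exact Set.Finite.subset (Set.Finite.image _
      ((Finset.finite_toSet _).prod Set.finite_univ)) h1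
  have hinteg : ∀ X ∈ Algebra.adjoin ℤ (M : Set (Module.End ℂ V)), IsIntegral ℤ X := by
    intro X hX
    refine IsIntegral.of_mem_of_fg (Algebra.adjoin ℤ (M : Set (Module.End ℂ V))) ?_ X hX
    rw [Algebra.adjoin_eq_span, Submonoid.closure_eq]
    exact Submodule.fg_span hMfin
  -- conjugating elements
  let s : Finset G := univ.filter (fun h => IsConj y h)
  have hch : ∀ h : G, ∃ c : G, h ∈ s → c * y * c⁻¹ = h := by
    intro h
    by_cases hh : h ∈ s
    · simp only [s, mem_filter, mem_univ, true_and] at hh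
      obtain ⟨c, hc⟩ := isConj_iff.mp hh
      exact ⟨c, fun _ => hc⟩
    · exact ⟨1, fun h' => absurd h' hh⟩
  choose c hc using hch
  let K : Module.End ℂ V := ∑ h ∈ s, T.adj (c h) (T.op y)
  have hinv : ∀ k : G, T.adj k K = K := by
    intro k
    simp only [K]
    rw [map_sum]
    apply Finset.sum_bij' (fun h _ => k * h * k⁻¹) (fun h _ => k⁻¹ * h * k)
    · intro h hh
      simp only [s, mem_filter, mem_univ, true_and] at hh ⊢
      exact hh.trans (isConj_iff.mpr ⟨k, rfl⟩)
    · intro h hh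
      simp only [s, mem_filter, mem_univ, true_and] at hh ⊢
      exact hh.trans (isConj_iff.mpr ⟨k⁻¹, by simp⟩)
    · intro h _
      group
    · intro h _
      group
    · intro h hh
      have hh' : k * h * k⁻¹ ∈ s := by
        simp only [s, mem_filter, mem_univ, true_and] at hh ⊢
        exact hh.trans (isConj_iff.mpr ⟨k, rfl⟩)
      have h1 : T.adj k (T.adj (c h) (T.op y)) = T.adj (k * c h) (T.op y) := by
        rw [map_mul]; rfl
      rw [h1]
      apply T.adj_eq_of_conj_eq hy
      have h5 : k * h * k⁻¹ = (k * c h) * y * (k * c h)⁻¹ := by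
        conv_lhs => rw [← hc h hh]
        group
      rw [hc _ hh', h5]
  obtain ⟨z, hz⟩ := hT.schur K (by
    intro g
    have h1 := hinv g
    rw [adj_apply] at h1
    have h2 := congrArg (fun Y => Y * T.op g) h1
    simpa [mul_assoc, iop_mul_op] using h2)
  have hKmem : K ∈ Algebra.adjoin ℤ (M : Set (Module.End ℂ V)) := by
    apply Subalgebra.sum_mem
    intro h _
    apply Algebra.subset_adjoin
    obtain ⟨e, he, h1⟩ := T.conj_op (c h) y
    refine ⟨e, ?_, c h * y * (c h)⁻¹, ?_⟩
    · have h2 := congrArg LinearMap.det h1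
      rw [map_mul, map_mul, hdet, hdet, LinearMap.det_smul, hdet, mul_one, mul_one, one_mul] at h2
      have h3 := congrArg LinearMap.det (T.op_mul_iop (c h))
      rw [map_mul, hdet, map_one, one_mul] at h3
      rw [h3] at h2
      exact h2.symm
    · rw [adj_apply, h1]
  have hzint : IsIntegral ℤ z := by
    have h1 := hinteg K hKmem
    rw [hz, ← Algebra.algebraMap_eq_smul_one] at h1
    exact (isIntegral_algebraMap_iff (FaithfulSMul.algebraMap_injective ℂ (Module.End ℂ V))).mp h1
  have htr : (clCard y : ℂ) * LinearMap.trace ℂ V (T.op y) = z * (n : ℂ) := by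
    have h1 : LinearMap.trace ℂ V K = z * (n : ℂ) := by
      rw [hz, map_smul, LinearMap.trace_one, smul_eq_mul]
    rw [← h1]
    simp only [K]
    rw [map_sum]
    have h2 : ∀ h ∈ s, LinearMap.trace ℂ V (T.adj (c h) (T.op y)) =
        LinearMap.trace ℂ V (T.op y) := by
      intro h _
      rw [adj_apply, trace_conj_op]
    rw [Finset.sum_congr rfl h2, Finset.sum_const, nsmul_eq_mul]
    congr 2
    unfold clCard
    rw [Nat.card_eq_fintype_card, ← Set.toFinset_card]
    congr 1
    ext h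
    simp only [Set.mem_toFinset, s, mem_filter, mem_univ, true_and]
    rw [ConjAct.mem_orbit_conjAct, isConj_comm]
  have hdim : (n : ℂ) ≠ 0 := by exact_mod_cast hn.ne'
  rw [htr, mul_div_cancel_right₀ _ hdim]
  exact hzint

/-- Integrality of `|cl(y)|² psi(y) / n²`. -/
theorem isIntegral_psi [Nontrivial V] (hT : T.Irr) (y : G) :
    IsIntegral ℤ ((clCard y : ℂ) ^ 2 * T.psi y / (Module.finrank ℂ V : ℂ) ^ 2) := by
  obtain ⟨T', hdet, hs⟩ := T.exists_normalize
  rw [← T.psi_eq_of_smul hs y]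
  have hT' : T'.Irr := irrOn_of_smul hs hT
  obtain ⟨c, hc, h1⟩ := T'.iop_eq y
  have hn : 0 < Module.finrank ℂ V := Module.finrank_pos
  have hcn : c ^ Module.finrank ℂ V = 1 := by
    have h2 := congrArg LinearMap.det (T'.op_mul_iop y)
    rw [h1, map_mul, hdet, map_one, LinearMap.det_smul, hdet, mul_one, one_mul] at h2
    exact h2
  have hcint : IsIntegral ℤ c := by
    refine ⟨Polynomial.X ^ Module.finrank ℂ V - 1, ?_, ?_⟩
    · exact Polynomial.monic_X_pow_sub_C 1 hn.ne'
    · simp [hcn]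
  rw [psi, h1, map_smul, smul_eq_mul]
  by_cases h2 : LinearMap.trace ℂ V (T'.op y) = 0
  · rw [h2]
    simpa using (isIntegral_zero : IsIntegral ℤ (0 : ℂ))
  by_cases h3 : LinearMap.trace ℂ V (T'.op y⁻¹) = 0
  · rw [h3]
    simpa using (isIntegral_zero : IsIntegral ℤ (0 : ℂ))
  have h4 := T'.isIntegral_central_of_det hT' hdet y h2
  have h5 := T'.isIntegral_central_of_det hT' hdet y⁻¹ h3
  rw [clCard_inv] at h5
  have h6 := (h4.mul h5).mul hcint
  have h7 : (clCard y : ℂ) ^ 2 * (LinearMap.trace ℂ V (T'.op y) *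
      (c * LinearMap.trace ℂ V (T'.op y⁻¹))) / (Module.finrank ℂ V : ℂ) ^ 2 =
      (clCard y : ℂ) * LinearMap.trace ℂ V (T'.op y) / (Module.finrank ℂ V : ℂ) *
        ((clCard y : ℂ) * LinearMap.trace ℂ V (T'.op y⁻¹) / (Module.finrank ℂ V : ℂ)) * c := by
    ring
  rw [h7]
  exact h6

end PRep

end Pool.Agent.H42.Wilde
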