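import Mathlib
import Pool.Agent.H42.Wilde.PChar

/-!
The section inequality for a nonnegative character, and its consequences for projective
representations.
-/

namespace Pool.Agent.H42.Wilde

open Finset Representation

section abstract

variable {G W : Type*} [Group G] [Fintype G] [AddCommGroup W] [Module ℂ W] [FiniteDimensional ℂ W]
  (R : Representation ℂ G W)

/-- Integrality at the primes `q ≠ p`. -/
theorem isIntegral_sec_q' {p q : ℕ} (hp : p.Prime) (hq : q.Prime) (hpq : q ≠ p) {α : ℕ}
    (hα : Nat.card G / p ^ (Nat.card G).factorization p ∣ α) (u : G) :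
    IsIntegral ℤ (((q ^ (Nat.card G).factorization q : ℕ) : ℂ)⁻¹ *
      ∑ y ∈ sec α u, R.character y) := by
  have : Fact q.Prime := ⟨hq⟩
  have hN : Nat.card G ≠ 0 := Nat.card_pos.ne'
  have hmul : q ^ (Nat.card G).factorization q *
      (Nat.card G / q ^ (Nat.card G).factorization q) = Nat.card G :=
    Nat.ordProj_mul_ordCompl_eq_self _ _
  have hcop : Nat.Coprime (q ^ (Nat.card G).factorization q)
      (Nat.card G / q ^ (Nat.card G).factorization q) :=
    (Nat.coprime_ordCompl hq hN).pow_left _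
  obtain ⟨γ, hγ0, hγ1⟩ := Nat.chineseRemainder hcop 0 1
  have hqα : q ^ (Nat.card G).factorization q ∣ α := by
    refine dvd_trans ?_ hα
    have h1 : q ^ (Nat.card G).factorization q ∣ p ^ (Nat.card G).factorization p *
      (Nat.card G / p ^ (Nat.card G).factorization p) := by
      rw [Nat.ordProj_mul_ordCompl_eq_self]
      exact Nat.ordProj_dvd _ _
    have h2 : Nat.Coprime (q ^ (Nat.card G).factorization q)
        (p ^ (Nat.card G).factorization p) :=
      Nat.Coprime.pow _ _ ((Nat.coprime_primes hq hp).mpr hpq)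
    exact h2.dvd_of_dvd_mul_left h1
  exact isIntegral_section R (q := q) (sec α u)
    (fun g y hy => sec_conj g y hy) γ (Nat.modEq_zero_iff_dvd.mp hγ0) hγ1
    (by
      intro y
      rw [mem_sec, mem_sec]
      have h1 : (y ^ γ) ^ α = y ^ α := by
        rw [← pow_mul]
        apply pow_eq_pow_of_modEq_card
        rw [← hmul]
        refine (Nat.modEq_and_modEq_iff_modEq_mul hcop).mp ⟨?_, ?_⟩
        · exact ((Nat.modEq_zero_iff_dvd.mpr (hqα.mul_left _))).trans
            (Nat.modEq_zero_iff_dvd.mpr hqα).symm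
        · simpa using hγ1.mul_right α
      rw [h1])

omit [FiniteDimensional ℂ W] in
/-- Integrality at `p`. -/
theorem isIntegral_sec_p' (n : ℕ) (hn : 0 < n)
    (hint : ∀ y, IsIntegral ℤ ((clCard y : ℂ) ^ 2 * R.character y / (n : ℂ) ^ 2)) {p : ℕ}
    (hp : p.Prime) (α : ℕ) (u : G) :
    IsIntegral ℤ (((Nat.card G : ℂ) /
      (((p ^ (2 * n.factorization p) : ℕ) : ℂ) * (orderOf u : ℂ))) *
      ∑ y ∈ sec α u, R.character y) := by
  classical
  have hn0 : (n : ℂ) ≠ 0 := by exact_mod_cast hn.ne'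
  have hN : (Nat.card G : ℂ) ≠ 0 := by exact_mod_cast Nat.card_pos.ne'
  have hu : (orderOf u : ℂ) ≠ 0 := by exact_mod_cast (orderOf_pos u).ne'
  have hp0 : (p : ℂ) ≠ 0 := by exact_mod_cast hp.ne_zero
  have h1 : ∑ y ∈ sec α u, R.character y
      = ∑ y : G, if y ∈ sec α u then R.character y else 0 := by
    simp [Finset.sum_ite_mem]
  rw [h1]
  apply isIntegral_sum_of_orbit (G := ConjAct G)
  · intro g y
    rw [ConjAct.smul_def]
    set c := ConjAct.ofConjAct g
    have h2 : (c * y * c⁻¹ ∈ sec α u) ↔ y ∈ sec α u := by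
      constructor
      · intro h
        have := sec_conj c⁻¹ _ h
        have h3 : c⁻¹ * (c * y * c⁻¹) * c⁻¹⁻¹ = y := by group
        rwa [h3] at this
      · exact sec_conj c y
    simp only [h2, char_conj]
  · intro y
    by_cases hy : y ∈ sec α u
    · rw [if_pos hy]
      have hcard : Nat.card (MulAction.orbit (ConjAct G) y) *
          Nat.card (MulAction.stabilizer (ConjAct G) y) = Nat.card G := by
        rw [Nat.card_eq_fintype_card, Nat.card_eq_fintype_card, Nat.card_eq_fintype_card]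
        have h5 : Fintype.card G = Fintype.card (ConjAct G) := rfl
        rw [h5]
        exact MulAction.card_orbit_mul_card_stabilizer_eq_card_group (ConjAct G) y
      have hdvd : orderOf u ∣ Nat.card (MulAction.stabilizer (ConjAct G) y) := by
        have h2 : orderOf u = orderOf (ConjAct.toConjAct (y ^ α)) := by
          rw [mem_sec] at hy
          obtain ⟨c, hc⟩ := isConj_iff.mp hy
          have h3 : orderOf (ConjAct.toConjAct (y ^ α)) = orderOf (y ^ α) :=
            MulEquiv.orderOf_eq (ConjAct.toConjAct (G := G)) (y ^ α)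
          rw [h3, ← hc]
          exact orderOf_injective (MulAut.conj c).toMonoidHom (MulAut.conj c).injective (y ^ α)
        rw [h2]
        have h3 : ConjAct.toConjAct (y ^ α) ∈ MulAction.stabilizer (ConjAct G) y := by
          rw [MulAction.mem_stabilizer_iff, ConjAct.smul_def, ConjAct.ofConjAct_toConjAct]
          have : Commute (y ^ α) y := (Commute.refl y).pow_left α
          rw [this.eq, mul_inv_cancel_right]
        have h4 := orderOf_dvd_natCard (⟨_, h3⟩ : MulAction.stabilizer (ConjAct G) y)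
        rwa [Subgroup.orderOf_mk] at h4
      obtain ⟨m, hm⟩ := hdvd
      have hi := ((hint y).mul (isIntegral_natCast ((n / p ^ n.factorization p) ^ 2))).mul
        (isIntegral_natCast m)
      have hcl : (clCard y : ℂ) * ((orderOf u : ℂ) * (m : ℂ)) = (Nat.card G : ℂ) := by
        have h5 : clCard y * (orderOf u * m) = Nat.card G := by
          rw [← hm]; exact hcard
        exact_mod_cast congrArg (Nat.cast : ℕ → ℂ) h5
      have hnp : (n : ℂ) = ((p ^ n.factorization p : ℕ) : ℂ) *
          ((n / p ^ n.factorization p : ℕ) : ℂ) := by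
        have : p ^ n.factorization p * (n / p ^ n.factorization p) = n :=
          Nat.ordProj_mul_ordCompl_eq_self _ _
        exact_mod_cast congrArg (Nat.cast : ℕ → ℂ) this.symm
      have h6 : (Nat.card G : ℂ) / (((p ^ (2 * n.factorization p) : ℕ) : ℂ) * (orderOf u : ℂ)) *
          (Nat.card (MulAction.orbit (ConjAct G) y) : ℂ) * R.character y =
          (clCard y : ℂ) ^ 2 * R.character y / (n : ℂ) ^ 2 *
          (((n / p ^ n.factorization p) ^ 2 : ℕ) : ℂ) * (m : ℂ) := by
        change (Nat.card G : ℂ) / (((p ^ (2 * n.factorization p) : ℕ) : ℂ) * (orderOf u : ℂ)) *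
          (clCard y : ℂ) * R.character y = _
        have hq0 : ((n / p ^ n.factorization p : ℕ) : ℂ) ≠ 0 := by
          intro h0
          rw [h0, mul_zero] at hnp
          exact hn0 hnp
        have hpp : ((p ^ (2 * n.factorization p) : ℕ) : ℂ) =
            ((p ^ n.factorization p : ℕ) : ℂ) ^ 2 := by
          push_cast
          rw [mul_comm 2, pow_mul]
        have hpp0 : ((p ^ n.factorization p : ℕ) : ℂ) ≠ 0 := by
          push_cast; exact pow_ne_zero _ hp0
        rw [hpp, hnp, ← hcl]
        push_cast at hq0 hpp0 ⊢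
        field_simp
      rw [h6]
      exact hi
    · rw [if_neg hy, mul_zero]
      exact isIntegral_zero

/-- The normalised section sum is an algebraic integer. -/
theorem isIntegral_w' (n : ℕ) (hn : 0 < n)
    (hint : ∀ y, IsIntegral ℤ ((clCard y : ℂ) ^ 2 * R.character y / (n : ℂ) ^ 2)) {p : ℕ}
    (hp : p.Prime) {α : ℕ}
    (hα : Nat.card G / p ^ (Nat.card G).factorization p ∣ α) (u : G) {a : ℕ}
    (hu : orderOf u = p ^ a) :
    IsIntegral ℤ ((((p ^ (2 * (Nat.card G).factorization p) : ℕ) : ℂ) /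
      (((p ^ (2 * n.factorization p) : ℕ) : ℂ) * ((p ^ a : ℕ) : ℂ) * (Nat.card G : ℂ))) *
      ∑ y ∈ sec α u, R.character y) := by
  have hN0 : Nat.card G ≠ 0 := Nat.card_pos.ne'
  have hN : (Nat.card G : ℂ) ≠ 0 := by exact_mod_cast hN0
  have hp0 : (p : ℂ) ≠ 0 := by exact_mod_cast hp.ne_zero
  have hpa : ((p ^ a : ℕ) : ℂ) ≠ 0 := by
    push_cast
    exact pow_ne_zero _ hp0
  have hpv : ((p ^ (2 * n.factorization p) : ℕ) : ℂ) ≠ 0 := by
    push_cast
    exact pow_ne_zero _ hp0
  apply isIntegral_of_forall_prime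
  intro r hr
  have h2 : (Nat.card G : ℂ) = ((r ^ (Nat.card G).factorization r : ℕ) : ℂ) *
      ((Nat.card G / r ^ (Nat.card G).factorization r : ℕ) : ℂ) := by
    have : r ^ (Nat.card G).factorization r *
      (Nat.card G / r ^ (Nat.card G).factorization r) = Nat.card G :=
      Nat.ordProj_mul_ordCompl_eq_self _ r
    exact_mod_cast congrArg (Nat.cast : ℕ → ℂ) this.symm
  have hr0 : ((r ^ (Nat.card G).factorization r : ℕ) : ℂ) ≠ 0 := by
    have := pow_ne_zero ((Nat.card G).factorization r) hr.ne_zero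
    exact_mod_cast this
  have hr1 : ((Nat.card G / r ^ (Nat.card G).factorization r : ℕ) : ℂ) ≠ 0 := by
    intro h0
    rw [h0, mul_zero] at h2
    exact hN h2
  by_cases hrp : r = p
  · subst hrp
    refine ⟨(Nat.card G / r ^ (Nat.card G).factorization r) ^ 2, ?_, ?_⟩
    · intro h
      exact Nat.not_dvd_ordCompl hr hN0 (hr.dvd_of_dvd_pow h)
    · have h1 := isIntegral_sec_p' R n hn hint hp α u
      rw [hu] at h1
      have h3 : ((((Nat.card G / r ^ (Nat.card G).factorization r) ^ 2 : ℕ)) : ℂ) *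
          (((r ^ (2 * (Nat.card G).factorization r) : ℕ) : ℂ) /
          (((r ^ (2 * n.factorization r) : ℕ) : ℂ) * ((r ^ a : ℕ) : ℂ) * (Nat.card G : ℂ)) *
          ∑ y ∈ sec α u, R.character y) =
          ((Nat.card G : ℂ) /
          (((r ^ (2 * n.factorization r) : ℕ) : ℂ) * ((r ^ a : ℕ) : ℂ))) *
          ∑ y ∈ sec α u, R.character y := by
        have h4 : ((r ^ (2 * (Nat.card G).factorization r) : ℕ) : ℂ) =
            ((r ^ (Nat.card G).factorization r : ℕ) : ℂ) ^ 2 := by
          push_cast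
          rw [mul_comm 2, pow_mul]
        rw [h4]
        have h5 : ((((Nat.card G / r ^ (Nat.card G).factorization r) ^ 2 : ℕ)) : ℂ) *
            ((r ^ (Nat.card G).factorization r : ℕ) : ℂ) ^ 2 = (Nat.card G : ℂ) ^ 2 := by
          rw [h2]
          push_cast
          ring
        calc _ = ((((Nat.card G / r ^ (Nat.card G).factorization r) ^ 2 : ℕ)) : ℂ) *
            ((r ^ (Nat.card G).factorization r : ℕ) : ℂ) ^ 2 /
            (((r ^ (2 * n.factorization r) : ℕ) : ℂ) * ((r ^ a : ℕ) : ℂ) * (Nat.card G : ℂ)) *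
            ∑ y ∈ sec α u, R.character y := by ring
          _ = _ := by
            rw [h5]
            field_simp
      rw [h3]
      exact h1
  · refine ⟨(Nat.card G / r ^ (Nat.card G).factorization r) *
      (p ^ a * p ^ (2 * n.factorization p)), ?_, ?_⟩
    · intro h
      rcases (hr.dvd_mul).mp h with h | h
      · exact Nat.not_dvd_ordCompl hr hN0 h
      · rw [← pow_add] at h
        exact hrp ((Nat.prime_dvd_prime_iff_eq hr hp).mp (hr.dvd_of_dvd_pow h))
    · have h1 := isIntegral_sec_q' R hp hr hrp hα u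
      have h3 : ((((Nat.card G / r ^ (Nat.card G).factorization r) *
          (p ^ a * p ^ (2 * n.factorization p)) : ℕ)) : ℂ) *
          (((p ^ (2 * (Nat.card G).factorization p) : ℕ) : ℂ) /
          (((p ^ (2 * n.factorization p) : ℕ) : ℂ) * ((p ^ a : ℕ) : ℂ) * (Nat.card G : ℂ)) *
          ∑ y ∈ sec α u, R.character y) =
          ((p ^ (2 * (Nat.card G).factorization p) : ℕ) : ℂ) *
          ((((r ^ (Nat.card G).factorization r : ℕ) : ℂ))⁻¹ *
          ∑ y ∈ sec α u, R.character y) := by
        rw [h2]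
        push_cast at hr0 hr1 hpa hpv ⊢
        field_simp
      rw [h3]
      exact (isIntegral_natCast _).mul h1

/-- The section inequality. -/
theorem abstract_ineq (n : ℕ) (hn : 0 < n)
    (hint : ∀ y, IsIntegral ℤ ((clCard y : ℂ) ^ 2 * R.character y / (n : ℂ) ^ 2))
    (hreal : ∀ g, ∃ r : ℝ, 0 ≤ r ∧ R.character g = (r : ℂ))
    (hsum : ∑ g, R.character g = (Nat.card G : ℂ)) (hone : R.character 1 ≠ 0) {p : ℕ}
    (hp : p.Prime) {α : ℕ}
    (hα : Nat.card G / p ^ (Nat.card G).factorization p ∣ α) (x u : G) (hxu : x ^ α = u) {a : ℕ}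
    (hu : orderOf u = p ^ a) (ha : a ≠ 0) (hx : R.character x ≠ 0) :
    (Nat.card G).totient * (p ^ (2 * n.factorization p) * p ^ a) <
      p ^ (2 * (Nat.card G).factorization p) * MM u := by
  classical
  have hN0 : Nat.card G ≠ 0 := Nat.card_pos.ne'
  have hNe : NeZero (Nat.card G) := ⟨hN0⟩
  have hN : (Nat.card G : ℂ) ≠ 0 := by exact_mod_cast hN0
  have hNpos : (0 : ℝ) < (Nat.card G : ℝ) := by exact_mod_cast Nat.card_pos
  have hp0 : (p : ℂ) ≠ 0 := by exact_mod_cast hp.ne_zero
  have hppos : (0 : ℝ) < (p : ℝ) := by exact_mod_cast hp.pos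
  have hint' := isIntegral_w' R n hn hint hp hα u hu
  choose f hf0 hf using hreal
  have hu1 : u ≠ 1 := by
    rintro rfl
    rw [orderOf_one] at hu
    have := (Nat.one_lt_pow ha hp.one_lt)
    omega
  set c : ℝ := ((p ^ (2 * (Nat.card G).factorization p) : ℕ) : ℝ) /
    (((p ^ (2 * n.factorization p) : ℕ) : ℝ) * ((p ^ a : ℕ) : ℝ) * (Nat.card G : ℝ)) with hc
  have hcpos : 0 < c := by
    rw [hc]
    push_cast
    positivity
  -- the family of conjugates
  let A : (ZMod (Nat.card G))ˣ → ℂ := fun j =>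
    (((((p ^ (2 * (Nat.card G).factorization p) : ℕ) : ℚ) /
      (((p ^ (2 * n.factorization p) : ℕ) : ℚ) * ((p ^ a : ℕ) : ℚ) * (Nat.card G : ℚ))) : ℚ) : ℂ) *
      ∑ y ∈ sec α u, R.character (y ^ (j : ZMod (Nat.card G)).val)
  have hA : IsCyc (Nat.card G) A :=
    (IsCyc.const _).mul (IsCyc.sum _ _ (fun y _ => IsCyc.char R y pow_card_eq_one'))
  let r : (ZMod (Nat.card G))ˣ → ℝ := fun j => c * ∑ y ∈ sec α u, f (pw j y)
  have hr : ∀ j, A j = (r j : ℂ) := by
    intro j
    simp only [A, r]
    push_cast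
    rw [hc]
    push_cast
    congr 1
    apply Finset.sum_congr rfl
    intro y _
    exact hf _
  have hr0 : ∀ j, 0 ≤ r j := fun j =>
    mul_nonneg hcpos.le (Finset.sum_nonneg (fun y _ => hf0 _))
  have hr1 : r 1 = c * ∑ y ∈ sec α u, f y := by
    simp only [r, pw_one]
  have hA1 : IsIntegral ℤ (A 1) := by
    rw [hr, hr1, hc]
    convert hint' using 1
    push_cast
    congr 1
    apply Finset.sum_congr rfl
    intro y _
    exact (hf y).symm
  have hfx : f x ≠ 0 := by
    intro h
    apply hx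
    rw [hf, h, Complex.ofReal_zero]
  have hA1' : A 1 ≠ 0 := by
    rw [hr, hr1]
    have h1 : 0 < ∑ y ∈ sec α u, f y := by
      apply Finset.sum_pos'
      · intro y _
        exact hf0 y
      · refine ⟨x, ?_, lt_of_le_of_ne (hf0 x) (Ne.symm hfx)⟩
        rw [mem_sec, hxu]
    have h2 : 0 < c * ∑ y ∈ sec α u, f y := mul_pos hcpos h1
    exact_mod_cast h2.ne'
  have h1 := hA.totient_le r hr hr0 hA1 hA1'
  have h2 : ∑ j, r j ≤ c * ((MM u : ℝ) * (∑ y, f y - f 1)) := by
    simp only [r]
    rw [← Finset.mul_sum]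
    exact mul_le_mul_of_nonneg_left (sum_sec_le f hf0 α u hu1) hcpos.le
  have h3 : ∑ y, f y = (Nat.card G : ℝ) := by
    have h4 := hsum
    simp_rw [hf] at h4
    exact_mod_cast h4
  have h4 : 0 < f 1 := by
    refine lt_of_le_of_ne (hf0 1) ?_
    intro h
    apply hone
    rw [hf, ← h, Complex.ofReal_zero]
  have hMM : (0 : ℝ) < (MM u : ℝ) := by exact_mod_cast MM_pos u
  have h5 : c * ((MM u : ℝ) * (∑ y, f y - f 1)) < c * ((MM u : ℝ) * (Nat.card G : ℝ)) := by
    rw [h3]
    apply mul_lt_mul_of_pos_left _ hcpos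
    apply mul_lt_mul_of_pos_left _ hMM
    linarith
  have h6 : ((Nat.card G).totient : ℝ) < c * ((MM u : ℝ) * (Nat.card G : ℝ)) :=
    lt_of_le_of_lt (h1.trans h2) h5
  have h7 : c * ((MM u : ℝ) * (Nat.card G : ℝ)) =
      ((p ^ (2 * (Nat.card G).factorization p) : ℕ) : ℝ) * (MM u : ℝ) /
      (((p ^ (2 * n.factorization p) : ℕ) : ℝ) * ((p ^ a : ℕ) : ℝ)) := by
    rw [hc]
    push_cast
    field_simp
  rw [h7, lt_div_iff₀ (by push_cast; positivity)] at h6
  exact_mod_cast h6

end abstract

end Pool.Agent.H42.Wilde
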