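import Mathlib
import Pool.Agent.H42.Wilde.PIneq
import Pool.Agent.H42.Wilde.Final

/-!
Local consequences of the section inequality for projective representations.
-/

namespace Pool.Agent.H42.Wilde

open Finset

/-- A generator of the `p`-part of `⟨x⟩` is a power of `x` with exponent divisible by the
`p'`-part of the group order. -/
theorem exists_alpha {G : Type*} [Group G] [Finite G] {p : ℕ} (hp : p.Prime) (x u : G)
    (hux : u ∈ Subgroup.zpowers x)
    (hu : orderOf u = p ^ (orderOf x).factorization p) :
    ∃ α : ℕ, Nat.card G / p ^ (Nat.card G).factorization p ∣ α ∧ x ^ α = u := by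
  have hx0 : orderOf x ≠ 0 := (orderOf_pos x).ne'
  have hN0 : Nat.card G ≠ 0 := Nat.card_pos.ne'
  set a := (orderOf x).factorization p with ha
  obtain ⟨s, hs⟩ := Submonoid.mem_powers_iff _ _ |>.mp ((mem_powers_iff_mem_zpowers).mpr hux)
  have hgcd : (orderOf x).gcd s * p ^ a = orderOf x := by
    have h1 := orderOf_pow x (n := s)
    rw [hs, hu] at h1
    rw [h1]
    exact Nat.mul_div_cancel' (Nat.gcd_dvd_left _ _)
  have hrcop : ¬ p ∣ (orderOf x).gcd s := by
    intro h
    have h1 : p ^ (a + 1) ∣ orderOf x := by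
      rw [← hgcd, pow_succ, mul_comm]
      exact mul_dvd_mul_right h _
    have h2 := (hp.pow_dvd_iff_le_factorization hx0).mp h1
    omega
  have hcop : Nat.Coprime (p ^ (Nat.card G).factorization p)
      (Nat.card G / p ^ (Nat.card G).factorization p) :=
    (Nat.coprime_ordCompl hp hN0).pow_left _
  have hmul : p ^ (Nat.card G).factorization p *
      (Nat.card G / p ^ (Nat.card G).factorization p) = Nat.card G :=
    Nat.ordProj_mul_ordCompl_eq_self _ _
  obtain ⟨α, hα1, hα0⟩ := Nat.chineseRemainder hcop s 0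
  have hxN : orderOf x ∣ Nat.card G := orderOf_dvd_natCard x
  refine ⟨α, Nat.modEq_zero_iff_dvd.mp hα0, ?_⟩
  rw [← hs, pow_eq_pow_iff_modEq]
  have h1 : orderOf x = p ^ a * (orderOf x).gcd s := by rw [mul_comm]; exact hgcd.symm
  rw [h1]
  have hc : Nat.Coprime (p ^ a) ((orderOf x).gcd s) :=
    ((hp.coprime_iff_not_dvd).mpr hrcop).pow_left _
  refine (Nat.modEq_and_modEq_iff_modEq_mul hc).mp ⟨?_, ?_⟩
  · apply hα1.of_dvd
    have h2 : p ^ a ∣ Nat.card G := (Nat.ordProj_dvd _ _).trans hxN
    exact pow_dvd_pow _ ((hp.pow_dvd_iff_le_factorization hN0).mp h2)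
  · have h3 : (orderOf x).gcd s ∣ Nat.card G / p ^ (Nat.card G).factorization p := by
      have h4 : (orderOf x).gcd s ∣ p ^ (Nat.card G).factorization p *
          (Nat.card G / p ^ (Nat.card G).factorization p) := by
        rw [hmul]
        exact (Nat.gcd_dvd_left _ _).trans hxN
      have h5 : Nat.Coprime ((orderOf x).gcd s) (p ^ (Nat.card G).factorization p) :=
        (((hp.coprime_iff_not_dvd).mpr hrcop).pow_left _).symm
      exact h5.dvd_of_dvd_mul_left h4
    have h6 : (orderOf x).gcd s ∣ α := h3.trans (Nat.modEq_zero_iff_dvd.mp hα0)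
    exact (Nat.modEq_zero_iff_dvd.mpr h6).trans
      (Nat.modEq_zero_iff_dvd.mpr (Nat.gcd_dvd_right _ _)).symm

theorem factorization_totient_prime_pow {p : ℕ} (hp : p.Prime) {a : ℕ} (ha : 0 < a) :
    (p ^ a).totient.factorization p = a - 1 := by
  rw [Nat.totient_prime_pow hp ha]
  rw [Nat.factorization_mul (pow_pos hp.pos _).ne' (by have := hp.two_le; omega)]
  rw [Nat.factorization_pow, hp.factorization]
  have h3 : (p - 1).factorization p = 0 := by
    apply Nat.factorization_eq_zero_of_not_dvd
    intro h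
    have := Nat.le_of_dvd (by have := hp.two_le; omega) h
    have := hp.two_le
    omega
  simp [h3]

namespace PRep

variable {G : Type*} [Group G] [Finite G] {V : Type*} [AddCommGroup V] [Module ℂ V]
  [FiniteDimensional ℂ V] (T : PRep G V)

/-- The square of the degree is at most the order of the group. -/
theorem finrank_sq_le (hT : T.Irr) : Module.finrank ℂ V ^ 2 ≤ Nat.card G := by
  classical
  have := hT.1
  have : Fintype G := Fintype.ofFinite G
  have h1 := T.sum_psi hT
  have h2 : ∀ g, ∃ r : ℝ, 0 ≤ r ∧ T.psi g = (r : ℂ) := by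
    intro g
    obtain ⟨r, hr0, hr, _⟩ := T.psi_real g
    exact ⟨r, hr0, hr⟩
  choose f hf0 hf using h2
  simp_rw [hf] at h1
  have h3 : ∑ g, f g = (Nat.card G : ℝ) := by exact_mod_cast h1
  have h4 : f 1 = (Module.finrank ℂ V : ℝ) ^ 2 := by
    have h5 := T.psi_one
    rw [hf] at h5
    exact_mod_cast h5
  have h5 : f 1 ≤ ∑ g, f g := Finset.single_le_sum (fun g _ => hf0 g) (Finset.mem_univ 1)
  rw [h3, h4] at h5
  exact_mod_cast h5

/-- The degree divides the order of the group. -/
theorem finrank_dvd (hT : T.Irr) : Module.finrank ℂ V ∣ Nat.card G := by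
  classical
  have := hT.1
  have : Fintype G := Fintype.ofFinite G
  set n := Module.finrank ℂ V with hn
  have hn0 : 0 < n := Module.finrank_pos
  have hnC : (n : ℂ) ≠ 0 := by exact_mod_cast hn0.ne'
  have h1 : IsIntegral ℤ (((Nat.card G : ℂ) / (n : ℂ) ^ 2) * ∑ g : G, T.adj.character g) := by
    apply isIntegral_sum_of_orbit (G := ConjAct G)
    · intro g y
      rw [ConjAct.smul_def, Representation.char_conj]
    · intro y
      have hcard : Nat.card (MulAction.orbit (ConjAct G) y) *
          Nat.card (MulAction.stabilizer (ConjAct G) y) = Nat.card G := by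
        rw [Nat.card_eq_fintype_card, Nat.card_eq_fintype_card, Nat.card_eq_fintype_card]
        have h5 : Fintype.card G = Fintype.card (ConjAct G) := rfl
        rw [h5]
        exact MulAction.card_orbit_mul_card_stabilizer_eq_card_group (ConjAct G) y
      have h2 := (T.isIntegral_psi hT y).mul
        (isIntegral_natCast (Nat.card (MulAction.stabilizer (ConjAct G) y)))
      have h3 : ((Nat.card G : ℂ) / (n : ℂ) ^ 2) *
          (Nat.card (MulAction.orbit (ConjAct G) y) : ℂ) * T.adj.character y =
          (clCard y : ℂ) ^ 2 * T.psi y / (n : ℂ) ^ 2 *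
          (Nat.card (MulAction.stabilizer (ConjAct G) y) : ℂ) := by
        rw [adj_character, ← hcard]
        push_cast
        unfold clCard
        ring
      rw [h3]
      exact h2
  simp_rw [adj_character] at h1
  rw [T.sum_psi hT] at h1
  have h3 : (((Nat.card G : ℂ) / (n : ℂ) ^ 2) * (Nat.card G : ℂ)) =
      algebraMap ℚ ℂ ((Nat.card G : ℚ) ^ 2 / (n : ℚ) ^ 2) := by
    simp
    field_simp
  rw [h3, isIntegral_algebraMap_iff (algebraMap ℚ ℂ).injective,
    IsIntegrallyClosed.isIntegral_iff] at h1
  obtain ⟨z, hz⟩ := h1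
  have hq : ((n : ℚ) ^ 2) ≠ 0 := by
    have : (n : ℚ) ≠ 0 := by exact_mod_cast hn0.ne'
    exact pow_ne_zero _ this
  rw [eq_div_iff hq] at hz
  have h4 : z * ((n : ℤ) ^ 2) = (Nat.card G : ℤ) ^ 2 := by
    have : ((z * ((n : ℤ) ^ 2) : ℤ) : ℚ) = (((Nat.card G : ℤ) ^ 2 : ℤ) : ℚ) := by
      push_cast
      simpa using hz
    exact_mod_cast this
  have h5 : ((n : ℤ) ^ 2) ∣ (Nat.card G : ℤ) ^ 2 := ⟨z, by rw [← h4]; ring⟩
  have h6 : n ^ 2 ∣ Nat.card G ^ 2 := by exact_mod_cast h5
  exact (Nat.pow_dvd_pow_iff two_ne_zero).mp h6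

/-- The local inequality for projective representations. -/
theorem local_ineq (hT : T.Irr) (x : G) (hx : LinearMap.trace ℂ V (T.op x) ≠ 0) {p : ℕ}
    (hp : p.Prime) (hpx : p ∣ orderOf x) (u : G) (hux : u ∈ Subgroup.zpowers x)
    (hu : orderOf u = p ^ (orderOf x).factorization p) :
    2 * (orderOf x).factorization p + 2 * (Module.finrank ℂ V).factorization p ≤
      2 * (Nat.card G).factorization p + (Nat.card (HH u)).factorization p := by
  classical
  have := hT.1
  have : Fintype G := Fintype.ofFinite G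
  have hx0 : orderOf x ≠ 0 := (orderOf_pos x).ne'
  have hN0 : Nat.card G ≠ 0 := Nat.card_pos.ne'
  set a := (orderOf x).factorization p with ha
  set v := (Module.finrank ℂ V).factorization p with hv
  have hn0 : 0 < Module.finrank ℂ V := Module.finrank_pos
  have ha0 : a ≠ 0 := by
    rw [ha]
    exact (hp.factorization_pos_of_dvd hx0 hpx).ne'
  obtain ⟨α, hα, hxu⟩ := exists_alpha hp x u hux hu
  have hmain := abstract_ineq T.adj (Module.finrank ℂ V) hn0
    (by intro y; rw [adj_character]; exact T.isIntegral_psi hT y)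
    (by
      intro g
      obtain ⟨r, hr0, hr, _⟩ := T.psi_real g
      exact ⟨r, hr0, by rw [adj_character, hr]⟩)
    (by simp_rw [adj_character]; exact T.sum_psi hT)
    (by
      rw [adj_character, psi_one]
      have : (Module.finrank ℂ V : ℂ) ≠ 0 := by exact_mod_cast hn0.ne'
      exact pow_ne_zero _ this)
    hp hα x u hxu hu ha0
    (by
      obtain ⟨r, hr0, hr, hr1⟩ := T.psi_real x
      rw [adj_character, hr]
      exact_mod_cast hr1 hx)
  rw [← hv, ← MM_mul_index] at hmain
  have hMM := MM_pos u
  have h1 : (HH u).index * (p ^ (2 * v) * p ^ a) < p ^ (2 * (Nat.card G).factorization p) := by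
    have h2 : MM u * ((HH u).index * (p ^ (2 * v) * p ^ a)) <
        MM u * p ^ (2 * (Nat.card G).factorization p) := by
      rw [← mul_assoc, mul_comm (MM u) (p ^ (2 * (Nat.card G).factorization p))]
      exact hmain
    exact Nat.lt_of_mul_lt_mul_left h2
  have hmi : Nat.card (HH u) * (HH u).index = (p ^ a).totient := by
    rw [← hu]
    exact card_HH_mul_index u
  have hpa : 0 < (p ^ a).totient := Nat.totient_pos.mpr (pow_pos hp.pos _)
  have hm0 : 0 < Nat.card (HH u) :=
    Nat.pos_of_ne_zero (by rintro h; rw [h, zero_mul] at hmi; omega)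
  have hi0 : 0 < (HH u).index :=
    Nat.pos_of_ne_zero (by rintro h; rw [h, mul_zero] at hmi; omega)
  have h2 : (p ^ a).totient.factorization p = a - 1 :=
    factorization_totient_prime_pow hp (Nat.pos_of_ne_zero ha0)
  have h3 : (Nat.card (HH u)).factorization p + (HH u).index.factorization p = a - 1 := by
    rw [← h2, ← hmi, Nat.factorization_mul hm0.ne' hi0.ne']
    rfl
  have h4 : p ^ ((HH u).index.factorization p) ≤ (HH u).index :=
    Nat.le_of_dvd hi0 (Nat.ordProj_dvd _ _)
  have h5 : p ^ ((HH u).index.factorization p + (2 * v + a)) <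
      p ^ (2 * (Nat.card G).factorization p) := by
    rw [pow_add, pow_add]
    exact lt_of_le_of_lt (Nat.mul_le_mul_right _ h4) h1
  have h6 := (Nat.pow_lt_pow_iff_right hp.one_lt).mp h5
  omega

end PRep

/-- If `u` has order `p ^ b` modulo a normal subgroup with abelian quotient, the fusion of `⟨u⟩`
is limited. -/
theorem card_HH_mul_totient_dvd {G Q : Type*} [Group G] [Finite G] [Group Q] (π : G →* Q)
    (hcomm : ∀ a b : Q, a * b = b * a) (u : G) : Nat.card (HH u) * (orderOf (π u)).totient ∣ (orderOf u).totient := by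
  have : NeZero (orderOf u) := ⟨(orderOf_pos u).ne'⟩
  have hdvd : orderOf (π u) ∣ orderOf u := orderOf_map_dvd π u
  have hpos : 0 < orderOf (π u) := Nat.pos_of_dvd_of_pos hdvd (orderOf_pos u)
  have : NeZero (orderOf (π u)) := ⟨hpos.ne'⟩
  have hle : HH u ≤ (ZMod.unitsMap hdvd).ker := by
    intro j hj
    rw [mem_HH] at hj
    rw [MonoidHom.mem_ker]
    obtain ⟨c, hc⟩ := isConj_iff.mp hj
    have h1 := congrArg π hc
    rw [map_mul, map_mul, map_inv, hcomm (π c), mul_inv_cancel_right, map_pow] at h1
    apply Units.ext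
    rw [ZMod.unitsMap_val, Units.val_one]
    have h2 : (1 : ℕ) ≡ (j : ZMod (orderOf u)).val [MOD orderOf (π u)] := by
      rw [← pow_eq_pow_iff_modEq, pow_one]
      exact h1
    have h3 := (ZMod.natCast_eq_natCast_iff _ _ _).mpr h2
    rw [Nat.cast_one] at h3
    rw [← ZMod.natCast_val, ← h3]
  have h1 := Subgroup.card_dvd_of_le hle
  have h2 : Nat.card (ZMod.unitsMap hdvd).ker * (orderOf (π u)).totient =
      (orderOf u).totient := by
    have h3 := Subgroup.card_mul_index (ZMod.unitsMap hdvd).ker
    rw [Subgroup.index_ker, Nat.card_eq_fintype_card (α := (ZMod (orderOf u))ˣ),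
      ZMod.card_units_eq_totient] at h3
    have h4 : (ZMod.unitsMap hdvd).range = ⊤ :=
      MonoidHom.range_eq_top.mpr (ZMod.unitsMap_surjective hdvd)
    rw [h4] at h3
    have h5 : Nat.card (⊤ : Subgroup (ZMod (orderOf (π u)))ˣ) = (orderOf (π u)).totient := by
      rw [Subgroup.card_top, Nat.card_eq_fintype_card, ZMod.card_units_eq_totient]
    rw [h5] at h3
    exact h3
  rw [← h2]
  exact mul_dvd_mul_right h1 _

/-- The bound when the quotient by a normal subgroup `S` is generated by `x` and the `p`-part of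
`|S|` is at most `p ^ 3`. -/
theorem PRep.small_base {G : Type*} [Group G] [Finite G] {V : Type*} [AddCommGroup V] [Module ℂ V]
    [FiniteDimensional ℂ V] (T : PRep G V) (hT : T.Irr) (S : Subgroup G) [S.Normal] (x : G)
    (hgen : S ⊔ Subgroup.zpowers x = ⊤) (hx : LinearMap.trace ℂ V (T.op x) ≠ 0) {p : ℕ}
    (hp : p.Prime) (hS : (Nat.card S).factorization p ≤ 3) :
    (orderOf x).factorization p + (Module.finrank ℂ V).factorization p ≤
      (Nat.card G).factorization p := by
  have hNt := hT.1
  have hx0 : orderOf x ≠ 0 := (orderOf_pos x).ne'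
  have hN0 : Nat.card G ≠ 0 := Nat.card_pos.ne'
  have hn0 : 0 < Module.finrank ℂ V := Module.finrank_pos
  by_cases hpx : p ∣ orderOf x
  swap
  · rw [Nat.factorization_eq_zero_of_not_dvd hpx, zero_add]
    exact (Nat.factorization_le_iff_dvd hn0.ne' hN0).mpr (T.finrank_dvd hT) p
  obtain ⟨u, hux, hu⟩ := exists_ppart x p
  have ha0 : 0 < (orderOf x).factorization p := hp.factorization_pos_of_dvd hx0 hpx
  have h1 := T.local_ineq hT x hx hp hpx u hux hu
  -- fusion facts
  have hHH : Nat.card (HH u) * (HH u).index = (p ^ (orderOf x).factorization p).totient := by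
    rw [← hu]
    exact card_HH_mul_index u
  have hpa : 0 < (p ^ (orderOf x).factorization p).totient :=
    Nat.totient_pos.mpr (pow_pos hp.pos _)
  have hm0 : Nat.card (HH u) ≠ 0 := by
    intro h; rw [h, zero_mul] at hHH; omega
  have h2 : (Nat.card (HH u)).factorization p + 1 ≤ (orderOf x).factorization p := by
    have h3 : Nat.card (HH u) ∣ (p ^ (orderOf x).factorization p).totient := ⟨_, hHH.symm⟩
    have h4 := (Nat.factorization_le_iff_dvd hm0 hpa.ne').mpr h3 p
    rw [factorization_totient_prime_pow hp ha0] at h4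
    omega
  have h3 : (Nat.card (HH u)).factorization p + (orderOf x).factorization p ≤
      (Nat.card G).factorization p := by
    have h4 : Nat.card (HH u) * p ^ (orderOf x).factorization p ∣ Nat.card G := by
      rw [← hu, card_HH, card_conj_eq_relIndex]
      exact relIndex_mul_orderOf_dvd u
    have h5 := (Nat.factorization_le_iff_dvd
      (mul_ne_zero hm0 (pow_pos hp.pos _).ne') hN0).mpr h4 p
    rw [Nat.factorization_mul hm0 (pow_pos hp.pos _).ne', Nat.factorization_pow,
      hp.factorization] at h5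
    simpa using h5
  -- the quotient
  let π := QuotientGroup.mk' S
  have hπ : Subgroup.zpowers (π x) = ⊤ := by
    have h4 := congrArg (Subgroup.map π) hgen
    rw [Subgroup.map_sup, MonoidHom.map_zpowers,
      Subgroup.map_top_of_surjective π (QuotientGroup.mk'_surjective S)] at h4
    have h5 : Subgroup.map π S = ⊥ := by
      rw [Subgroup.map_eq_bot_iff, QuotientGroup.ker_mk']
    rw [h5, bot_sup_eq] at h4
    exact h4
  have hcomm : ∀ a b : G ⧸ S, a * b = b * a := by
    intro a b
    have ha : a ∈ Subgroup.zpowers (π x) := by rw [hπ]; exact Subgroup.mem_top a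
    have hb : b ∈ Subgroup.zpowers (π x) := by rw [hπ]; exact Subgroup.mem_top b
    obtain ⟨i, rfl⟩ := Subgroup.mem_zpowers_iff.mp ha
    obtain ⟨j, rfl⟩ := Subgroup.mem_zpowers_iff.mp hb
    rw [← zpow_add, ← zpow_add, add_comm]
  have hcardQ : Nat.card (G ⧸ S) = orderOf (π x) := by
    rw [← Nat.card_zpowers, hπ, Subgroup.card_top]
  have hcardG : Nat.card G = orderOf (π x) * Nat.card S := by
    rw [← hcardQ]
    exact Subgroup.card_eq_card_quotient_mul_card_subgroup S
  have hS0 : Nat.card S ≠ 0 := Nat.card_pos.ne'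
  have hπx0 : orderOf (π x) ≠ 0 := (orderOf_pos (π x)).ne'
  have h4 : (Nat.card G).factorization p =
      (orderOf (π x)).factorization p + (Nat.card S).factorization p := by
    rw [hcardG, Nat.factorization_mul hπx0 hS0]
    rfl
  -- the order of `π u`
  obtain ⟨b, hb, hπu⟩ := (Nat.dvd_prime_pow hp).mp (hu ▸ orderOf_map_dvd π u)
  have h5 : (orderOf (π x)).factorization p ≤ b := by
    -- `u` is a power of `x` with exponent prime to `p`, up to the choice of a generator
    obtain ⟨s, hs⟩ := Submonoid.mem_powers_iff _ _ |>.mp ((mem_powers_iff_mem_zpowers).mpr hux)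
    have hgcd : (orderOf x).gcd s * p ^ (orderOf x).factorization p = orderOf x := by
      have h1 := orderOf_pow x (n := s)
      rw [hs, hu] at h1
      rw [h1]
      exact Nat.mul_div_cancel' (Nat.gcd_dvd_left _ _)
    have hps : ¬ p ∣ s := by
      intro h
      have h6 : p ∣ (orderOf x).gcd s := Nat.dvd_gcd hpx h
      have h7 : p ^ ((orderOf x).factorization p + 1) ∣ orderOf x := by
        conv_rhs => rw [← hgcd]
        rw [pow_succ, mul_comm]
        exact mul_dvd_mul_right h6 _
      have h8 := (hp.pow_dvd_iff_le_factorization hx0).mp h7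
      omega
    have h6 : (π x) ^ (s * p ^ b) = 1 := by
      rw [pow_mul, ← map_pow, hs, ← hπu, pow_orderOf_eq_one]
    have h7 := orderOf_dvd_of_pow_eq_one h6
    have hs0 : s ≠ 0 := by rintro rfl; exact hps (dvd_zero p)
    have h8 := (Nat.factorization_le_iff_dvd hπx0
      (mul_ne_zero hs0 (pow_pos hp.pos _).ne')).mpr h7 p
    rw [Nat.factorization_mul hs0 (pow_pos hp.pos _).ne', Nat.factorization_pow,
      hp.factorization] at h8
    have h9 : s.factorization p = 0 := Nat.factorization_eq_zero_of_not_dvd hps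
    simpa [h9] using h8
  have h6 : 0 < b → (Nat.card (HH u)).factorization p + b ≤ (orderOf x).factorization p := by
    intro hb0
    have h7 : Nat.card (HH u) * (p ^ b).totient ∣ (p ^ (orderOf x).factorization p).totient := by
      rw [← hπu, ← hu]
      exact card_HH_mul_totient_dvd π hcomm u
    have hpb : 0 < (p ^ b).totient := Nat.totient_pos.mpr (pow_pos hp.pos _)
    have h8 := (Nat.factorization_le_iff_dvd (mul_ne_zero hm0 hpb.ne') hpa.ne').mpr h7 p
    rw [Nat.factorization_mul hm0 hpb.ne'] at h8
    simp only [Finsupp.add_apply] at h8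
    rw [factorization_totient_prime_pow hp ha0, factorization_totient_prime_pow hp hb0] at h8
    omega
  rcases Nat.eq_zero_or_pos b with hb0 | hb0
  · subst hb0
    omega
  · have h7 := h6 hb0
    omega

end Pool.Agent.H42.Wilde
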