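import Mathlib
import Pool.Agent.H42.Wilde.PLocal

/-!
Systems of imprimitivity for projective representations.
-/

namespace Pool.Agent.H42.Wilde

open Finset

namespace PRep

variable {G : Type*} [Group G] {V : Type*} [AddCommGroup V] [Module ℂ V] (T : PRep G V)

/-- Restriction to an invariant subspace. -/
def restrictTo [Nontrivial V] (H : Subgroup G) (W : Submodule ℂ V)
    (hW : ∀ h ∈ H, ∀ v ∈ W, T.op h v ∈ W) : PRep H W where
  T h := ⟨(T.op (h : G)).restrict (hW h h.2), (T.iop (h : G)).restrict (by
      intro v hv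
      obtain ⟨c, _, hc⟩ := T.iop_eq (h : G)
      rw [hc, LinearMap.smul_apply]
      exact W.smul_mem c (hW _ (H.inv_mem h.2) v hv)), by
      ext v
      change T.op (h : G) (T.iop (h : G) (v : V)) = v
      have := congrArg (fun Y : Module.End ℂ V => Y (v : V)) (T.op_mul_iop (h : G))
      simpa using this, by
      ext v
      change T.iop (h : G) (T.op (h : G) (v : V)) = v
      have := congrArg (fun Y : Module.End ℂ V => Y (v : V)) (T.iop_mul_op (h : G))
      simpa using this⟩
  mul' g h := by
    obtain ⟨c, _, hc⟩ := T.exists_mul (g : G) (h : G)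
    refine ⟨c, ?_⟩
    ext v
    have := congrArg (fun Y : Module.End ℂ V => Y (v : V)) hc
    simpa using this

theorem restrictTo_op [Nontrivial V] (H : Subgroup G) (W : Submodule ℂ V)
    (hW : ∀ h ∈ H, ∀ v ∈ W, T.op h v ∈ W) (h : H) :
    (T.restrictTo H W hW).op h = (T.op (h : G)).restrict (hW h h.2) := rfl

theorem op_injective (g : G) : Function.Injective (T.op g) := by
  intro v w h
  have h1 := congrArg (T.iop g) h
  have h2 : ∀ z, T.iop g (T.op g z) = z := by
    intro z
    have := congrArg (fun Y : Module.End ℂ V => Y z) (T.iop_mul_op g)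
    simpa using this
  rwa [h2, h2] at h1

end PRep

/-- Trace of a map permuting the summands of a direct sum decomposition. -/
theorem exists_fixed_of_trace_ne {V : Type*} [AddCommGroup V] [Module ℂ V] [FiniteDimensional ℂ V]
    {ι : Type*} [Fintype ι] [DecidableEq ι] (N : ι → Submodule ℂ V) (hN : DirectSum.IsInternal N)
    (σ : ι → ι) (f : Module.End ℂ V) (hf : ∀ i, ∀ v ∈ N i, f v ∈ N (σ i))
    (htr : LinearMap.trace ℂ V f ≠ 0) :
    ∃ (i : ι) (h : ∀ v ∈ N i, f v ∈ N i), σ i = i ∧
      LinearMap.trace ℂ (N i) (f.restrict h) ≠ 0 := by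
  classical
  by_contra hcon
  push Not at hcon
  apply htr
  let e : (DirectSum ι fun i => N i) ≃ₗ[ℂ] V :=
    LinearEquiv.ofBijective (DirectSum.coeLinearMap N) hN
  let π : (i : ι) → V →ₗ[ℂ] N i := fun i => (DirectSum.component ℂ ι (fun i => N i) i) ∘ₗ e.symm.toLinearMap
  have hπ : ∀ (i j : ι) (v : N i), π j (v : V) = if h : i = j then h ▸ v else 0 := by
    intro i j v
    have h1 : e.symm (v : V) = DirectSum.lof ℂ ι (fun i => N i) i v := by
      rw [LinearEquiv.symm_apply_eq]
      change (v : V) = DirectSum.coeLinearMap N _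
      rw [DirectSum.coeLinearMap_lof]
    change DirectSum.component ℂ ι (fun i => N i) j (e.symm (v : V)) = _
    rw [h1]
    by_cases hij : i = j
    · subst hij
      rw [DirectSum.component.lof_self, dif_pos rfl]
    · rw [dif_neg hij, DirectSum.component.of, dif_neg hij]
  have hsum : ∑ i, (N i).subtype ∘ₗ π i = LinearMap.id := by
    ext v
    rw [LinearMap.sum_apply]
    simp only [LinearMap.comp_apply, Submodule.subtype_apply, LinearMap.id_apply]
    obtain ⟨w, rfl⟩ := e.surjective v
    have h1 : ∀ i, π i (e w) = w i := by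
      intro i
      change DirectSum.component ℂ ι (fun i => N i) i (e.symm (e w)) = _
      rw [LinearEquiv.symm_apply_apply]
      rfl
    simp_rw [h1]
    change ∑ i, ((w i : N i) : V) = DirectSum.coeLinearMap N w
    rw [DirectSum.coeLinearMap_eq_dfinsuppSum, DFinsupp.sum_eq_sum_fintype]
    · simp
    · intro i
      rfl
  have h1 : LinearMap.trace ℂ V f = ∑ i, LinearMap.trace ℂ (N i) (π i ∘ₗ f ∘ₗ (N i).subtype) := by
    have h2 : f = ∑ i, (f ∘ₗ (N i).subtype) ∘ₗ π i := by
      have h3 : f ∘ₗ LinearMap.id = f := LinearMap.comp_id f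
      rw [← hsum] at h3
      conv_lhs => rw [← h3]
      ext v
      simp [LinearMap.sum_apply]
    conv_lhs => rw [h2]
    rw [map_sum]
    apply Finset.sum_congr rfl
    intro i _
    rw [LinearMap.trace_comp_comm']
  rw [h1]
  apply Finset.sum_eq_zero
  intro i _
  by_cases hσ : σ i = i
  · have h2 : ∀ v ∈ N i, f v ∈ N i := by
      intro v hv
      have := hf i v hv
      rwa [hσ] at this
    have h3 := hcon i h2 hσ
    rw [← h3]
    congr 1
    ext v
    change ((π i (f (v : V)) : N i) : V) = f (v : V)
    have h4 := hπ i i ⟨f (v : V), h2 _ v.2⟩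
    rw [dif_pos rfl] at h4
    change π i (f (v : V)) = _ at h4
    rw [h4]
  · have h2 : π i ∘ₗ f ∘ₗ (N i).subtype = 0 := by
      ext v
      have h4 := hπ (σ i) i ⟨f (v : V), hf i _ v.2⟩
      rw [dif_neg hσ] at h4
      change ((π i (f (v : V)) : N i) : V) = 0
      change π i (f (v : V)) = _ at h4
      rw [h4]
      rfl
    rw [h2, map_zero]

namespace PRep

variable {G : Type*} [Group G] [Finite G] {V : Type*} [AddCommGroup V] [Module ℂ V]
  [FiniteDimensional ℂ V] (T : PRep G V)

/-- The imprimitive case. -/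
theorem imprimitive (hT : T.Irr) {ι : Type*} [Fintype ι] [DecidableEq ι] [MulAction G ι]
    (N : ι → Submodule ℂ V) (hN : DirectSum.IsInternal N) (hne : ∀ i, N i ≠ ⊥)
    (hmap : ∀ (g : G) (i : ι), ∀ v ∈ N i, T.op g v ∈ N (g • i)) (x : G)
    (hx : LinearMap.trace ℂ V (T.op x) ≠ 0) :
    ∃ (i : ι) (W : Submodule ℂ V) (T' : PRep (MulAction.stabilizer G i) W)
      (hxi : x ∈ MulAction.stabilizer G i), T'.Irr ∧
      LinearMap.trace ℂ W (T'.op ⟨x, hxi⟩) ≠ 0 ∧
      Nat.card G = Nat.card ι * Nat.card (MulAction.stabilizer G i) ∧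
      Module.finrank ℂ V = Nat.card ι * Module.finrank ℂ W := by
  classical
  have hNt := hT.1
  have hind := hN.submodule_iSupIndep
  obtain ⟨i, hi, hσ, htr⟩ := exists_fixed_of_trace_ne N hN (fun i => x • i) (T.op x)
    (fun i v hv => hmap x i v hv) hx
  -- transitivity
  have htrans : ∀ j : ι, ∃ g : G, g • i = j := by
    intro j
    by_contra hcon
    push Not at hcon
    have h1 := hT.2 (⨆ g : G, N (g • i)) (by
      rintro _ ⟨g, _, rfl⟩ v hv
      induction hv using Submodule.iSup_induction' with
      | mem k w hw =>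
        apply Submodule.mem_iSup_of_mem (g * k)
        rw [mul_smul]
        exact hmap g _ w hw
      | zero => rw [map_zero]; exact Submodule.zero_mem _
      | add v w _ _ hv hw => rw [map_add]; exact Submodule.add_mem _ hv hw)
    rcases h1 with h1 | h1
    · apply hne i
      rw [eq_bot_iff]
      have : N i ≤ ⨆ g : G, N (g • i) := by
        have h2 := le_iSup (fun g : G => N (g • i)) 1
        simpa using h2
      rwa [h1] at this
    · apply hne j
      have h2 := hind j
      have h3 : (⊤ : Submodule ℂ V) ≤ ⨆ k, ⨆ (_ : k ≠ j), N k := by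
        rw [← h1]
        apply iSup_le
        intro g
        exact le_iSup₂_of_le (g • i) (hcon g) le_rfl
      exact h2.eq_bot_of_le (le_top.trans h3)
  -- dimension
  have hdim : ∀ (g : G), Module.finrank ℂ (N (g • i)) = Module.finrank ℂ (N i) := by
    intro g
    have key : ∀ (g : G) (j : ι), Module.finrank ℂ (N j) ≤ Module.finrank ℂ (N (g • j)) := by
      intro g j
      let f : N j →ₗ[ℂ] N (g • j) := (T.op g).restrict (hmap g j)
      apply LinearMap.finrank_le_finrank_of_injective (f := f)
      intro v w h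
      apply Subtype.ext
      apply T.op_injective g
      exact congrArg Subtype.val h
    apply le_antisymm
    · have := key g⁻¹ (g • i)
      rwa [inv_smul_smul] at this
    · exact key g i
  have hdimV : Module.finrank ℂ V = Nat.card ι * Module.finrank ℂ (N i) := by
    let e : (DirectSum ι fun i => N i) ≃ₗ[ℂ] V :=
      LinearEquiv.ofBijective (DirectSum.coeLinearMap N) hN
    rw [← e.finrank_eq, Module.finrank_directSum]
    have h1 : ∀ j ∈ (Finset.univ : Finset ι), Module.finrank ℂ (N j) = Module.finrank ℂ (N i) := by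
      intro j _
      obtain ⟨g, rfl⟩ := htrans j
      exact hdim g
    rw [Finset.sum_congr rfl h1, Finset.sum_const, Finset.card_univ, Nat.card_eq_fintype_card,
      smul_eq_mul]
  have hcard : Nat.card G = Nat.card ι * Nat.card (MulAction.stabilizer G i) := by
    have : Fintype G := Fintype.ofFinite G
    have h1 := MulAction.card_orbit_mul_card_stabilizer_eq_card_group G i
    have h2 : MulAction.orbit G i = Set.univ := by
      rw [Set.eq_univ_iff_forall]
      intro j
      obtain ⟨g, hg⟩ := htrans j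
      exact ⟨g, hg⟩
    rw [Nat.card_eq_fintype_card, Nat.card_eq_fintype_card, Nat.card_eq_fintype_card, ← h1]
    congr 1
    rw [← Set.toFinset_card]
    have h3 : (MulAction.orbit G i).toFinset = Finset.univ := by
      ext j
      simp [h2]
    rw [h3, Finset.card_univ]
  -- the restriction
  have hstab : ∀ h ∈ MulAction.stabilizer G i, ∀ v ∈ N i, T.op h v ∈ N i := by
    intro h hh v hv
    have := hmap h i v hv
    rwa [MulAction.mem_stabilizer_iff.mp hh] at this
  refine ⟨i, N i, T.restrictTo _ (N i) hstab, MulAction.mem_stabilizer_iff.mpr hσ, ?_, ?_, hcard,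
    hdimV⟩
  · -- irreducibility
    refine ⟨Submodule.nontrivial_iff_ne_bot.mpr (hne i), ?_⟩
    intro U hU
    by_cases hU0 : U = ⊥
    · exact Or.inl hU0
    right
    let U' : Submodule ℂ V := U.map (N i).subtype
    have hU'le : U' ≤ N i := Submodule.map_subtype_le _ _
    have hU'inv : ∀ h ∈ MulAction.stabilizer G i, ∀ v ∈ U', T.op h v ∈ U' := by
      rintro h hh _ ⟨v, hv, rfl⟩
      have h1 := hU ((T.restrictTo _ (N i) hstab).op ⟨h, hh⟩) ⟨⟨h, hh⟩, Set.mem_univ _, rfl⟩ v hv
      exact ⟨_, h1, rfl⟩
    have hU'ne : U' ≠ ⊥ := by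
      intro h
      apply hU0
      rw [eq_bot_iff]
      intro v hv
      have h1 : (v : V) ∈ U' := ⟨v, hv, rfl⟩
      rw [h, Submodule.mem_bot] at h1
      exact (Submodule.mem_bot ℂ).mpr (Subtype.ext h1)
    have h1 := hT.2 (⨆ g : G, U'.map (T.op g)) (by
      rintro _ ⟨g, _, rfl⟩ v hv
      induction hv using Submodule.iSup_induction' with
      | mem k w hw =>
        obtain ⟨w, hw, rfl⟩ := hw
        apply Submodule.mem_iSup_of_mem (g * k)
        obtain ⟨c, hc, h2⟩ := T.exists_mul g k
        have h3 : T.op g (T.op k w) = c • T.op (g * k) w := by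
          have := congrArg (fun Y : Module.End ℂ V => Y w) h2
          simpa using this
        rw [h3]
        exact Submodule.smul_mem _ _ ⟨w, hw, rfl⟩
      | zero => rw [map_zero]; exact Submodule.zero_mem _
      | add v w _ _ hv hw => rw [map_add]; exact Submodule.add_mem _ hv hw)
    have h1' : (⨆ g : G, U'.map (T.op g)) = ⊤ := by
      rcases h1 with h1 | h1
      · exfalso
        apply hU'ne
        rw [eq_bot_iff]
        have h2 := le_iSup (fun g : G => U'.map (T.op g)) 1
        rw [h1] at h2
        intro v hv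
        obtain ⟨c, hc, h3⟩ := T.op_one
        have h4 : T.op 1 v ∈ (⊥ : Submodule ℂ V) := h2 ⟨v, hv, rfl⟩
        rw [h3, LinearMap.smul_apply, Submodule.mem_bot, smul_eq_zero] at h4
        exact (Submodule.mem_bot ℂ).mpr (h4.resolve_left hc)
      · exact h1
    have h2 : (⨆ g : G, U'.map (T.op g)) ≤ U' ⊔ ⨆ k, ⨆ (_ : k ≠ i), N k := by
      apply iSup_le
      intro g
      by_cases hg : g • i = i
      · refine le_trans ?_ le_sup_left
        rintro _ ⟨v, hv, rfl⟩
        exact hU'inv g (MulAction.mem_stabilizer_iff.mpr hg) v hv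
      · refine le_trans ?_ le_sup_right
        refine le_trans ?_ (le_iSup₂_of_le (g • i) hg le_rfl)
        rintro _ ⟨v, hv, rfl⟩
        exact hmap g i v (hU'le hv)
    rw [h1', top_le_iff] at h2
    have h3 : N i ≤ U' := by
      have h4 : N i ⊓ (U' ⊔ ⨆ k, ⨆ (_ : k ≠ i), N k) = U' ⊔ (N i ⊓ ⨆ k, ⨆ (_ : k ≠ i), N k) := by
        rw [inf_comm (N i), sup_inf_assoc_of_le _ hU'le, inf_comm (N i)]
      rw [h2, inf_top_eq, (hind i).eq_bot, sup_bot_eq] at h4
      exact h4.le
    rw [eq_top_iff]
    intro v _
    obtain ⟨w, hw, hwv⟩ := h3 v.2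
    have : w = v := Subtype.ext hwv
    rwa [← this]
  · rw [restrictTo_op]
    exact htr

end PRep

end Pool.Agent.H42.Wilde
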