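import Mathlib
import Pool.Agent.H42.Wilde.Imprim

/-!
Clifford theory for projective representations: the restriction to a normal subgroup is
semisimple, and either isotypic or imprimitive.
-/

namespace Pool.Agent.H42.Wilde

open Finset

namespace PRep

variable {G : Type*} [Group G] {V : Type*} [AddCommGroup V] [Module ℂ V] (T : PRep G V)

/-- The algebra generated by the operators of a subgroup. -/
def alg (N : Subgroup G) : Subalgebra ℂ (Module.End ℂ V) :=
  Algebra.adjoin ℂ (T.op '' (N : Set G))

theorem op_mem_alg {N : Subgroup G} {n : G} (hn : n ∈ N) : T.op n ∈ T.alg N :=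
  Algebra.subset_adjoin ⟨n, hn, rfl⟩

theorem smul_def {N : Subgroup G} (a : T.alg N) (v : V) : a • v = (a : Module.End ℂ V) v := rfl

theorem op_iop_apply (g : G) (v : V) : T.op g (T.iop g v) = v := by
  have := congrArg (fun Y : Module.End ℂ V => Y v) (T.op_mul_iop g)
  simpa using this

theorem iop_op_apply (g : G) (v : V) : T.iop g (T.op g v) = v := by
  have := congrArg (fun Y : Module.End ℂ V => Y v) (T.iop_mul_op g)
  simpa using this

/-- Conjugation by `T_g` preserves the algebra of a normal subgroup. -/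
theorem conj_mem_alg [Nontrivial V] (N : Subgroup G) [hN : N.Normal] (g : G)
    {a : Module.End ℂ V} (ha : a ∈ T.alg N) : T.op g * a * T.iop g ∈ T.alg N := by
  induction ha using Algebra.adjoin_induction with
  | mem x hx =>
    obtain ⟨n, hn, rfl⟩ := hx
    obtain ⟨c, _, hc⟩ := T.conj_op g n
    rw [hc]
    exact Subalgebra.smul_mem _ (T.op_mem_alg (hN.conj_mem n hn g)) c
  | algebraMap r =>
    rw [Algebra.algebraMap_eq_smul_one, mul_smul_comm, mul_one, smul_mul_assoc, op_mul_iop]
    exact Subalgebra.smul_mem _ (Subalgebra.one_mem _) r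
  | add x y _ _ hx hy =>
    rw [mul_add, add_mul]
    exact Subalgebra.add_mem _ hx hy
  | mul x y _ _ hx hy =>
    have h1 : T.op g * (x * y) * T.iop g = (T.op g * x * T.iop g) * (T.op g * y * T.iop g) := by
      have h2 : (T.op g * x * T.iop g) * (T.op g * y * T.iop g) =
          T.op g * x * (T.iop g * T.op g) * y * T.iop g := by simp only [mul_assoc]
      rw [h2, iop_mul_op, mul_one]
      simp only [mul_assoc]
    rw [h1]
    exact Subalgebra.mul_mem _ hx hy

theorem conj_mem_alg' [Nontrivial V] (N : Subgroup G) [hN : N.Normal] (g : G)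
    {a : Module.End ℂ V} (ha : a ∈ T.alg N) : T.iop g * a * T.op g ∈ T.alg N := by
  obtain ⟨c, hc0, hc⟩ := T.iop_eq g
  have h1 := T.conj_mem_alg N g⁻¹ ha
  have h2 : T.op g = c⁻¹ • T.iop g⁻¹ := by
    have h3 := T.op_mul_iop g⁻¹
    have h4 : T.op g⁻¹ = c⁻¹ • T.iop g := by rw [hc, smul_smul, inv_mul_cancel₀ hc0, one_smul]
    rw [h4] at h3
    have h5 := congrArg (fun Y => T.op g * Y) h3
    simp only [smul_mul_assoc, mul_smul_comm, ← mul_assoc, op_mul_iop, one_mul, mul_one] at h5
    exact h5.symm
  rw [h2, hc, smul_mul_assoc, mul_smul_comm, smul_mul_assoc, smul_smul, inv_mul_cancel₀ hc0,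
    one_smul]
  exact h1

/-- The image of a submodule under `T_g`. -/
def mapSub [Nontrivial V] (N : Subgroup G) [N.Normal] (g : G) (m : Submodule (T.alg N) V) :
    Submodule (T.alg N) V where
  carrier := {v | T.iop g v ∈ m}
  add_mem' := by
    intro a b ha hb
    simp only [Set.mem_ofPred_eq] at ha hb ⊢
    rw [map_add]
    exact m.add_mem ha hb
  zero_mem' := by
    simp only [Set.mem_ofPred_eq, map_zero]
    exact m.zero_mem
  smul_mem' := by
    intro a v hv
    simp only [Set.mem_ofPred_eq] at hv ⊢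
    have h1 : T.iop g (a • v) =
        (⟨T.iop g * a * T.op g, T.conj_mem_alg' N g a.2⟩ : T.alg N) • (T.iop g v) := by
      rw [smul_def, smul_def]
      change _ = T.iop g ((a : Module.End ℂ V) (T.op g (T.iop g v)))
      rw [op_iop_apply]
    rw [h1]
    exact m.smul_mem _ hv

theorem mem_mapSub [Nontrivial V] (N : Subgroup G) [N.Normal] (g : G)
    (m : Submodule (T.alg N) V) (v : V) : v ∈ T.mapSub N g m ↔ T.iop g v ∈ m := Iff.rfl

theorem smul_mem_iff' {N : Subgroup G} (m : Submodule (T.alg N) V) {c : ℂ} (hc : c ≠ 0) (v : V) :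
    c • v ∈ m ↔ v ∈ m := by
  have h1 : ∀ (d : ℂ) (w : V), w ∈ m → d • w ∈ m := by
    intro d w hw
    have h2 : d • w = (algebraMap ℂ (T.alg N) d) • w := by
      rw [algebraMap_smul]
    rw [h2]
    exact m.smul_mem _ hw
  constructor
  · intro h
    have := h1 c⁻¹ _ h
    rwa [smul_smul, inv_mul_cancel₀ hc, one_smul] at this
  · exact h1 c v

theorem op_mem_mapSub [Nontrivial V] (N : Subgroup G) [N.Normal] (g : G)
    (m : Submodule (T.alg N) V) (v : V) (hv : v ∈ m) : T.op g v ∈ T.mapSub N g m := by
  rw [mem_mapSub, iop_op_apply]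
  exact hv

theorem mapSub_one [Nontrivial V] (N : Subgroup G) [N.Normal] (m : Submodule (T.alg N) V) :
    T.mapSub N 1 m = m := by
  ext v
  rw [mem_mapSub]
  obtain ⟨c, hc, h⟩ := T.op_one
  have h1 : T.iop 1 = c⁻¹ • (1 : Module.End ℂ V) := by
    have := T.iop_mul_op 1
    rw [h, mul_smul_comm, mul_one] at this
    rw [← this, smul_smul, inv_mul_cancel₀ hc, one_smul]
  rw [h1, LinearMap.smul_apply, Module.End.one_apply]
  exact T.smul_mem_iff' m (inv_ne_zero hc) v

theorem mapSub_mul [Nontrivial V] (N : Subgroup G) [N.Normal] (g h : G)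
    (m : Submodule (T.alg N) V) : T.mapSub N (g * h) m = T.mapSub N g (T.mapSub N h m) := by
  ext v
  rw [mem_mapSub, mem_mapSub, mem_mapSub]
  obtain ⟨c, hc, h1⟩ := T.exists_mul g h
  have h2 : T.iop (g * h) = c • (T.iop h * T.iop g) := by
    have h3 : (T.op g * T.op h) * (T.iop h * T.iop g) = 1 := by
      rw [mul_assoc, ← mul_assoc (T.op h), op_mul_iop, one_mul, op_mul_iop]
    rw [h1] at h3
    have h4 : T.iop (g * h) * ((c • T.op (g * h)) * (T.iop h * T.iop g)) = T.iop (g * h) := by
      rw [h3, mul_one]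
    rw [smul_mul_assoc, mul_smul_comm, ← mul_assoc, iop_mul_op, one_mul] at h4
    exact h4.symm
  rw [h2, LinearMap.smul_apply]
  exact T.smul_mem_iff' m hc _

theorem mapSub_mono [Nontrivial V] (N : Subgroup G) [N.Normal] (g : G)
    {m m' : Submodule (T.alg N) V} (h : m ≤ m') : T.mapSub N g m ≤ T.mapSub N g m' :=
  fun _ hv => h hv

/-- The action on submodules as an order isomorphism. -/
def subIso [Nontrivial V] (N : Subgroup G) [N.Normal] (g : G) :
    Submodule (T.alg N) V ≃o Submodule (T.alg N) V where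
  toFun := T.mapSub N g
  invFun := T.mapSub N g⁻¹
  left_inv m := by rw [← mapSub_mul, inv_mul_cancel, mapSub_one]
  right_inv m := by rw [← mapSub_mul, mul_inv_cancel, mapSub_one]
  map_rel_iff' := by
    intro a b
    constructor
    · intro h
      have := T.mapSub_mono N g⁻¹ h
      change T.mapSub N g⁻¹ (T.mapSub N g a) ≤ T.mapSub N g⁻¹ (T.mapSub N g b) at this
      rwa [← mapSub_mul, ← mapSub_mul, inv_mul_cancel, mapSub_one, mapSub_one] at this
    · exact T.mapSub_mono N g

theorem subIso_apply [Nontrivial V] (N : Subgroup G) [N.Normal] (g : G)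
    (m : Submodule (T.alg N) V) : T.subIso N g m = T.mapSub N g m := rfl

/-- Fully invariant submodules are permuted. -/
theorem fullyInvariant_mapSub [Nontrivial V] (N : Subgroup G) [N.Normal] (g : G)
    {m : Submodule (T.alg N) V} (hm : m.IsFullyInvariant) :
    (T.mapSub N g m).IsFullyInvariant := by
  intro f v hv
  rw [mem_mapSub] at hv
  rw [Submodule.mem_comap, mem_mapSub]
  let f' : Module.End (T.alg N) V :=
    { toFun := fun w => T.iop g (f (T.op g w))
      map_add' := by intro a b; rw [map_add, map_add, map_add]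
      map_smul' := by
        intro a w
        have h1 : T.op g (a • w) =
            (⟨T.op g * a * T.iop g, T.conj_mem_alg N g a.2⟩ : T.alg N) • (T.op g w) := by
          rw [smul_def, smul_def]
          change _ = T.op g ((a : Module.End ℂ V) (T.iop g (T.op g w)))
          rw [iop_op_apply]
        rw [h1, map_smul, smul_def]
        change T.iop g (T.op g ((a : Module.End ℂ V) (T.iop g (f (T.op g w))))) = _
        rw [iop_op_apply]
        rfl }
  have h1 := hm f' hv
  rw [Submodule.mem_comap] at h1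
  change T.iop g (f (T.op g (T.iop g v))) ∈ m at h1
  rwa [op_iop_apply] at h1

variable [FiniteDimensional ℂ V]

instance (N : Subgroup G) : IsArtinian (T.alg N) V := isArtinian_of_tower ℂ inferInstance

instance (N : Subgroup G) : IsNoetherian (T.alg N) V := isNoetherian_of_tower ℂ inferInstance

instance (N : Subgroup G) : Module.Finite (T.alg N) V :=
  Module.Finite.of_restrictScalars_finite ℂ (T.alg N) V

/-- The restriction to a normal subgroup is semisimple. -/
theorem isSemisimple [Nontrivial V] (hT : T.Irr) (N : Subgroup G) [N.Normal] :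
    IsSemisimpleModule (T.alg N) V := by
  rw [← sSup_simples_eq_top_iff_isSemisimpleModule]
  set U : Submodule (T.alg N) V := sSup {m | IsSimpleModule (T.alg N) m} with hU
  have hinv : ∀ g : G, ∀ v ∈ U, T.op g v ∈ U := by
    intro g v hv
    have h1 : T.op g v ∈ T.mapSub N g U := T.op_mem_mapSub N g U v hv
    have h2 : T.mapSub N g U ≤ U := by
      rw [← subIso_apply, hU, OrderIso.map_sSup]
      apply iSup₂_le
      intro m hm
      apply le_sSup
      change IsSimpleModule (T.alg N) _
      rw [isSimpleModule_iff_isAtom]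
      exact (OrderIso.isAtom_iff (T.subIso N g) m).mpr (isSimpleModule_iff_isAtom.mp hm)
    exact h2 h1
  have h1 := hT.2 (U.restrictScalars ℂ) (by
    rintro _ ⟨g, _, rfl⟩ v hv
    exact hinv g v hv)
  rcases h1 with h1 | h1
  · exfalso
    have hat : IsAtomic (Submodule (T.alg N) V) := inferInstance
    obtain ⟨m, hm, _⟩ := (hat.eq_bot_or_exists_atom_le ⊤).resolve_left top_ne_bot
    have h2 : m ≤ U := le_sSup (isSimpleModule_iff_isAtom.mpr hm)
    apply hm.1
    rw [eq_bot_iff]
    intro v hv
    have h3 : v ∈ U.restrictScalars ℂ := h2 hv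
    rw [h1] at h3
    exact h3
  · rw [eq_top_iff]
    intro v _
    have : v ∈ U.restrictScalars ℂ := by rw [h1]; exact Submodule.mem_top
    exact this

end PRep

/-- Isotypic components are the minimal nonzero fully invariant submodules. -/
theorem mem_isotypicComponents_iff_minimal {R M : Type*} [Ring R] [AddCommGroup M] [Module R M]
    [IsSemisimpleModule R M] {m : Submodule R M} :
    m ∈ isotypicComponents R M ↔ m ≠ ⊥ ∧ m.IsFullyInvariant ∧
      ∀ n ≤ m, n.IsFullyInvariant → n = ⊥ ∨ n = m := by
  constructor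
  · intro hm
    refine ⟨(bot_lt_isotypicComponents hm).ne', .of_mem_isotypicComponents hm, ?_⟩
    intro n hn hinv
    rcases IsSemisimpleModule.eq_bot_or_exists_simple_le n with h | ⟨S, hS, hsimple⟩
    · exact Or.inl h
    · right
      apply le_antisymm hn
      have h1 := eq_isotypicComponent_of_le hm (hS.trans hn)
      rw [h1]
      exact isFullyInvariant_iff_le_imp_isotypicComponent_le.mp hinv _ hS
  · rintro ⟨hne, hinv, hmin⟩
    obtain ⟨S, hS, hsimple⟩ := (IsSemisimpleModule.eq_bot_or_exists_simple_le m).resolve_left hne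
    refine ⟨S, hsimple, ?_⟩
    have h1 := isFullyInvariant_iff_le_imp_isotypicComponent_le.mp hinv S hS
    rcases hmin _ h1 (.isotypicComponent R M S) with h2 | h2
    · exact absurd h2 (bot_lt_isotypicComponent S).ne'
    · exact h2.symm

namespace PRep

variable {G : Type*} [Group G] {V : Type*} [AddCommGroup V] [Module ℂ V] [FiniteDimensional ℂ V]
  (T : PRep G V)

theorem mapSub_mem_isotypicComponents [Nontrivial V] (hT : T.Irr) (N : Subgroup G) [N.Normal]
    (g : G) {m : Submodule (T.alg N) V} (hm : m ∈ isotypicComponents (T.alg N) V) :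
    T.mapSub N g m ∈ isotypicComponents (T.alg N) V := by
  have := T.isSemisimple hT N
  rw [mem_isotypicComponents_iff_minimal] at hm ⊢
  obtain ⟨hne, hinv, hmin⟩ := hm
  refine ⟨?_, T.fullyInvariant_mapSub N g hinv, ?_⟩
  · intro h
    apply hne
    have h1 : T.subIso N g m = T.subIso N g ⊥ := by
      rw [OrderIso.map_bot, subIso_apply, h]
    exact (T.subIso N g).injective h1
  · intro n hn hninv
    have h1 : T.mapSub N g⁻¹ n ≤ m := by
      have := T.mapSub_mono N g⁻¹ hn
      rwa [← mapSub_mul, inv_mul_cancel, mapSub_one] at this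
    have h2 : T.mapSub N g (T.mapSub N g⁻¹ n) = n := by
      rw [← mapSub_mul, mul_inv_cancel, mapSub_one]
    rcases hmin _ h1 (T.fullyInvariant_mapSub N g⁻¹ hninv) with h3 | h3
    · left
      rw [← h2, h3, ← subIso_apply, OrderIso.map_bot]
    · right
      rw [← h2, h3]

/-- Clifford's dichotomy. -/
theorem isotypic_or_imprimitive [Finite G] (hT : T.Irr) (N : Subgroup G) [N.Normal] (x : G)
    (hx : LinearMap.trace ℂ V (T.op x) ≠ 0) :
    IsIsotypic (T.alg N) V ∨
    ∃ (H : Subgroup G) (W : Submodule ℂ V) (T' : PRep H W) (hxH : x ∈ H) (k : ℕ), 1 < k ∧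
      T'.Irr ∧ LinearMap.trace ℂ W (T'.op ⟨x, hxH⟩) ≠ 0 ∧ Nat.card G = k * Nat.card H ∧
      Module.finrank ℂ V = k * Module.finrank ℂ W := by
  classical
  have := hT.1
  have hss := T.isSemisimple hT N
  by_cases hiso : IsIsotypic (T.alg N) V
  · exact Or.inl hiso
  right
  let ι := isotypicComponents (T.alg N) V
  have : Finite ι := inferInstance
  have : Fintype ι := Fintype.ofFinite ι
  let _ : MulAction G ι :=
    { smul := fun g c => ⟨T.mapSub N g c.1, T.mapSub_mem_isotypicComponents hT N g c.2⟩
      one_smul := fun c => Subtype.ext (T.mapSub_one N c.1)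
      mul_smul := fun g h c => Subtype.ext (T.mapSub_mul N g h c.1) }
  let Nn : ι → Submodule ℂ V := fun c => c.1.restrictScalars ℂ
  have hind : iSupIndep Nn := by
    have h1 := (sSupIndep_iff _).mp (sSupIndep_isotypicComponents (T.alg N) V)
    intro c
    have h2 := h1 c
    have h3 : (⨆ j, ⨆ (_ : j ≠ c), Nn j) =
        (⨆ j : ι, ⨆ (_ : j ≠ c), (j : Submodule (T.alg N) V)).restrictScalars ℂ := by
      have h4 := map_iSup₂ (Submodule.restrictScalarsLatticeHom ℂ (T.alg N) V)
        (fun (j : ι) (_ : j ≠ c) => (j : Submodule (T.alg N) V))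
      exact h4.symm
    rw [h3]
    rw [disjoint_iff] at h2 ⊢
    have h6 : (c : Submodule (T.alg N) V) ⊓
        (⨆ j : ι, ⨆ (_ : j ≠ c), (j : Submodule (T.alg N) V)) = ⊥ := h2
    rw [eq_bot_iff]
    intro v hv
    have h7 : v ∈ (c : Submodule (T.alg N) V) ⊓
        (⨆ j : ι, ⨆ (_ : j ≠ c), (j : Submodule (T.alg N) V)) := ⟨hv.1, hv.2⟩
    rw [h6] at h7
    exact h7
  have hsup : iSup Nn = ⊤ := by
    have h1 := sSup_isotypicComponents (T.alg N) V
    rw [sSup_eq_iSup'] at h1
    have h2 := map_iSup (Submodule.restrictScalarsLatticeHom ℂ (T.alg N) V)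
      (fun j : ι => (j : Submodule (T.alg N) V))
    rw [h1, map_top] at h2
    exact h2.symm
  have hint : DirectSum.IsInternal Nn :=
    DirectSum.isInternal_submodule_of_iSupIndep_of_iSup_eq_top hind hsup
  have hne : ∀ c, Nn c ≠ ⊥ := by
    intro c h
    apply (bot_lt_isotypicComponents c.2).ne'
    rw [eq_bot_iff]
    intro v hv
    have h1 : v ∈ Nn c := hv
    rw [h] at h1
    exact h1
  have hmap : ∀ (g : G) (c : ι), ∀ v ∈ Nn c, T.op g v ∈ Nn (g • c) := by
    intro g c v hv
    exact T.op_mem_mapSub N g c.1 v hv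
  obtain ⟨c, W, T', hxi, hirr, htr, hcard, hdim⟩ := T.imprimitive hT Nn hint hne hmap x hx
  refine ⟨MulAction.stabilizer G c, W, T', hxi, Nat.card ι, ?_, hirr, htr, hcard, hdim⟩
  -- at least two components
  by_contra hle
  push Not at hle
  apply hiso
  have h1 : Subsingleton ι := by
    rw [Nat.card_eq_fintype_card] at hle
    exact Fintype.card_le_one_iff_subsingleton.mp hle
  have h2 : (c : Submodule (T.alg N) V) = ⊤ := by
    rw [eq_top_iff, ← sSup_isotypicComponents (T.alg N) V]
    apply sSup_le
    intro d hd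
    have : (⟨d, hd⟩ : ι) = c := Subsingleton.elim _ _
    rw [← this]
  rw [isIsotypic_iff_isFullyInvariant_imp_bot_or_top]
  intro m hm
  have h3 := (mem_isotypicComponents_iff_minimal.mp c.2).2.2 m (by rw [h2]; exact le_top) hm
  rwa [h2] at h3

end PRep

end Pool.Agent.H42.Wilde
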