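import Mathlib
import Pool.Agent.H42.Wilde.Isotypic

/-!
Clifford theory for projective representations: tensor decomposition in the isotypic case.
-/

namespace Pool.Agent.H42.Wilde

open Finset

/-- Build a projective representation from operators multiplicative up to nonzero scalars. -/
noncomputable def PRep.mkOf {G : Type*} [Group G] {V : Type*} [AddCommGroup V] [Module ℂ V]
    (op : G → Module.End ℂ V) (c : G → G → ℂ) (c1 : ℂ) (hc : ∀ g h, c g h ≠ 0) (hc1 : c1 ≠ 0)
    (h1 : op 1 = c1 • (1 : Module.End ℂ V))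
    (hmul : ∀ g h, op g * op h = c g h • op (g * h)) : PRep G V where
  T g := ⟨op g, (c g g⁻¹ * c1)⁻¹ • op g⁻¹, by
      rw [mul_smul_comm, hmul, mul_inv_cancel, h1, smul_smul, smul_smul, mul_assoc,
        inv_mul_cancel₀ (mul_ne_zero (hc _ _) hc1), one_smul], by
      have h2 : op g⁻¹ * op g = (c g⁻¹ g * c1) • (1 : Module.End ℂ V) := by
        rw [hmul, inv_mul_cancel, h1, smul_smul]
      have h3 : op g * op g⁻¹ = (c g g⁻¹ * c1) • (1 : Module.End ℂ V) := by
        rw [hmul, mul_inv_cancel, h1, smul_smul]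
      have h4 : (c g⁻¹ g * c1) • op g⁻¹ = (c g g⁻¹ * c1) • op g⁻¹ := by
        calc (c g⁻¹ g * c1) • op g⁻¹ = (op g⁻¹ * op g) * op g⁻¹ := by
              rw [h2, smul_mul_assoc, one_mul]
          _ = op g⁻¹ * (op g * op g⁻¹) := by rw [mul_assoc]
          _ = _ := by rw [h3, mul_smul_comm, mul_one]
      calc (c g g⁻¹ * c1)⁻¹ • op g⁻¹ * op g
          = (c g g⁻¹ * c1)⁻¹ • (op g⁻¹ * op g) := by rw [smul_mul_assoc]
        _ = 1 := by
          by_cases hV : (1 : Module.End ℂ V) = 0
          · have hz : ∀ X : Module.End ℂ V, X = 0 := fun X => by rw [← one_mul X, hV, zero_mul]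
            rw [hz ((c g g⁻¹ * c1)⁻¹ • (op g⁻¹ * op g)), hV]
          · have h5 : op g⁻¹ ≠ 0 := by
              intro h0
              rw [h0, zero_mul] at h2
              exact smul_ne_zero (mul_ne_zero (hc _ _) hc1) hV h2.symm
            have h6 : c g⁻¹ g * c1 = c g g⁻¹ * c1 := smul_left_injective ℂ h5 h4
            rw [h2, h6, smul_smul, inv_mul_cancel₀ (mul_ne_zero (hc _ _) hc1), one_smul]⟩
  mul' g h := ⟨c g h, hmul g h⟩

theorem PRep.mkOf_op {G : Type*} [Group G] {V : Type*} [AddCommGroup V] [Module ℂ V]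
    (op : G → Module.End ℂ V) (c : G → G → ℂ) (c1 : ℂ) (hc : ∀ g h, c g h ≠ 0) (hc1 : c1 ≠ 0)
    (h1 : op 1 = c1 • (1 : Module.End ℂ V))
    (hmul : ∀ g h, op g * op h = c g h • op (g * h)) (g : G) :
    (PRep.mkOf op c c1 hc hc1 h1 hmul).op g = op g := rfl

section pi

variable {Θ : Type*} [AddCommGroup Θ] [Module ℂ Θ] {l : ℕ}

/-- The blocks of an operator on a power. -/
def blk (F : Module.End ℂ (Fin l → Θ)) (i j : Fin l) : Module.End ℂ Θ :=
  LinearMap.proj i ∘ₗ F ∘ₗ LinearMap.single ℂ (fun _ => Θ) j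

theorem blk_apply (F : Module.End ℂ (Fin l → Θ)) (i j : Fin l) (v : Θ) :
    blk F i j v = F (Pi.single j v) i := rfl

theorem apply_eq_sum_blk (F : Module.End ℂ (Fin l → Θ)) (w : Fin l → Θ) (i : Fin l) :
    F w i = ∑ j, blk F i j (w j) := by
  have h1 : w = ∑ j, Pi.single j (w j) := (Finset.univ_sum_single w).symm
  conv_lhs => rw [h1, map_sum, Finset.sum_apply]
  rfl

/-- The trace of an operator on a power. -/
theorem trace_pi [FiniteDimensional ℂ Θ] (F : Module.End ℂ (Fin l → Θ)) :
    LinearMap.trace ℂ (Fin l → Θ) F = ∑ i, LinearMap.trace ℂ Θ (blk F i i) := by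
  have h1 : F = ∑ j, (F ∘ₗ LinearMap.single ℂ (fun _ => Θ) j) ∘ₗ LinearMap.proj j := by
    refine LinearMap.ext (fun w => ?_)
    rw [LinearMap.sum_apply]
    conv_lhs => rw [← Finset.univ_sum_single w, map_sum]
    rfl
  conv_lhs => rw [h1]
  rw [map_sum]
  apply Finset.sum_congr rfl
  intro i _
  rw [LinearMap.trace_comp_comm']
  rfl

/-- The trace over the second factor. -/
def ptr (F : Module.End ℂ (Fin l → Θ)) : Module.End ℂ Θ := ∑ i, blk F i i

theorem trace_ptr [FiniteDimensional ℂ Θ] (F : Module.End ℂ (Fin l → Θ)) :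
    LinearMap.trace ℂ (Fin l → Θ) F = LinearMap.trace ℂ Θ (ptr F) := by
  rw [trace_pi, ptr, map_sum]

theorem blk_mul (F F' : Module.End ℂ (Fin l → Θ)) (i j : Fin l) :
    blk (F * F') i j = ∑ k, blk F i k * blk F' k j := by
  ext1 v
  rw [blk_apply, LinearMap.sum_apply]
  change F (F' (Pi.single j v)) i = _
  rw [apply_eq_sum_blk]
  rfl

theorem ext_blk {F F' : Module.End ℂ (Fin l → Θ)} (h : ∀ i j, blk F i j = blk F' i j) :
    F = F' := by
  refine LinearMap.ext (fun w => ?_)
  funext i
  rw [apply_eq_sum_blk, apply_eq_sum_blk]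
  exact Finset.sum_congr rfl (fun j _ => by rw [h])

end pi

/-- A tensor decomposition of a projective representation relative to a subgroup. -/
structure TDec {G : Type*} [Group G] {V : Type*} [AddCommGroup V] [Module ℂ V] (T : PRep G V)
    (N : Subgroup G) where
  /-- multiplicity -/
  l : ℕ
  /-- the first factor -/
  Θ : Submodule ℂ V
  /-- the action on the first factor -/
  a : PRep G Θ
  /-- matrices of the action on the second factor -/
  b : G → Matrix (Fin l) (Fin l) ℂ
  /-- the action on the second factor -/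
  B : PRep G (Fin l → ℂ)
  hB : ∀ g, B.op g = Matrix.toLin' (b g)
  /-- the decomposition -/
  e : V ≃ₗ[ℂ] (Fin l → Θ)
  he : ∀ g v i, e (T.op g v) i = ∑ j, b g i j • a.op g (e v j)
  hΘ : a.IrrOn N
  hBirr : B.Irr
  hN : ∀ n ∈ N, b n = 1

namespace PRep

variable {G : Type*} [Group G] {V : Type*} [AddCommGroup V] [Module ℂ V] [FiniteDimensional ℂ V]
  (T : PRep G V)

/-- Clifford theory: the isotypic case. -/
theorem exists_tdec [Nontrivial V] (hT : T.Irr) (N : Subgroup G) [hNn : N.Normal]
    (hiso : IsIsotypic (T.alg N) V) : Nonempty (TDec T N) := by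
  classical
  have hss := T.isSemisimple hT N
  obtain ⟨l, hl, S, hS, ⟨e0⟩⟩ := hiso.linearEquiv_fun
  let Θ : Submodule ℂ V := S.restrictScalars ℂ
  have he0smul : ∀ (c : ℂ) (v : V) (i : Fin l), ((e0 (c • v) i : S) : V) = c • ((e0 v i : S) : V) := by
    intro c v i
    have h1 : c • v = (algebraMap ℂ (T.alg N) c) • v := by rw [algebraMap_smul]
    have h2 := congrArg Subtype.val (congrFun (e0.map_smul (algebraMap ℂ (T.alg N) c) v) i)
    rw [h1]
    exact h2
  let e : V ≃ₗ[ℂ] (Fin l → Θ) :=
    { toFun := fun v i => ⟨(e0 v i : V), (e0 v i).2⟩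
      map_add' := by
        intro v w
        funext i
        apply Subtype.ext
        change ((e0 (v + w) i : S) : V) = ((e0 v i : S) : V) + ((e0 w i : S) : V)
        rw [map_add, Pi.add_apply, Submodule.coe_add]
      map_smul' := by
        intro c v
        funext i
        apply Subtype.ext
        exact he0smul c v i
      invFun := fun w => e0.symm (fun i => ⟨(w i : V), (w i).2⟩)
      left_inv := by
        intro v
        change e0.symm (e0 v) = v
        exact e0.symm_apply_apply v
      right_inv := by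
        intro w
        funext i
        apply Subtype.ext
        change ((e0 (e0.symm (fun i => ⟨(w i : V), (w i).2⟩)) i : S) : V) = _
        rw [e0.apply_symm_apply] }
  have heA : ∀ (a : Module.End ℂ V) (_ : a ∈ T.alg N) (v : V) (i : Fin l),
      ((e (a v) i : Θ) : V) = a ((e v i : Θ) : V) := by
    intro a ha v i
    change ((e0 (a v) i : S) : V) = a ((e0 v i : S) : V)
    exact congrArg Subtype.val (congrFun (e0.map_smul (⟨a, ha⟩ : T.alg N) v) i)
  have hΘinv : ∀ (a : Module.End ℂ V) (_ : a ∈ T.alg N) (v : V), v ∈ Θ → a v ∈ Θ := by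
    intro a ha v hv
    exact S.smul_mem (⟨a, ha⟩ : T.alg N) hv
  have hθinv : ∀ n ∈ N, ∀ v ∈ Θ, T.op n v ∈ Θ := fun n hn v hv =>
    hΘinv _ (T.op_mem_alg hn) v hv
  let θ : N → Module.End ℂ Θ := fun n => (T.op (n : G)).restrict (hθinv n n.2)
  have heθ : ∀ (n : N) (v : V) (i : Fin l), e (T.op (n : G) v) i = θ n (e v i) := by
    intro n v i
    apply Subtype.ext
    exact heA _ (T.op_mem_alg n.2) v i
  -- irreducibility of the first factor
  have hSne : S ≠ ⊥ := (isSimpleModule_iff_isAtom.mp hS).1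
  have hΘnt : Nontrivial Θ := by
    rw [Submodule.nontrivial_iff_ne_bot]
    intro h
    apply hSne
    rw [eq_bot_iff]
    intro v hv
    have h1 : v ∈ Θ := hv
    rw [h] at h1
    exact h1
  have hθirr : IrrSet (Set.range θ) := by
    refine ⟨hΘnt, ?_⟩
    intro W hW
    let W' : Submodule (T.alg N) V :=
      { carrier := {v | ∃ h : v ∈ Θ, (⟨v, h⟩ : Θ) ∈ W}
        add_mem' := by
          rintro v w ⟨hv, hv'⟩ ⟨hw, hw'⟩
          exact ⟨Θ.add_mem hv hw, W.add_mem hv' hw'⟩
        zero_mem' := ⟨Θ.zero_mem, W.zero_mem⟩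
        smul_mem' := by
          rintro ⟨a, ha⟩ v ⟨hv, hv'⟩
          change ∃ h : a v ∈ Θ, (⟨a v, h⟩ : Θ) ∈ W
          refine ⟨hΘinv a ha v hv, ?_⟩
          have key : ∀ (v : V) (hv : v ∈ Θ), (⟨v, hv⟩ : Θ) ∈ W →
              (⟨a v, hΘinv a ha v hv⟩ : Θ) ∈ W := by
            induction ha using Algebra.adjoin_induction with
            | mem x hx =>
              obtain ⟨n, hn, rfl⟩ := hx
              intro v hv hv'
              exact hW (θ ⟨n, hn⟩) ⟨⟨n, hn⟩, rfl⟩ ⟨v, hv⟩ hv'
            | algebraMap r =>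
              intro v hv hv'
              exact W.smul_mem r hv'
            | add x y hx hy ihx ihy =>
              intro v hv hv'
              exact W.add_mem (ihx v hv hv') (ihy v hv hv')
            | mul x y hx hy ihx ihy =>
              intro v hv hv'
              exact ihx (y v) (hΘinv y hy v hv) (ihy v hv hv')
          exact key v hv hv' }
    have hW'le : W' ≤ S := by
      rintro v ⟨hv, _⟩
      exact hv
    rcases (isSimpleModule_iff_isAtom.mp hS).le_iff.mp hW'le with h | h
    · left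
      rw [eq_bot_iff]
      rintro ⟨v, hv⟩ hv'
      have h1 : v ∈ W' := ⟨hv, hv'⟩
      rw [h, Submodule.mem_bot] at h1
      exact (Submodule.mem_bot ℂ).mpr (Subtype.ext h1)
    · right
      rw [eq_top_iff]
      rintro ⟨v, hv⟩ _
      have h1 : v ∈ W' := by rw [h]; exact hv
      obtain ⟨_, h2⟩ := h1
      exact h2
  -- the blocks
  let F : G → Module.End ℂ (Fin l → Θ) := fun g => e.toLinearMap ∘ₗ T.op g ∘ₗ e.symm.toLinearMap
  have hF : ∀ g v, F g (e v) = e (T.op g v) := by
    intro g v
    change e (T.op g (e.symm (e v))) = _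
    rw [e.symm_apply_apply]
  have hsingle : ∀ (n : N) (j : Fin l) (v : Θ),
      T.op (n : G) (e.symm (Pi.single j v)) = e.symm (Pi.single j (θ n v)) := by
    intro n j v
    rw [LinearEquiv.eq_symm_apply]
    funext i
    rw [heθ, e.apply_symm_apply]
    by_cases hij : i = j
    · subst hij
      rw [Pi.single_eq_same, Pi.single_eq_same]
    · rw [Pi.single_eq_of_ne hij, Pi.single_eq_of_ne hij, map_zero]
  have hcomm : ∀ (g : G) (n : N), ∃ c : ℂ, c ≠ 0 ∧ ∀ i j,
      blk (F g) i j * θ n = c • (θ ⟨g * n * g⁻¹, hNn.conj_mem n n.2 g⟩ * blk (F g) i j) := by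
    intro g n
    obtain ⟨c, hc, h1⟩ := T.conj_op g n
    refine ⟨c, hc, fun i j => ?_⟩
    refine LinearMap.ext (fun v => ?_)
    change e (T.op g (e.symm (Pi.single j (θ n v)))) i = c • θ _ (e (T.op g (e.symm (Pi.single j v))) i)
    rw [← hsingle, ← heθ]
    have h2 : T.op g * T.op n = c • (T.op (g * n * g⁻¹) * T.op g) := by
      have h3 := congrArg (fun Y => Y * T.op g) h1
      simpa [mul_assoc, iop_mul_op] using h3
    have h3 : T.op g (T.op (n : G) (e.symm (Pi.single j v))) =
        c • T.op (g * n * g⁻¹) (T.op g (e.symm (Pi.single j v))) := by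
      have := congrArg (fun Y : Module.End ℂ V => Y (e.symm (Pi.single j v))) h2
      simpa using this
    rw [h3, map_smul]
    rfl
  have hex : ∀ g : G, ∃ ij : Fin l × Fin l, blk (F g) ij.1 ij.2 ≠ 0 := by
    intro g
    by_contra hcon
    push Not at hcon
    apply T.op_ne_zero g
    have h1 : F g = 0 := by
      apply ext_blk
      intro i j
      rw [hcon (i, j)]
      rfl
    refine LinearMap.ext (fun v => ?_)
    have h2 := hF g v
    rw [h1] at h2
    have h3 : e (T.op g v) = 0 := h2.symm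
    rw [LinearEquiv.map_eq_zero_iff] at h3
    exact h3
  choose ij hij using hex
  let a0 : G → Module.End ℂ Θ := fun g => blk (F g) (ij g).1 (ij g).2
  have ha0ne : ∀ g, a0 g ≠ 0 := hij
  have ha0unit : ∀ g, IsUnit (a0 g) := by
    intro g
    rw [LinearMap.isUnit_iff_ker_eq_bot]
    have h1 := hθirr.2 (LinearMap.ker (a0 g)) (by
      rintro _ ⟨n, rfl⟩ v hv
      rw [LinearMap.mem_ker] at hv ⊢
      obtain ⟨c, hc, h2⟩ := hcomm g n
      have h3 := congrArg (fun Y : Module.End ℂ Θ => Y v) (h2 (ij g).1 (ij g).2)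
      change a0 g (θ n v) = c • θ _ (a0 g v) at h3
      rw [h3, hv, map_zero, smul_zero])
    rcases h1 with h1 | h1
    · exact h1
    · exfalso
      apply ha0ne g
      refine LinearMap.ext (fun v => ?_)
      have : v ∈ LinearMap.ker (a0 g) := by rw [h1]; exact Submodule.mem_top
      exact this
  have hbex : ∀ g (i j : Fin l), ∃ c : ℂ, blk (F g) i j = c • a0 g := by
    intro g i j
    obtain ⟨u, hu⟩ := ha0unit g
    set ia : Module.End ℂ Θ := ((u⁻¹ : (Module.End ℂ Θ)ˣ) : Module.End ℂ Θ) with hia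
    have h1 : ia * a0 g = 1 := by rw [← hu, hia]; exact Units.inv_mul u
    have h2 : a0 g * ia = 1 := by rw [← hu, hia]; exact Units.mul_inv u
    obtain ⟨c, hc⟩ := hθirr.schur (ia * blk (F g) i j) (by
      rintro _ ⟨n, rfl⟩
      obtain ⟨d, hd, h3⟩ := hcomm g n
      have h4 := h3 (ij g).1 (ij g).2
      change a0 g * θ n = d • (θ _ * a0 g) at h4
      have h5 : θ n * ia = d • (ia * θ ⟨g * n * g⁻¹, hNn.conj_mem n n.2 g⟩) := by
        calc θ n * ia = (ia * a0 g) * θ n * ia := by rw [h1, one_mul]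
          _ = ia * (a0 g * θ n) * ia := by simp only [mul_assoc]
          _ = d • (ia * θ ⟨g * n * g⁻¹, hNn.conj_mem n n.2 g⟩ * (a0 g * ia)) := by
            rw [h4, mul_smul_comm, smul_mul_assoc]
            simp only [mul_assoc]
          _ = _ := by rw [h2, mul_one]
      rw [← mul_assoc, h5, smul_mul_assoc, mul_assoc ia (blk (F g) i j), h3 i j, mul_smul_comm,
        mul_assoc])
    refine ⟨c, ?_⟩
    calc blk (F g) i j = a0 g * (ia * blk (F g) i j) := by rw [← mul_assoc, h2, one_mul]
      _ = c • a0 g := by rw [hc, mul_smul_comm, mul_one]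
  choose b hb using hbex
  have hb1 : ∀ g, b g (ij g).1 (ij g).2 = 1 := by
    intro g
    have h1 := hb g (ij g).1 (ij g).2
    change a0 g = _ at h1
    have h2 : (1 : ℂ) • a0 g = b g (ij g).1 (ij g).2 • a0 g := by rw [one_smul]; exact h1
    exact (smul_left_injective ℂ (ha0ne g) h2).symm
  -- multiplicativity
  have hFmul : ∀ g h, ∃ c : ℂ, c ≠ 0 ∧ F g * F h = c • F (g * h) := by
    intro g h
    obtain ⟨c, hc, h1⟩ := T.exists_mul g h
    refine ⟨c, hc, ?_⟩
    refine LinearMap.ext (fun w => ?_)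
    obtain ⟨v, rfl⟩ := e.surjective w
    change F g (F h (e v)) = c • F (g * h) (e v)
    rw [hF, hF, hF]
    have h2 : T.op g (T.op h v) = c • T.op (g * h) v := by
      have := congrArg (fun Y : Module.End ℂ V => Y v) h1
      simpa using this
    rw [h2, map_smul]
  have hprod : ∀ g h, ∃ s t : ℂ, s ≠ 0 ∧ t ≠ 0 ∧ a0 g * a0 h = t • a0 (g * h) ∧
      Matrix.of (b g) * Matrix.of (b h) = s • Matrix.of (b (g * h)) := by
    intro g h
    obtain ⟨c, hc, h1⟩ := hFmul g h
    have h2 : ∀ i j, (Matrix.of (b g) * Matrix.of (b h)) i j • (a0 g * a0 h) =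
        (c * b (g * h) i j) • a0 (g * h) := by
      intro i j
      have h3 := congrArg (fun Y => blk Y i j) h1
      change blk (F g * F h) i j = blk (c • F (g * h)) i j at h3
      rw [blk_mul] at h3
      have h4 : blk (c • F (g * h)) i j = c • blk (F (g * h)) i j := rfl
      rw [h4, hb (g * h) i j, smul_smul] at h3
      rw [← h3, Matrix.mul_apply, Finset.sum_smul]
      apply Finset.sum_congr rfl
      intro k _
      rw [hb g i k, hb h k j, smul_mul_smul_comm]
      rfl
    set s := (Matrix.of (b g) * Matrix.of (b h)) (ij (g * h)).1 (ij (g * h)).2 with hs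
    have h3 := h2 (ij (g * h)).1 (ij (g * h)).2
    rw [hb1, mul_one, ← hs] at h3
    have hs0 : s ≠ 0 := by
      intro h0
      rw [h0, zero_smul] at h3
      exact smul_ne_zero hc (ha0ne (g * h)) h3.symm
    have h4 : a0 g * a0 h = (s⁻¹ * c) • a0 (g * h) := by
      rw [mul_smul, ← h3, smul_smul, inv_mul_cancel₀ hs0, one_smul]
    refine ⟨s, s⁻¹ * c, hs0, mul_ne_zero (inv_ne_zero hs0) hc, h4, ?_⟩
    ext i j
    have h5 := h2 i j
    rw [h4, smul_smul] at h5
    have h6 := smul_left_injective ℂ (ha0ne (g * h)) h5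
    rw [Matrix.smul_apply, Matrix.of_apply, smul_eq_mul]
    have h7 : (Matrix.of (b g) * Matrix.of (b h)) i j * (s⁻¹ * c) * (s * c⁻¹) =
        c * b (g * h) i j * (s * c⁻¹) := by rw [h6]
    have h8 : (Matrix.of (b g) * Matrix.of (b h)) i j * (s⁻¹ * c) * (s * c⁻¹) =
        (Matrix.of (b g) * Matrix.of (b h)) i j := by field_simp
    have h9 : c * b (g * h) i j * (s * c⁻¹) = s * b (g * h) i j := by field_simp
    rw [← h8, h7, h9]
  -- behaviour on N
  have hblkN : ∀ (n : N) (i j : Fin l), blk (F n) i j = if i = j then θ n else 0 := by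
    intro n i j
    refine LinearMap.ext (fun v => ?_)
    change e (T.op (n : G) (e.symm (Pi.single j v))) i = _
    rw [hsingle, e.apply_symm_apply]
    by_cases hij' : i = j
    · subst hij'
      rw [Pi.single_eq_same, if_pos rfl]
    · rw [Pi.single_eq_of_ne hij', if_neg hij']
      rfl
  have ha0N : ∀ n : N, a0 n = θ n := by
    intro n
    have h1 := hblkN n (ij n).1 (ij n).2
    have h2 : blk (F (n : G)) (ij (n : G)).1 (ij (n : G)).2 ≠ 0 := hij n
    by_cases h3 : (ij (n : G)).1 = (ij (n : G)).2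
    · rw [if_pos h3] at h1
      exact h1
    · rw [if_neg h3] at h1
      exact absurd h1 h2
  have hbN : ∀ n ∈ N, Matrix.of (b n) = 1 := by
    intro n hn
    ext i j
    have h1 := hblkN ⟨n, hn⟩ i j
    change blk (F n) i j = _ at h1
    rw [hb n i j, ← ha0N ⟨n, hn⟩] at h1
    change b n i j • a0 n = if i = j then a0 n else 0 at h1
    rw [Matrix.of_apply, Matrix.one_apply]
    by_cases hij' : i = j
    · rw [if_pos hij'] at h1 ⊢
      have h2 : b n i j • a0 n = (1 : ℂ) • a0 n := by rw [one_smul]; exact h1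
      exact smul_left_injective ℂ (ha0ne n) h2
    · rw [if_neg hij'] at h1 ⊢
      exact (smul_eq_zero.mp h1).resolve_right (ha0ne n)
  choose s t hs ht hat hbs using hprod
  obtain ⟨c1, hc1, hop1⟩ := T.op_one
  have ha1 : a0 1 = c1 • (1 : Module.End ℂ Θ) := by
    have h1 := ha0N ⟨1, N.one_mem⟩
    change a0 1 = θ ⟨1, N.one_mem⟩ at h1
    rw [h1]
    refine LinearMap.ext (fun v => ?_)
    apply Subtype.ext
    change T.op 1 (v : V) = c1 • (v : V)
    rw [hop1]
    rfl
  let aa : PRep G Θ := PRep.mkOf a0 t c1 ht hc1 ha1 hat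
  let BB : PRep G (Fin l → ℂ) := PRep.mkOf (fun g => Matrix.toLin' (Matrix.of (b g))) s 1 hs
    one_ne_zero (by
      rw [hbN 1 N.one_mem, Matrix.toLin'_one, one_smul]
      rfl) (by
      intro g h
      rw [← map_smul, ← hbs, Matrix.toLin'_mul]
      rfl)
  have hheq : ∀ g v i, e (T.op g v) i = ∑ j, Matrix.of (b g) i j • aa.op g (e v j) := by
    intro g v i
    rw [← hF, apply_eq_sum_blk]
    apply Finset.sum_congr rfl
    intro j _
    rw [hb g i j]
    rfl
  refine ⟨⟨l, Θ, aa, fun g => Matrix.of (b g), BB, fun g => rfl, e, hheq, ?_, ?_, hbN⟩⟩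
  · -- irreducibility on N
    refine IrrSet.mono ?_ hθirr
    rintro _ ⟨n, rfl⟩
    exact ⟨n, n.2, ha0N n⟩
  · -- irreducibility of the second factor
    have hlpos : 0 < l := Nat.pos_of_ne_zero hl.out
    have : Nonempty (Fin l) := ⟨⟨0, hlpos⟩⟩
    refine ⟨inferInstance, ?_⟩
    intro U hU
    let U' : Submodule ℂ V :=
      { carrier := {v | ∀ φ : Θ →ₗ[ℂ] ℂ, (fun i => φ (e v i)) ∈ U}
        add_mem' := by
          intro v w hv hw φ
          have := U.add_mem (hv φ) (hw φ)
          convert this using 1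
          funext i
          simp
        zero_mem' := by
          intro φ
          have : (fun i => φ (e 0 i)) = (0 : Fin l → ℂ) := by
            funext i
            simp
          rw [this]
          exact U.zero_mem
        smul_mem' := by
          intro c v hv φ
          have := U.smul_mem c (hv φ)
          convert this using 1
          funext i
          simp }
    have hU' := hT.2 U' (by
      rintro _ ⟨g, _, rfl⟩ v hv φ
      have h1 : (fun i => φ (e (T.op g v) i)) =
          Matrix.toLin' (Matrix.of (b g)) (fun i => (φ ∘ₗ aa.op g) (e v i)) := by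
        funext i
        rw [hheq, map_sum, Matrix.toLin'_apply, Matrix.mulVec, dotProduct]
        apply Finset.sum_congr rfl
        intro j _
        rw [map_smul, smul_eq_mul]
        rfl
      rw [h1]
      exact hU _ ⟨g, Set.mem_univ _, rfl⟩ _ (hv (φ ∘ₗ aa.op g)))
    obtain ⟨θ0, hθ0⟩ := exists_ne (0 : Θ)
    obtain ⟨φ, hφ⟩ : ∃ φ : Θ →ₗ[ℂ] ℂ, φ θ0 = 1 := by
      obtain ⟨φ, hφ⟩ := Module.Projective.exists_dual_eq_one ℂ hθ0
      exact ⟨φ, hφ⟩
    rcases hU' with h | h
    · left
      rw [eq_bot_iff]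
      intro w hw
      have h1 : e.symm (fun i => w i • θ0) ∈ U' := by
        intro ψ
        rw [e.apply_symm_apply]
        have h2 : (fun i => ψ (w i • θ0)) = ψ θ0 • w := by
          funext i
          rw [map_smul, Pi.smul_apply, smul_eq_mul, smul_eq_mul, mul_comm]
        rw [h2]
        exact U.smul_mem _ hw
      rw [h, Submodule.mem_bot, LinearEquiv.map_eq_zero_iff] at h1
      rw [Submodule.mem_bot]
      funext i
      have h2 := congrFun h1 i
      change w i • θ0 = 0 at h2
      exact (smul_eq_zero.mp h2).resolve_right hθ0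
    · right
      rw [eq_top_iff]
      intro w _
      have h1 : e.symm (fun i => w i • θ0) ∈ U' := by rw [h]; exact Submodule.mem_top
      have h2 := h1 φ
      rw [e.apply_symm_apply] at h2
      have h3 : (fun i => φ (w i • θ0)) = w := by
        funext i
        rw [map_smul, hφ, smul_eq_mul, mul_one]
      rwa [h3] at h2

end PRep

end Pool.Agent.H42.Wilde
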