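import Mathlib
import Pool.Agent.H42.Wilde.Tensor

/-!
The Clifford step in the reduction.
-/

namespace Pool.Agent.H42.Wilde

open Finset

namespace TDec

variable {G : Type*} [Group G] {V : Type*} [AddCommGroup V] [Module ℂ V] [FiniteDimensional ℂ V]
  {T : PRep G V} {N : Subgroup G} (D : TDec T N)

/-- The operator transported to the power. -/
noncomputable def F (g : G) : Module.End ℂ (Fin D.l → D.Θ) :=
  D.e.toLinearMap ∘ₗ T.op g ∘ₗ D.e.symm.toLinearMap

omit [FiniteDimensional ℂ V] in
theorem F_apply (g : G) (v : V) : D.F g (D.e v) = D.e (T.op g v) := by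
  change D.e (T.op g (D.e.symm (D.e v))) = _
  rw [D.e.symm_apply_apply]

omit [FiniteDimensional ℂ V] in
theorem blk_F (g : G) (i j : Fin D.l) : blk (D.F g) i j = D.b g i j • D.a.op g := by
  refine LinearMap.ext (fun v => ?_)
  change D.e (T.op g (D.e.symm (Pi.single j v))) i = _
  rw [D.he, D.e.apply_symm_apply, Finset.sum_eq_single j]
  · rw [Pi.single_eq_same]; rfl
  · intro k _ hk
    rw [Pi.single_eq_of_ne hk, map_zero, smul_zero]
  · intro h
    exact absurd (Finset.mem_univ j) h

omit [FiniteDimensional ℂ V] in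
theorem trace_F (X : Module.End ℂ V) :
    LinearMap.trace ℂ (Fin D.l → D.Θ) (D.e.toLinearMap ∘ₗ X ∘ₗ D.e.symm.toLinearMap) =
      LinearMap.trace ℂ V X := by
  exact LinearMap.trace_conj' X D.e

theorem trace_op (g : G) : LinearMap.trace ℂ V (T.op g) =
    LinearMap.trace ℂ (Fin D.l → ℂ) (D.B.op g) * LinearMap.trace ℂ D.Θ (D.a.op g) := by
  rw [← D.trace_F]
  change LinearMap.trace ℂ (Fin D.l → D.Θ) (D.F g) = _
  rw [trace_pi, D.hB, Matrix.trace_toLin'_eq, Matrix.trace, Finset.sum_mul]
  apply Finset.sum_congr rfl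
  intro i _
  rw [blk_F, map_smul, smul_eq_mul, Matrix.diag_apply]

theorem finrank_eq : Module.finrank ℂ V =
    Module.finrank ℂ (Fin D.l → ℂ) * Module.finrank ℂ D.Θ := by
  rw [D.e.finrank_eq, Module.finrank_pi_fintype, Module.finrank_fin_fun]
  simp

end TDec

namespace PRep

variable {G : Type*} [Group G] {V : Type*} [AddCommGroup V] [Module ℂ V] (T : PRep G V)

/-- Descend to a quotient by a normal subgroup acting by scalars. -/
noncomputable def descend (K : Subgroup G) [hKn : K.Normal]
    (hK : ∀ k ∈ K, ∃ c : ℂ, T.op k = c • (1 : Module.End ℂ V)) : PRep (G ⧸ K) V where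
  T q := T.T q.out
  mul' q r := by
    obtain ⟨c, hc⟩ := T.mul' q.out r.out
    have h1 : ((q * r).out)⁻¹ * (q.out * r.out) ∈ K := by
      rw [← QuotientGroup.eq, QuotientGroup.out_eq', QuotientGroup.mk_mul, QuotientGroup.out_eq',
        QuotientGroup.out_eq']
    obtain ⟨d, hd⟩ := hK _ h1
    by_cases hV : Nontrivial V
    · obtain ⟨e, _, he⟩ := T.exists_mul' (q * r).out (((q * r).out)⁻¹ * (q.out * r.out))
      rw [mul_inv_cancel_left, hd] at he
      refine ⟨c * e * d, ?_⟩
      rw [hc]
      change c • T.op (q.out * r.out) = _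
      rw [he, mul_smul_comm, mul_one, smul_smul, smul_smul]
      rfl
    · rw [not_nontrivial_iff_subsingleton] at hV
      exact ⟨0, Subsingleton.elim _ _⟩

theorem descend_op (K : Subgroup G) [hKn : K.Normal] [Nontrivial V]
    (hK : ∀ k ∈ K, ∃ c : ℂ, T.op k = c • (1 : Module.End ℂ V)) (g : G) :
    ∃ c : ℂ, c ≠ 0 ∧ (T.descend K hK).op (g : G ⧸ K) = c • T.op g := by
  have h1 : g⁻¹ * ((g : G ⧸ K)).out ∈ K := by
    rw [← QuotientGroup.eq, QuotientGroup.out_eq']
  obtain ⟨d, hd⟩ := hK _ h1
  obtain ⟨e, he0, he⟩ := T.exists_mul' g (g⁻¹ * ((g : G ⧸ K)).out)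
  rw [mul_inv_cancel_left, hd] at he
  have hd0 : d ≠ 0 := by
    rintro rfl
    rw [zero_smul] at hd
    exact T.op_ne_zero _ hd
  refine ⟨e * d, mul_ne_zero he0 hd0, ?_⟩
  change T.op ((g : G ⧸ K)).out = _
  rw [he, mul_smul_comm, mul_one, smul_smul]

theorem descend_irr (K : Subgroup G) [hKn : K.Normal]
    (hK : ∀ k ∈ K, ∃ c : ℂ, T.op k = c • (1 : Module.End ℂ V)) (hT : T.Irr) :
    (T.descend K hK).Irr := by
  have := hT.1
  refine ⟨hT.1, fun W hW => hT.2 W ?_⟩
  rintro _ ⟨g, _, rfl⟩ v hv
  obtain ⟨c, hc, h1⟩ := T.descend_op K hK g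
  have h2 := hW _ ⟨(g : G ⧸ K), Set.mem_univ _, rfl⟩ v hv
  rw [h1, LinearMap.smul_apply] at h2
  exact (Submodule.smul_mem_iff W hc).mp h2

theorem comap_irrOn (N H : Subgroup G) (hNH : N ≤ H) (hT : T.IrrOn N) :
    (T.comap H.subtype).IrrOn (N.subgroupOf H) := by
  refine ⟨hT.1, fun W hW => hT.2 W ?_⟩
  rintro _ ⟨n, hn, rfl⟩ v hv
  exact hW _ ⟨⟨n, hNH hn⟩, hn, rfl⟩ v hv

end PRep

universe u

/-- The conjectured inequality at `p` for all projective representations of `G`. -/
def PP (p : ℕ) (G : Type u) [Group G] : Prop :=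
  ∀ (V : Type) [AddCommGroup V] [Module ℂ V] [FiniteDimensional ℂ V] (T : PRep G V), T.Irr →
    ∀ x : G, LinearMap.trace ℂ V (T.op x) ≠ 0 →
      (orderOf x).factorization p + (Module.finrank ℂ V).factorization p ≤
        (Nat.card G).factorization p

section

variable {G : Type u} [Group G] [Finite G]

theorem factorization_orderOf_le (p : ℕ) (K : Subgroup G) [K.Normal] (x : G) :
    (orderOf x).factorization p ≤
      (orderOf (x : G ⧸ K)).factorization p + (Nat.card K).factorization p := by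
  have h1 : orderOf x ∣ orderOf (x : G ⧸ K) * Nat.card K := by
    rw [orderOf_dvd_iff_pow_eq_one, pow_mul]
    have h2 : x ^ orderOf (x : G ⧸ K) ∈ K := by
      rw [← QuotientGroup.eq_one_iff, QuotientGroup.mk_pow, pow_orderOf_eq_one]
    have h3 := pow_card_eq_one' (x := (⟨_, h2⟩ : K))
    exact congrArg Subtype.val h3
  have hx0 : orderOf x ≠ 0 := (orderOf_pos x).ne'
  have hx0' : orderOf (x : G ⧸ K) ≠ 0 := (orderOf_pos _).ne'
  have hK0 : Nat.card K ≠ 0 := Nat.card_pos.ne'
  have h2 := (Nat.factorization_le_iff_dvd hx0 (mul_ne_zero hx0' hK0)).mpr h1 p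
  rwa [Nat.factorization_mul hx0' hK0] at h2

theorem factorization_card_quotient (p : ℕ) (K : Subgroup G) [K.Normal] :
    (Nat.card G).factorization p =
      (Nat.card (G ⧸ K)).factorization p + (Nat.card K).factorization p := by
  rw [Subgroup.card_eq_card_quotient_mul_card_subgroup K,
    Nat.factorization_mul Nat.card_pos.ne' Nat.card_pos.ne']
  rfl

/-- The quotient step. -/
theorem quotient_step {p : ℕ} {V : Type} [AddCommGroup V] [Module ℂ V] [FiniteDimensional ℂ V]
    (T : PRep G V) (hT : T.Irr) (K : Subgroup G) [K.Normal]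
    (hK : ∀ k ∈ K, ∃ c : ℂ, T.op k = c • (1 : Module.End ℂ V)) (hQ : PP p (G ⧸ K)) (x : G)
    (hx : LinearMap.trace ℂ V (T.op x) ≠ 0) :
    (orderOf x).factorization p + (Module.finrank ℂ V).factorization p ≤
      (Nat.card G).factorization p := by
  have := hT.1
  obtain ⟨c, hc, h1⟩ := T.descend_op K hK x
  have h2 := hQ V (T.descend K hK) (T.descend_irr K hK hT) (x : G ⧸ K) (by
    rw [h1, map_smul, smul_eq_mul]
    exact mul_ne_zero hc hx)
  have h3 := factorization_orderOf_le p K x
  have h4 := factorization_card_quotient p K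
  omega

theorem card_sup_zpowers (N : Subgroup G) [N.Normal] (x : G) :
    Nat.card (N ⊔ Subgroup.zpowers x : Subgroup G) = Nat.card N * orderOf (x : G ⧸ N) := by
  have h1 : (Subgroup.zpowers (x : G ⧸ N)).comap (QuotientGroup.mk' N) =
      N ⊔ Subgroup.zpowers x := by
    rw [← QuotientGroup.comap_map_mk' N (Subgroup.zpowers x), MonoidHom.map_zpowers]
    rfl
  have h2 := Subgroup.index_comap_of_surjective (Subgroup.zpowers (x : G ⧸ N))
    (QuotientGroup.mk'_surjective N)
  rw [h1] at h2
  have h3 := Subgroup.card_mul_index (N ⊔ Subgroup.zpowers x)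
  have h4 := Subgroup.card_mul_index (Subgroup.zpowers (x : G ⧸ N))
  have h5 := Subgroup.card_eq_card_quotient_mul_card_subgroup N
  rw [Nat.card_zpowers] at h4
  rw [h2] at h3
  have hpos : 0 < (Subgroup.zpowers (x : G ⧸ N)).index := Subgroup.index_ne_zero_of_finite.bot_lt
  apply Nat.eq_of_mul_eq_mul_right hpos
  rw [h3, h5, ← h4]
  ring

/-- The Clifford step. -/
theorem clifford_step {p : ℕ} {V : Type} [AddCommGroup V] [Module ℂ V] [FiniteDimensional ℂ V]
    (T : PRep G V) (hT : T.Irr) (N : Subgroup G) [N.Normal] (x : G)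
    (hx : LinearMap.trace ℂ V (T.op x) ≠ 0)
    (hsub : ∀ H : Subgroup G, H ≠ ⊤ → PP p H) (hquo : PP p (G ⧸ N))
    (hbase : ∀ (Θ : Type) [AddCommGroup Θ] [Module ℂ Θ] [FiniteDimensional ℂ Θ] (a : PRep G Θ),
      a.IrrOn N → N ⊔ Subgroup.zpowers x = ⊤ → LinearMap.trace ℂ Θ (a.op x) ≠ 0 →
      (orderOf x).factorization p + (Module.finrank ℂ Θ).factorization p ≤
        (Nat.card G).factorization p) :
    (orderOf x).factorization p + (Module.finrank ℂ V).factorization p ≤
      (Nat.card G).factorization p := by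
  have hNt := hT.1
  have hcardG : Nat.card G ≠ 0 := Nat.card_pos.ne'
  rcases T.isotypic_or_imprimitive hT N x hx with hiso | ⟨H, W, T', hxH, k, hk, hT', hx', hcard, hdim⟩
  · -- isotypic
    obtain ⟨D⟩ := T.exists_tdec hT N hiso
    have htr := D.trace_op x
    rw [htr] at hx
    have hBx := left_ne_zero_of_mul hx
    have hax := right_ne_zero_of_mul hx
    have hΘirr : D.a.Irr := D.hΘ.irr
    have hΘnt := hΘirr.1
    have hBnt := D.hBirr.1
    -- second factor
    have hK : ∀ n ∈ N, ∃ c : ℂ, D.B.op n = c • (1 : Module.End ℂ (Fin D.l → ℂ)) := by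
      intro n hn
      refine ⟨1, ?_⟩
      rw [D.hB, D.hN n hn, Matrix.toLin'_one, one_smul]
      rfl
    obtain ⟨c, hc, h1⟩ := D.B.descend_op N hK x
    have h2 := hquo _ (D.B.descend N hK) (D.B.descend_irr N hK D.hBirr) (x : G ⧸ N) (by
      rw [h1, map_smul, smul_eq_mul]
      exact mul_ne_zero hc hBx)
    -- first factor
    have h3 : (orderOf x).factorization p + (Module.finrank ℂ D.Θ).factorization p ≤
        (Nat.card N).factorization p + (orderOf (x : G ⧸ N)).factorization p := by
      have h4 : (Nat.card (N ⊔ Subgroup.zpowers x : Subgroup G)).factorization p =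
          (Nat.card N).factorization p + (orderOf (x : G ⧸ N)).factorization p := by
        rw [card_sup_zpowers, Nat.factorization_mul Nat.card_pos.ne' (orderOf_pos _).ne']
        rfl
      by_cases hH : N ⊔ Subgroup.zpowers x = ⊤
      · have h5 := hbase D.Θ D.a D.hΘ hH hax
        rw [← h4, hH, Subgroup.card_top]
        exact h5
      · have hxH : x ∈ N ⊔ Subgroup.zpowers x :=
          (le_sup_right : Subgroup.zpowers x ≤ N ⊔ Subgroup.zpowers x) (Subgroup.mem_zpowers x)
        have h5 := hsub _ hH D.Θ (D.a.comap (N ⊔ Subgroup.zpowers x).subtype)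
          (D.a.comap_irrOn N _ le_sup_left D.hΘ).irr ⟨x, hxH⟩ hax
        rw [Subgroup.orderOf_mk, h4] at h5
        exact h5
    have h4 := factorization_card_quotient p N
    have h5 : (Module.finrank ℂ V).factorization p =
        (Module.finrank ℂ (Fin D.l → ℂ)).factorization p +
          (Module.finrank ℂ D.Θ).factorization p := by
      rw [D.finrank_eq, Nat.factorization_mul Module.finrank_pos.ne' Module.finrank_pos.ne']
      rfl
    omega
  · -- imprimitive
    have hWnt := hT'.1
    have hH : H ≠ ⊤ := by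
      rintro rfl
      rw [Subgroup.card_top] at hcard
      have h1 : 0 < Nat.card G := Nat.card_pos
      nlinarith
    have h1 := hsub H hH W T' hT' ⟨x, hxH⟩ hx'
    rw [Subgroup.orderOf_mk] at h1
    have hk0 : k ≠ 0 := by omega
    rw [hcard, hdim, Nat.factorization_mul hk0 Nat.card_pos.ne',
      Nat.factorization_mul hk0 Module.finrank_pos.ne']
    simp only [Finsupp.add_apply]
    omega

end

end Pool.Agent.H42.Wilde
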