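import Mathlib
import Pool.Agent.H42.Wilde.Clifford

/-!
The trace lemma: an element permuting commuting factors cyclically has nonzero trace only if its
power stabilising the first factor has nonzero trace there.
-/

namespace Pool.Agent.H42.Wilde

open Finset

namespace PRep

variable {G : Type*} [Group G] {V : Type*} [AddCommGroup V] [Module ℂ V] (T : PRep G V)

/-- If every linear character of `S` is trivial, an element centralising `S` commutes with the
operators of `S`. -/
theorem commute_of_perfect [Nontrivial V] (S : Subgroup G)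
    (hS : ∀ f : S →* ℂˣ, f = 1) (c : G) (hc : ∀ s ∈ S, c * s = s * c) (s : G) (hs : s ∈ S) :
    T.op c * T.op s = T.op s * T.op c := by
  have h1 : ∀ s : S, ∃ k : ℂˣ, T.op c * T.op s * T.iop c = (k : ℂ) • T.op s := by
    intro s
    obtain ⟨d, hd, h⟩ := T.conj_op c s
    have h2 : c * s * c⁻¹ = s := by rw [hc s s.2, mul_inv_cancel_right]
    rw [h2] at h
    exact ⟨Units.mk0 d hd, h⟩
  choose k hk using h1
  have hmul : ∀ s t : S, k (s * t) = k s * k t := by
    intro s t
    obtain ⟨e, he, h⟩ := T.exists_mul (s : G) (t : G)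
    have h2 : (T.op c * T.op s * T.iop c) * (T.op c * T.op t * T.iop c) =
        e • (T.op c * T.op ((s : G) * t) * T.iop c) := by
      calc (T.op c * T.op s * T.iop c) * (T.op c * T.op t * T.iop c)
          = T.op c * T.op s * (T.iop c * T.op c) * T.op t * T.iop c := by simp only [mul_assoc]
        _ = T.op c * (T.op s * T.op t) * T.iop c := by
          rw [iop_mul_op, mul_one]; simp only [mul_assoc]
        _ = _ := by rw [h, mul_smul_comm, smul_mul_assoc]
    have h3 : T.op c * T.op ((s : G) * t) * T.iop c = (k (s * t) : ℂ) • T.op ((s : G) * t) :=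
      hk (s * t)
    rw [hk s, hk t, h3, smul_mul_smul_comm, h, smul_smul, smul_smul] at h2
    have h4 := smul_left_injective ℂ (T.op_ne_zero ((s : G) * t)) h2
    apply Units.ext
    rw [Units.val_mul]
    have h5 : (k s : ℂ) * (k t : ℂ) * e = e * (k (s * t) : ℂ) := h4
    have h6 : e * ((k (s * t) : ℂ) - (k s : ℂ) * (k t : ℂ)) = 0 := by
      rw [mul_sub, ← h5]; ring
    exact sub_eq_zero.mp ((mul_eq_zero.mp h6).resolve_left he)
  let f : S →* ℂˣ := MonoidHom.mk' k hmul
  have hf := hS f
  have h2 : k ⟨s, hs⟩ = 1 := by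
    have := congrArg (fun f : S →* ℂˣ => f ⟨s, hs⟩) hf
    exact this
  have h3 := hk ⟨s, hs⟩
  rw [h2, Units.val_one, one_smul] at h3
  have h4 := congrArg (fun Y => Y * T.op c) h3
  simp only [mul_assoc, iop_mul_op, mul_one] at h4
  exact h4

end PRep

section

variable {Θ : Type*} [AddCommGroup Θ] [Module ℂ Θ] {l : ℕ}

theorem ptr_mul_comm_of_scalar (X Y : Module.End ℂ (Fin l → Θ))
    (hY : ∀ i j, ∃ d : ℂ, blk Y i j = d • (1 : Module.End ℂ Θ)) : ptr (X * Y) = ptr (Y * X) := by
  choose d hd using hY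
  rw [ptr, ptr]
  simp_rw [blk_mul, hd, mul_smul_comm, mul_one, smul_mul_assoc, one_mul]
  rw [Finset.sum_comm]

theorem ptr_diag_mul (X Y : Module.End ℂ (Fin l → Θ)) (a : Module.End ℂ Θ)
    (hY : ∀ i j, blk Y i j = if i = j then a else 0) : ptr (Y * X) = a * ptr X := by
  rw [ptr, ptr, Finset.mul_sum]
  apply Finset.sum_congr rfl
  intro i _
  rw [blk_mul, Finset.sum_eq_single i]
  · rw [hY, if_pos rfl]
  · intro k _ hk
    rw [hY, if_neg (Ne.symm hk), zero_mul]
  · intro h
    exact absurd (Finset.mem_univ i) h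

theorem ptr_mul_diag (X Y : Module.End ℂ (Fin l → Θ)) (a : Module.End ℂ Θ)
    (hY : ∀ i j, blk Y i j = if i = j then a else 0) : ptr (X * Y) = ptr X * a := by
  rw [ptr, ptr, Finset.sum_mul]
  apply Finset.sum_congr rfl
  intro i _
  rw [blk_mul, Finset.sum_eq_single i]
  · rw [hY, if_pos rfl]
  · intro k _ hk
    rw [hY, if_neg hk, mul_zero]
  · intro h
    exact absurd (Finset.mem_univ i) h

end

/-- The trace lemma. -/
theorem trace_lemma {G : Type*} [Group G] {V : Type*} [AddCommGroup V] [Module ℂ V]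
    [FiniteDimensional ℂ V] [Nontrivial V] (T : PRep G V) (H S : Subgroup G) (hSH : S ≤ H)
    (hS : ∀ f : S →* ℂˣ, f = 1)
    (D : TDec (T.comap H.subtype) (S.subgroupOf H)) (x : G) (k : ℕ) (hk : 0 < k)
    (hxk : x ^ k ∈ H)
    (hcomm : ∀ j : ℕ, 0 < j → j < k → ∀ s ∈ S, ∀ t ∈ S,
      (x ^ j)⁻¹ * s * x ^ j * t = t * ((x ^ j)⁻¹ * s * x ^ j))
    (hx : LinearMap.trace ℂ V (T.op x) ≠ 0) :
    LinearMap.trace ℂ D.Θ (D.a.op ⟨x ^ k, hxk⟩) ≠ 0 := by
  classical
  have hΘnt : Nontrivial D.Θ := D.hΘ.1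
  -- transport of operators
  let tr' : Module.End ℂ V →ₐ[ℂ] Module.End ℂ (Fin D.l → D.Θ) :=
    (D.e.conjAlgEquiv ℂ : Module.End ℂ V ≃ₐ[ℂ] Module.End ℂ (Fin D.l → D.Θ)).toAlgHom
  have htr' : ∀ Y : Module.End ℂ V, tr' Y = D.e.toLinearMap ∘ₗ Y ∘ₗ D.e.symm.toLinearMap := by
    intro Y
    rfl
  have htrF : ∀ h : H, tr' (T.op (h : G)) = D.F h := fun h => htr' _
  -- diagonal action of S
  have hdiag : ∀ (s : G) (hs : s ∈ S) (i j : Fin D.l),
      blk (tr' (T.op s)) i j = if i = j then D.a.op ⟨s, hSH hs⟩ else 0 := by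
    intro s hs i j
    have h1 := D.blk_F ⟨s, hSH hs⟩ i j
    rw [D.hN ⟨s, hSH hs⟩ hs] at h1
    rw [htrF ⟨s, hSH hs⟩, h1, Matrix.one_apply]
    split_ifs
    · rw [one_smul]
    · rw [zero_smul]
  set X := tr' (T.op x) with hX
  set C0 := ptr X with hC0
  set a' := D.a.op ⟨x ^ k, hxk⟩ with ha'
  set ia := D.a.iop ⟨x ^ k, hxk⟩ with hia
  have haia : a' * ia = 1 := D.a.op_mul_iop _
  have hiaa : ia * a' = 1 := D.a.iop_mul_op _
  -- the intertwining property
  have key : ∀ (s : G) (hs : s ∈ S), D.a.op ⟨s, hSH hs⟩ * C0 =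
      C0 * (ia * D.a.op ⟨s, hSH hs⟩ * a') := by
    intro s hs
    let Y : ℕ → Module.End ℂ V := fun j => T.iop x ^ j * T.op s * T.op x ^ j
    have hY0 : Y 0 = T.op s := by simp [Y]
    have hYsucc : ∀ j, T.op x * Y (j + 1) = Y j * T.op x := by
      intro j
      simp only [Y]
      rw [pow_succ' (T.iop x), pow_succ (T.op x)]
      calc T.op x * (T.iop x * T.iop x ^ j * T.op s * (T.op x ^ j * T.op x))
          = (T.op x * T.iop x) * T.iop x ^ j * T.op s * T.op x ^ j * T.op x := by
            simp only [mul_assoc]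
        _ = _ := by rw [PRep.op_mul_iop, one_mul]
    -- intermediate operators are scalar blocks
    have hYscal : ∀ j, 0 < j → j < k → ∀ i i', ∃ d : ℂ,
        blk (tr' (Y j)) i i' = d • (1 : Module.End ℂ D.Θ) := by
      intro j hj0 hjk i i'
      -- Y j is a multiple of the operator of x^{-j} s x^j
      have hYj : ∃ d : ℂ, Y j = d • T.op ((x ^ j)⁻¹ * s * x ^ j) := by
        obtain ⟨c, hc, h1⟩ := T.exists_pow x j
        have h2 : T.iop x ^ j = c⁻¹ • T.iop (x ^ j) := by
          have h3 : T.iop x ^ j * T.op x ^ j = 1 := by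
            have hcm : Commute (T.iop x) (T.op x) := by
              unfold Commute SemiconjBy
              rw [PRep.iop_mul_op, PRep.op_mul_iop]
            rw [← hcm.mul_pow, PRep.iop_mul_op, one_pow]
          rw [h1] at h3
          have h4 := congrArg (fun Z => Z * T.iop (x ^ j)) h3
          simp only [mul_smul_comm, smul_mul_assoc, mul_assoc, PRep.op_mul_iop, mul_one,
            one_mul] at h4
          rw [← h4, smul_smul, inv_mul_cancel₀ hc, one_smul]
        obtain ⟨d, hd, h5⟩ := T.iop_eq (x ^ j)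
        obtain ⟨e1, _, h6⟩ := T.exists_mul (x ^ j)⁻¹ s
        obtain ⟨e2, _, h7⟩ := T.exists_mul ((x ^ j)⁻¹ * s) (x ^ j)
        refine ⟨c⁻¹ * d * e1 * c * e2, ?_⟩
        simp only [Y]
        rw [h2, h1, h5, smul_smul, smul_mul_assoc, h6, smul_smul, smul_mul_smul_comm, h7, smul_smul]
      obtain ⟨d, hd⟩ := hYj
      have hYcomm : ∀ t ∈ S, T.op t * Y j = Y j * T.op t := by
        intro t ht
        have h1 := T.commute_of_perfect S hS ((x ^ j)⁻¹ * s * x ^ j)
          (fun t ht => hcomm j hj0 hjk s hs t ht) t ht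
        rw [hd, mul_smul_comm, smul_mul_assoc, h1]
      apply D.hΘ.schur
      rintro ⟨t, htH⟩ ht
      have ht' : t ∈ S := ht
      have h1 := congrArg tr' (hYcomm t ht')
      rw [map_mul tr' (T.op t) (Y j), map_mul tr' (Y j) (T.op t)] at h1
      have h2 := congrArg (fun Z => blk Z i i') h1
      simp only [blk_mul] at h2
      rw [Finset.sum_eq_single i, Finset.sum_eq_single i'] at h2
      · rw [hdiag t ht', hdiag t ht', if_pos rfl, if_pos rfl] at h2
        exact h2
      · intro m _ hm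
        rw [hdiag t ht', if_neg hm, mul_zero]
      · intro h; exact absurd (Finset.mem_univ _) h
      · intro m _ hm
        rw [hdiag t ht', if_neg (Ne.symm hm), zero_mul]
      · intro h; exact absurd (Finset.mem_univ _) h
    -- moving around the cycle
    have hcyc : ∀ j, j < k → ptr (tr' (Y 0) * X) = ptr (X * tr' (Y (j + 1))) := by
      intro j
      induction j with
      | zero =>
        intro _
        rw [hX, ← map_mul, ← map_mul, hYsucc]
      | succ j ih =>
        intro hj
        rw [ih (by omega), ptr_mul_comm_of_scalar _ _ (hYscal (j + 1) (by omega) hj), hX,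
          ← map_mul, ← map_mul, hYsucc]
    have h1 := hcyc (k - 1) (by omega)
    rw [show k - 1 + 1 = k by omega] at h1
    rw [hY0, ptr_diag_mul X _ _ (hdiag s hs)] at h1
    -- the last operator
    have hYk : ∀ i j, blk (tr' (Y k)) i j =
        if i = j then ia * D.a.op ⟨s, hSH hs⟩ * a' else 0 := by
      let Z : Module.End ℂ (Fin D.l → D.Θ) :=
        LinearMap.pi (fun i => (ia * D.a.op ⟨s, hSH hs⟩ * a') ∘ₗ LinearMap.proj i)
      have hZ : ∀ i j, blk Z i j = if i = j then ia * D.a.op ⟨s, hSH hs⟩ * a' else 0 := by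
        intro i j
        refine LinearMap.ext (fun v => ?_)
        change (ia * D.a.op ⟨s, hSH hs⟩ * a') ((Pi.single j v : Fin D.l → D.Θ) i) = _
        by_cases hij : i = j
        · subst hij
          rw [Pi.single_eq_same, if_pos rfl]
        · rw [Pi.single_eq_of_ne hij, map_zero, if_neg hij]
          rfl
      have h2 : tr' (T.op (x ^ k)) * Z = tr' (T.op s) * tr' (T.op (x ^ k)) := by
        apply ext_blk
        intro i j
        have hF := htrF ⟨x ^ k, hxk⟩
        change tr' (T.op (x ^ k)) = _ at hF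
        rw [hF, blk_mul, blk_mul, Finset.sum_eq_single j, Finset.sum_eq_single i]
        · rw [hZ, if_pos rfl, hdiag s hs, if_pos rfl, D.blk_F, ← ha', smul_mul_assoc,
            mul_smul_comm]
          congr 1
          rw [← mul_assoc, ← mul_assoc, haia, one_mul]
        · intro m _ hm
          rw [hdiag s hs, if_neg (Ne.symm hm), zero_mul]
        · intro h; exact absurd (Finset.mem_univ _) h
        · intro m _ hm
          rw [hZ, if_neg hm, mul_zero]
        · intro h; exact absurd (Finset.mem_univ _) h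
      have h3 : tr' (T.op (x ^ k)) * tr' (Y k) = tr' (T.op s) * tr' (T.op (x ^ k)) := by
        rw [← map_mul, ← map_mul]
        congr 1
        obtain ⟨c, hc, h4⟩ := T.exists_pow x k
        have h5 : T.op (x ^ k) = c⁻¹ • T.op x ^ k := by
          rw [h4, smul_smul, inv_mul_cancel₀ hc, one_smul]
        have hcm : Commute (T.op x) (T.iop x) := by
          unfold Commute SemiconjBy
          rw [PRep.iop_mul_op, PRep.op_mul_iop]
        rw [h5, smul_mul_assoc, mul_smul_comm]
        congr 1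
        simp only [Y]
        rw [← mul_assoc, ← mul_assoc, ← hcm.mul_pow, PRep.op_mul_iop, one_pow, one_mul]
      have h6 : tr' (Y k) = Z := by
        have h7 : tr' (T.iop (x ^ k)) * tr' (T.op (x ^ k)) = 1 := by
          rw [← map_mul, PRep.iop_mul_op, map_one]
        calc tr' (Y k) = tr' (T.iop (x ^ k)) * (tr' (T.op (x ^ k)) * tr' (Y k)) := by
              rw [← mul_assoc, h7, one_mul]
          _ = tr' (T.iop (x ^ k)) * (tr' (T.op (x ^ k)) * Z) := by rw [h3, h2]
          _ = Z := by rw [← mul_assoc, h7, one_mul]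
      intro i j
      rw [h6]
      exact hZ i j
    rw [ptr_mul_diag X _ _ hYk] at h1
    exact h1
  -- Schur
  obtain ⟨c, hc⟩ := D.hΘ.schur (C0 * ia) (by
    rintro ⟨s, hsH⟩ hs
    have hs' : s ∈ S := hs
    have h1 := key s hs'
    calc D.a.op ⟨s, hsH⟩ * (C0 * ia) = (D.a.op ⟨s, hsH⟩ * C0) * ia := by rw [mul_assoc]
      _ = (C0 * (ia * D.a.op ⟨s, hsH⟩ * a')) * ia := by rw [h1]
      _ = C0 * ia * D.a.op ⟨s, hsH⟩ * (a' * ia) := by simp only [mul_assoc]
      _ = C0 * ia * D.a.op ⟨s, hsH⟩ := by rw [haia, mul_one])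
  have hC0' : C0 = c • a' := by
    calc C0 = (C0 * ia) * a' := by rw [mul_assoc, hiaa, mul_one]
      _ = c • a' := by rw [hc, smul_mul_assoc, one_mul]
  intro h0
  apply hx
  rw [← D.trace_F (T.op x)]
  change LinearMap.trace ℂ (Fin D.l → D.Θ) X = 0
  rw [trace_ptr, ← hC0, hC0', map_smul, h0, smul_zero]

end Pool.Agent.H42.Wilde
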