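import Mathlib
import Pool.Agent.H42.Wilde.TraceLemma

/-!
Minimal normal subgroups: elementary facts about their structure.
-/

namespace Pool.Agent.H42.Wilde

/-- A minimal normal subgroup. -/
structure IsMinNormal {G : Type*} [Group G] (N : Subgroup G) : Prop where
  normal : N.Normal
  ne_bot : N ≠ ⊥
  minimal : ∀ M : Subgroup G, M.Normal → M ≤ N → M ≠ ⊥ → M = N

section

variable {G : Type*} [Group G]

theorem exists_isMinNormal [Finite G] [Nontrivial G] : ∃ N : Subgroup G, IsMinNormal N := by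
  have hfin : {N : Subgroup G | N.Normal ∧ N ≠ ⊥}.Finite := Set.toFinite _
  have hne : {N : Subgroup G | N.Normal ∧ N ≠ ⊥}.Nonempty :=
    ⟨⊤, inferInstance, top_ne_bot⟩
  obtain ⟨N, hN⟩ := hfin.exists_minimal hne
  refine ⟨N, hN.1.1, hN.1.2, ?_⟩
  intro M hM hle hbot
  exact le_antisymm hle (hN.2 ⟨hM, hbot⟩ hle)

/-- An abelian minimal normal subgroup has prime exponent. -/
theorem IsMinNormal.exists_prime [Finite G] {N : Subgroup G} (hN : IsMinNormal N)
    (hab : ∀ a ∈ N, ∀ b ∈ N, a * b = b * a) : ∃ r : ℕ, r.Prime ∧ ∀ n ∈ N, n ^ r = 1 := by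
  have hNn := hN.normal
  have hcard : Nat.card N ≠ 1 := by
    intro h
    exact hN.ne_bot (Subgroup.card_eq_one.mp h)
  obtain ⟨r, hr, hdvd⟩ := Nat.exists_prime_and_dvd hcard
  have : Fact r.Prime := ⟨hr⟩
  obtain ⟨g, hg⟩ := exists_prime_orderOf_dvd_card' r hdvd
  refine ⟨r, hr, ?_⟩
  let M : Subgroup G :=
    { carrier := {n | n ∈ N ∧ n ^ r = 1}
      mul_mem' := by
        rintro a b ⟨ha, ha'⟩ ⟨hb, hb'⟩
        refine ⟨N.mul_mem ha hb, ?_⟩
        have hc : Commute a b := hab a ha b hb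
        rw [hc.mul_pow, ha', hb', one_mul]
      one_mem' := ⟨N.one_mem, one_pow r⟩
      inv_mem' := by
        rintro a ⟨ha, ha'⟩
        refine ⟨N.inv_mem ha, ?_⟩
        rw [inv_pow, ha', inv_one] }
  have hM : M = N := by
    apply hN.minimal M
    · refine ⟨?_⟩
      rintro n ⟨hn, hn'⟩ g
      refine ⟨hNn.conj_mem n hn g, ?_⟩
      rw [conj_pow, hn', mul_one, mul_inv_cancel]
    · intro n hn
      exact hn.1
    · intro h
      have h1 : (g : G) ∈ M := by
        refine ⟨g.2, ?_⟩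
        have h2 : g ^ r = 1 := by rw [← hg, pow_orderOf_eq_one]
        exact congrArg Subtype.val h2
      rw [h, Subgroup.mem_bot] at h1
      have h2 : g = 1 := Subtype.ext h1
      rw [h2, orderOf_one] at hg
      exact hr.one_lt.ne hg
  intro n hn
  rw [← hM] at hn
  exact hn.2

/-- A perfect subgroup has no nontrivial linear character. -/
theorem eq_one_of_commutator_eq {N : Subgroup G} (h1 : ⁅N, N⁆ = N) {A : Type*} [CommGroup A]
    (f : N →* A) : f = 1 := by
  have h2 : ⁅N, N⁆ ≤ f.ker.map N.subtype := by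
    rw [Subgroup.commutator_le]
    intro a ha b hb
    refine ⟨(⟨a, ha⟩ : N) * ⟨b, hb⟩ * (⟨a, ha⟩ : N)⁻¹ * (⟨b, hb⟩ : N)⁻¹, ?_, rfl⟩
    change f _ = 1
    rw [map_mul, map_mul, map_mul, map_inv, map_inv, mul_comm (f ⟨a, ha⟩), mul_inv_cancel_right,
      mul_inv_cancel]
  rw [h1] at h2
  ext ⟨n, hn⟩
  obtain ⟨m, hm, h3⟩ := h2 hn
  have h4 : m = ⟨n, hn⟩ := Subtype.ext h3
  rw [← h4]
  exact hm

/-- A nonabelian minimal normal subgroup has no nontrivial linear character. -/
theorem IsMinNormal.perfect {N : Subgroup G} (hN : IsMinNormal N)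
    (hab : ¬ ∀ a ∈ N, ∀ b ∈ N, a * b = b * a) {A : Type*} [CommGroup A] (f : N →* A) : f = 1 := by
  have hNn := hN.normal
  have h1 : ⁅N, N⁆ = N := by
    apply hN.minimal
    · exact Subgroup.commutator_normal N N
    · exact Subgroup.commutator_le_left N N
    · intro h
      apply hab
      rw [Subgroup.commutator_eq_bot_iff_le_centralizer] at h
      intro a ha b hb
      exact (Subgroup.mem_centralizer_iff.mp (h ha) b hb).symm
  exact eq_one_of_commutator_eq h1 f

end

/-- A minimal nontrivial subgroup of `N` normalised by `N`. -/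
structure IsMinInv {G : Type*} [Group G] (N S : Subgroup G) : Prop where
  ne_bot : S ≠ ⊥
  le : S ≤ N
  conj : ∀ n ∈ N, ∀ s ∈ S, n * s * n⁻¹ ∈ S
  minimal : ∀ M : Subgroup G, M ≠ ⊥ → M ≤ S → (∀ n ∈ N, ∀ s ∈ M, n * s * n⁻¹ ∈ M) → M = S

section

variable {G : Type*} [Group G]

theorem exists_isMinInv [Finite G] (N : Subgroup G) (hN : N ≠ ⊥) :
    ∃ S : Subgroup G, IsMinInv N S := by
  let P : Set (Subgroup G) := {S | S ≠ ⊥ ∧ S ≤ N ∧ ∀ n ∈ N, ∀ s ∈ S, n * s * n⁻¹ ∈ S}
  have hfin : P.Finite := Set.toFinite _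
  have hne : P.Nonempty :=
    ⟨N, hN, le_rfl, fun n hn s hs => N.mul_mem (N.mul_mem hn hs) (N.inv_mem hn)⟩
  obtain ⟨S, hS⟩ := hfin.exists_minimal hne
  refine ⟨S, hS.1.1, hS.1.2.1, hS.1.2.2, ?_⟩
  intro M hM hle hinv
  exact le_antisymm hle (hS.2 ⟨hM, hle.trans hS.1.2.1, hinv⟩ hle)

/-- Conjugates of a minimal invariant subgroup are equal to it or commute with it. -/
theorem IsMinInv.conj_dichotomy [Finite G] {N S : Subgroup G} [hNn : N.Normal]
    (hS : IsMinInv N S) (g : G) :
    g ∈ Subgroup.normalizer (S : Set G) ∨ ∀ s ∈ S, ∀ t ∈ S, g * s * g⁻¹ * t = t * (g * s * g⁻¹) := by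
  let K : Subgroup G :=
    { carrier := {t | t ∈ S ∧ g⁻¹ * t * g ∈ S}
      mul_mem' := by
        rintro a b ⟨ha, ha'⟩ ⟨hb, hb'⟩
        refine ⟨S.mul_mem ha hb, ?_⟩
        have : g⁻¹ * (a * b) * g = (g⁻¹ * a * g) * (g⁻¹ * b * g) := by group
        rw [this]
        exact S.mul_mem ha' hb'
      one_mem' := ⟨S.one_mem, by simp⟩
      inv_mem' := by
        rintro a ⟨ha, ha'⟩
        refine ⟨S.inv_mem ha, ?_⟩
        have : g⁻¹ * a⁻¹ * g = (g⁻¹ * a * g)⁻¹ := by group
        rw [this]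
        exact S.inv_mem ha' }
  have hKS : K ≤ S := fun t ht => ht.1
  have hKinv : ∀ n ∈ N, ∀ s ∈ K, n * s * n⁻¹ ∈ K := by
    rintro n hn s ⟨hs, hs'⟩
    refine ⟨hS.conj n hn s hs, ?_⟩
    have h1 : g⁻¹ * n * g ∈ N := by
      have := hNn.conj_mem n hn g⁻¹
      rwa [inv_inv] at this
    have h2 := hS.conj _ h1 _ hs'
    have h3 : g⁻¹ * n * g * (g⁻¹ * s * g) * (g⁻¹ * n * g)⁻¹ = g⁻¹ * (n * s * n⁻¹) * g := by group
    rw [← h3]
    exact h2
  by_cases hK : K = ⊥
  · right
    intro s hs t ht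
    have hsN : g * s * g⁻¹ ∈ N := hNn.conj_mem s (hS.le hs) g
    have htN : g⁻¹ * t * g ∈ N := by
      have := hNn.conj_mem t (hS.le ht) g⁻¹
      rwa [inv_inv] at this
    have h1 : g * s * g⁻¹ * t * (g * s * g⁻¹)⁻¹ * t⁻¹ ∈ K := by
      constructor
      · exact S.mul_mem (hS.conj _ hsN t ht) (S.inv_mem ht)
      · have h2 : g⁻¹ * (g * s * g⁻¹ * t * (g * s * g⁻¹)⁻¹ * t⁻¹) * g =
            s * ((g⁻¹ * t * g) * s⁻¹ * (g⁻¹ * t * g)⁻¹) := by group
        rw [h2]
        exact S.mul_mem hs (hS.conj _ htN _ (S.inv_mem hs))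
    rw [hK, Subgroup.mem_bot] at h1
    have h2 : g * s * g⁻¹ * t = t * (g * s * g⁻¹) := by
      have h3 : g * s * g⁻¹ * t * (g * s * g⁻¹)⁻¹ = t := by
        rw [mul_inv_eq_one] at h1
        exact h1
      rw [mul_inv_eq_iff_eq_mul] at h3
      exact h3
    exact h2
  · left
    have h1 := hS.minimal K hK hKS hKinv
    have h2 : ∀ t ∈ S, g⁻¹ * t * g ∈ S := by
      intro t ht
      rw [← h1] at ht
      exact ht.2
    rw [Subgroup.mem_normalizer_iff'']
    intro t
    refine ⟨h2 t, ?_⟩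
    intro ht
    -- the injective map `t ↦ g⁻¹ t g` from `S` to `S` is surjective
    let φ : S → S := fun t => ⟨g⁻¹ * t * g, h2 t t.2⟩
    have hinj : Function.Injective φ := by
      intro a b h
      have h3 : g⁻¹ * (a : G) * g = g⁻¹ * (b : G) * g := congrArg Subtype.val h
      exact Subtype.ext (mul_left_cancel (mul_right_cancel h3))
    obtain ⟨a, ha⟩ := Finite.surjective_of_injective hinj ⟨_, ht⟩
    have h3 : g⁻¹ * (a : G) * g = g⁻¹ * t * g := congrArg Subtype.val ha
    have h4 : (a : G) = t := mul_left_cancel (mul_right_cancel h3)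
    rw [← h4]
    exact a.2

/-- A minimal normal subgroup is generated by the conjugates of any of its nontrivial subgroups. -/
theorem IsMinNormal.eq_normalClosure {N S : Subgroup G} (hN : IsMinNormal N) (hS : S ≤ N)
    (hS0 : S ≠ ⊥) : Subgroup.normalClosure (S : Set G) = N := by
  have := hN.normal
  apply hN.minimal
  · infer_instance
  · exact Subgroup.normalClosure_le_normal hS
  · intro h
    apply hS0
    rw [eq_bot_iff]
    intro s hs
    rw [← h]
    exact Subgroup.subset_normalClosure hs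

/-- The structure of a nonabelian minimal normal subgroup with trivial centraliser. -/
theorem IsMinNormal.le_sup [Finite G] {N S : Subgroup G} (hN : IsMinNormal N)
    (hS : IsMinInv N S) : N ≤ S ⊔ Subgroup.centralizer (S : Set G) := by
  have := hN.normal
  rw [← hN.eq_normalClosure hS.le hS.ne_bot]
  unfold Subgroup.normalClosure
  rw [Subgroup.closure_le]
  intro t ht
  obtain ⟨s, hs, hst⟩ := Group.mem_conjugatesOfSet_iff.mp ht
  obtain ⟨g, rfl⟩ := isConj_iff.mp hst
  rcases hS.conj_dichotomy g with h | h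
  · exact (le_sup_left : S ≤ _) ((Subgroup.mem_normalizer_iff.mp h s).mp hs)
  · refine (le_sup_right : Subgroup.centralizer (S : Set G) ≤ _) ?_
    rw [Subgroup.mem_centralizer_iff]
    intro t ht
    exact (h s hs t ht).symm

theorem IsMinInv.inf_centralizer [Finite G] {N S : Subgroup G} (hN : IsMinNormal N)
    (hS : IsMinInv N S) (hC : Subgroup.centralizer (N : Set G) = ⊥) :
    ∀ s ∈ S, s ∈ Subgroup.centralizer (S : Set G) → s = 1 := by
  have hle := hN.le_sup hS
  by_contra hcon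
  push Not at hcon
  obtain ⟨s, hs, hsC, hs1⟩ := hcon
  have h1 : S ⊓ Subgroup.centralizer (S : Set G) = S := by
    apply hS.minimal
    · intro h
      apply hs1
      have : s ∈ S ⊓ Subgroup.centralizer (S : Set G) := ⟨hs, hsC⟩
      rwa [h, Subgroup.mem_bot] at this
    · exact inf_le_left
    · rintro n hn t ⟨ht, htC⟩
      refine ⟨hS.conj n hn t ht, ?_⟩
      change n * t * n⁻¹ ∈ Subgroup.centralizer (S : Set G)
      replace htC : t ∈ Subgroup.centralizer (S : Set G) := htC
      rw [Subgroup.mem_centralizer_iff] at htC ⊢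
      intro u hu
      have h2 : n⁻¹ * u * n ∈ S := by
        have := hS.conj n⁻¹ (N.inv_mem hn) u hu
        rwa [inv_inv] at this
      have h3 := htC _ h2
      calc u * (n * t * n⁻¹) = n * ((n⁻¹ * u * n) * t) * n⁻¹ := by group
        _ = n * (t * (n⁻¹ * u * n)) * n⁻¹ := by rw [h3]
        _ = n * t * n⁻¹ * u := by group
  have h2 : S ≤ Subgroup.centralizer (S : Set G) := by
    rw [← h1]
    exact inf_le_right.trans (by rw [h1])
  have h3 : N ≤ Subgroup.centralizer (S : Set G) := hle.trans (sup_le h2 le_rfl)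
  have h4 : S ≤ Subgroup.centralizer (N : Set G) := Subgroup.le_centralizer_iff.mp h3
  rw [hC] at h4
  exact hS.ne_bot (le_bot_iff.mp h4)

/-- Under the same hypotheses `S` is simple. -/
theorem IsMinInv.simple [Finite G] {N S : Subgroup G} (hN : IsMinNormal N)
    (hS : IsMinInv N S) (K : Subgroup G) (hK : K ≤ S) (hKinv : ∀ s ∈ S, ∀ k ∈ K, s * k * s⁻¹ ∈ K) :
    K = ⊥ ∨ K = S := by
  by_cases h0 : K = ⊥
  · exact Or.inl h0
  right
  apply hS.minimal K h0 hK
  have hle := hN.le_sup hS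
  have h1 : S ⊔ Subgroup.centralizer (S : Set G) ≤ Subgroup.normalizer (K : Set G) := by
    apply sup_le
    · rw [Subgroup.le_normalizer_iff]
      exact hKinv
    · rw [Subgroup.le_normalizer_iff]
      intro c hc k hk
      rw [Subgroup.mem_centralizer_iff] at hc
      rw [← hc k (hK hk), mul_inv_cancel_right]
      exact hk
  exact Subgroup.le_normalizer_iff.mp (hle.trans h1)

theorem IsMinInv.nonabelian [Finite G] {N S : Subgroup G} (hN : IsMinNormal N)
    (hS : IsMinInv N S) (hC : Subgroup.centralizer (N : Set G) = ⊥) :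
    ¬ ∀ a ∈ S, ∀ b ∈ S, a * b = b * a := by
  intro hab
  apply hS.ne_bot
  rw [eq_bot_iff]
  intro s hs
  rw [Subgroup.mem_bot]
  apply hS.inf_centralizer hN hC s hs
  rw [Subgroup.mem_centralizer_iff]
  intro t ht
  exact hab t ht s hs

theorem IsMinInv.perfect [Finite G] {N S : Subgroup G} (hN : IsMinNormal N)
    (hS : IsMinInv N S) (hC : Subgroup.centralizer (N : Set G) = ⊥) {A : Type*} [CommGroup A]
    (f : S →* A) : f = 1 := by
  have h1 : ⁅S, S⁆ = S := by
    have hle : ⁅S, S⁆ ≤ S := Subgroup.commutator_le.mpr (fun a ha b hb =>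
      S.mul_mem (S.mul_mem (S.mul_mem ha hb) (S.inv_mem ha)) (S.inv_mem hb))
    rcases hS.simple hN ⁅S, S⁆ hle
      (Subgroup.le_normalizer_iff.mp (Subgroup.normalizer_commutator_ge_left S S)) with h | h
    · exfalso
      apply hS.nonabelian hN hC
      rw [Subgroup.commutator_eq_bot_iff_le_centralizer] at h
      intro a ha b hb
      exact (Subgroup.mem_centralizer_iff.mp (h ha) b hb).symm
    · exact h
  exact eq_one_of_commutator_eq h1 f

end

/-- Elements centralising `S` and commuting with `x` centralise `N`. -/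
theorem IsMinNormal.mem_centralizer {G : Type*} [Group G] [Finite G] {N S : Subgroup G}
    (hN : IsMinNormal N) (hS : IsMinInv N S) (x : G) (hgen : N ⊔ Subgroup.zpowers x = ⊤) (z : G)
    (hz : z ∈ Subgroup.centralizer (S : Set G)) (hzx : z * x = x * z) :
    z ∈ Subgroup.centralizer (N : Set G) := by
  have hNn := hN.normal
  have h1 : N ≤ Subgroup.centralizer {z} := by
    rw [← hN.eq_normalClosure hS.le hS.ne_bot]
    unfold Subgroup.normalClosure
    rw [Subgroup.closure_le]
    intro t ht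
    obtain ⟨s, hs, hst⟩ := Group.mem_conjugatesOfSet_iff.mp ht
    obtain ⟨g, rfl⟩ := isConj_iff.mp hst
    have hg : g ∈ Subgroup.zpowers x ⊔ N := by
      rw [sup_comm, hgen]
      exact Subgroup.mem_top g
    rw [Subgroup.mem_sup_of_normal_right] at hg
    obtain ⟨y, hy, n, hn, rfl⟩ := hg
    have hs' := hS.conj n hn s hs
    rw [Subgroup.mem_centralizer_iff] at hz
    have h2 : Commute z (n * s * n⁻¹) := (hz _ hs').symm
    have h3 : Commute z y := by
      obtain ⟨i, rfl⟩ := Subgroup.mem_zpowers_iff.mp hy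
      exact (show Commute z x from hzx).zpow_right i
    have h4 : Commute z (y * (n * s * n⁻¹) * y⁻¹) := (h3.mul_right h2).mul_right h3.inv_right
    have h5 : y * n * s * (y * n)⁻¹ = y * (n * s * n⁻¹) * y⁻¹ := by group
    change _ ∈ Subgroup.centralizer {z}
    rw [Subgroup.mem_centralizer_iff, h5]
    intro w hw
    rw [Set.mem_singleton_iff] at hw
    subst hw
    exact h4
  rw [Subgroup.mem_centralizer_iff]
  intro n hn
  have := Subgroup.mem_centralizer_iff.mp (h1 hn) z rfl
  exact this.symm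

/-- The stabiliser generated by `N` and a power of `x`. -/
theorem exists_pow_gen {G : Type*} [Group G] [Finite G] (N H : Subgroup G) [N.Normal]
    (hNH : N ≤ H) (x : G) (hgen : N ⊔ Subgroup.zpowers x = ⊤) :
    ∃ k : ℕ, 0 < k ∧ x ^ k ∈ H ∧ (∀ j, 0 < j → j < k → x ^ j ∉ H) ∧
      H = N ⊔ Subgroup.zpowers (x ^ k) ∧ Nat.card G = k * Nat.card H := by
  classical
  have hex : ∃ k : ℕ, 0 < k ∧ x ^ k ∈ H :=
    ⟨orderOf x, orderOf_pos x, by rw [pow_orderOf_eq_one]; exact H.one_mem⟩
  obtain ⟨hk, hxk⟩ := Nat.find_spec hex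
  set k := Nat.find hex with hkdef
  have hmin : ∀ j, 0 < j → j < k → x ^ j ∉ H := by
    intro j hj hjk h
    exact Nat.find_min hex hjk ⟨hj, h⟩
  have hdvd : ∀ i : ℕ, x ^ i ∈ H → k ∣ i := by
    intro i hi
    by_contra hcon
    have h1 : 0 < i % k := Nat.pos_of_ne_zero (fun h => hcon (Nat.dvd_of_mod_eq_zero h))
    apply hmin (i % k) h1 (Nat.mod_lt _ hk)
    have h2 : x ^ i = x ^ (i % k) * (x ^ k) ^ (i / k) := by
      rw [← pow_mul, ← pow_add, Nat.mod_add_div]
    have h3 : x ^ (i % k) = x ^ i * ((x ^ k) ^ (i / k))⁻¹ := by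
      rw [h2, mul_inv_cancel_right]
    rw [h3]
    exact H.mul_mem hi (H.inv_mem (H.pow_mem hxk _))
  have hH : H = N ⊔ Subgroup.zpowers (x ^ k) := by
    apply le_antisymm
    · intro h hh
      have h1 : h ∈ N ⊔ Subgroup.zpowers x := by rw [hgen]; exact Subgroup.mem_top h
      rw [Subgroup.mem_sup_of_normal_left] at h1
      obtain ⟨n, hn, y, hy, rfl⟩ := h1
      obtain ⟨i, rfl⟩ := Submonoid.mem_powers_iff _ _ |>.mp ((mem_powers_iff_mem_zpowers).mpr hy)
      have h2 : x ^ i ∈ H := by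
        have := H.mul_mem (H.inv_mem (hNH hn)) hh
        rwa [inv_mul_cancel_left] at this
      obtain ⟨q, rfl⟩ := hdvd i h2
      rw [Subgroup.mem_sup_of_normal_left]
      refine ⟨n, hn, _, ?_, rfl⟩
      rw [pow_mul]
      exact Subgroup.pow_mem _ (Subgroup.mem_zpowers _) q
    · refine sup_le hNH ?_
      rw [Subgroup.zpowers_le]
      exact hxk
  refine ⟨k, hk, hxk, hmin, hH, ?_⟩
  have h1 : Nat.card G = Nat.card N * orderOf (x : G ⧸ N) := by
    rw [← card_sup_zpowers, hgen, Subgroup.card_top]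
  have h2 : Nat.card H = Nat.card N * orderOf ((x ^ k : G) : G ⧸ N) := by
    rw [← card_sup_zpowers, ← hH]
  have h3 : k ∣ orderOf (x : G ⧸ N) := by
    apply hdvd
    apply hNH
    rw [← QuotientGroup.eq_one_iff, QuotientGroup.mk_pow, pow_orderOf_eq_one]
  have h4 : k * orderOf ((x ^ k : G) : G ⧸ N) = orderOf (x : G ⧸ N) := by
    rw [QuotientGroup.mk_pow, orderOf_pow_of_dvd hk.ne' h3]
    exact Nat.mul_div_cancel' h3
  rw [h1, h2, ← h4]
  ring

end Pool.Agent.H42.Wilde
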