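import Mathlib
import Pool.Agent.H42.Wilde.MinNormal

/-!
The base cases of the reduction.
-/

namespace Pool.Agent.H42.Wilde

/-- The base case for a normal subgroup of prime exponent. -/
theorem exponent_base {G : Type*} [Group G] [Finite G] {V : Type*} [AddCommGroup V] [Module ℂ V]
    [FiniteDimensional ℂ V] (T : PRep G V) (N : Subgroup G) [N.Normal] (hN0 : N ≠ ⊥)
    (hT : T.IrrOn N) (x : G) (hgen : N ⊔ Subgroup.zpowers x = ⊤) {r : ℕ} (hr : r.Prime)
    (hexp : ∀ n ∈ N, n ^ r = 1) {p : ℕ} (hp : p.Prime) :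
    (orderOf x).factorization p + (Module.finrank ℂ V).factorization p ≤
      (Nat.card G).factorization p := by
  have hNt := hT.1
  have hcardG : Nat.card G = Nat.card N * orderOf (x : G ⧸ N) := by
    rw [← card_sup_zpowers, hgen, Subgroup.card_top]
  have hcN0 : Nat.card N ≠ 0 := Nat.card_pos.ne'
  have hx0 : orderOf x ≠ 0 := (orderOf_pos x).ne'
  have hxN0 : orderOf (x : G ⧸ N) ≠ 0 := (orderOf_pos _).ne'
  have hfG : (Nat.card G).factorization p =
      (Nat.card N).factorization p + (orderOf (x : G ⧸ N)).factorization p := by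
    rw [hcardG, Nat.factorization_mul hcN0 hxN0]
    rfl
  -- the order of `x`
  have hox : (orderOf x).factorization p ≤
      (orderOf (x : G ⧸ N)).factorization p + r.factorization p := by
    have h1 : orderOf x ∣ orderOf (x : G ⧸ N) * r := by
      rw [orderOf_dvd_iff_pow_eq_one, pow_mul]
      apply hexp
      rw [← QuotientGroup.eq_one_iff, QuotientGroup.mk_pow, pow_orderOf_eq_one]
    have h2 := (Nat.factorization_le_iff_dvd hx0 (mul_ne_zero hxN0 hr.ne_zero)).mpr h1 p
    rwa [Nat.factorization_mul hxN0 hr.ne_zero] at h2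
  -- the order of `N`
  have : Fact r.Prime := ⟨hr⟩
  have hpg : IsPGroup r N := by
    intro n
    exact ⟨1, by rw [pow_one]; exact Subtype.ext (hexp n n.2)⟩
  obtain ⟨t, ht⟩ := IsPGroup.iff_card.mp hpg
  have ht0 : t ≠ 0 := by
    rintro rfl
    rw [pow_zero] at ht
    exact hN0 (Subgroup.card_eq_one.mp ht)
  -- the degree
  have hirr : (T.comap N.subtype).Irr := (T.comap_irrOn N N le_rfl hT).irr
  have hd1 := (T.comap N.subtype).finrank_dvd hirr
  have hd2 := (T.comap N.subtype).finrank_sq_le hirr
  rw [ht] at hd1 hd2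
  obtain ⟨s, hs, hds⟩ := (Nat.dvd_prime_pow hr).mp hd1
  rw [hds, ← pow_mul] at hd2
  have hst : s * 2 ≤ t := (Nat.pow_le_pow_iff_right hr.one_lt).mp hd2
  rw [hfG, ht, hds]
  rw [Nat.factorization_pow, Nat.factorization_pow]
  simp only [Finsupp.smul_apply, smul_eq_mul]
  by_cases hrp : r = p
  · subst hrp
    rw [hr.factorization] at hox ⊢
    rw [Finsupp.single_eq_same] at hox ⊢
    omega
  · have h1 : r.factorization p = 0 := by
      rw [hr.factorization, Finsupp.single_eq_of_ne (Ne.symm hrp)]
    rw [h1] at hox ⊢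
    omega

namespace TDec

variable {G : Type*} [Group G] {V : Type*} [AddCommGroup V] [Module ℂ V]
  {T : PRep G V} {N : Subgroup G} (D : TDec T N)

/-- Irreducibility of the second factor on a set on which `T` is irreducible. -/
theorem B_irrOn {s : Set G} (hT : T.IrrOn s) : D.B.IrrOn s := by
  have hΘnt : Nontrivial D.Θ := D.hΘ.1
  refine ⟨D.hBirr.1, ?_⟩
  intro U hU
  let U' : Submodule ℂ V :=
    { carrier := {v | ∀ φ : D.Θ →ₗ[ℂ] ℂ, (fun i => φ (D.e v i)) ∈ U}
      add_mem' := by
        intro v w hv hw φ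
        have := U.add_mem (hv φ) (hw φ)
        convert this using 1
        funext i
        simp
      zero_mem' := by
        intro φ
        have : (fun i => φ (D.e 0 i)) = (0 : Fin D.l → ℂ) := by
          funext i
          simp
        rw [this]
        exact U.zero_mem
      smul_mem' := by
        intro c v hv φ
        have := U.smul_mem c (hv φ)
        convert this using 1
        funext i
        simp }
  have hU' := hT.2 U' (by
    rintro _ ⟨g, hg, rfl⟩ v hv φ
    have h1 : (fun i => φ (D.e (T.op g v) i)) =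
        D.B.op g (fun i => (φ ∘ₗ D.a.op g) (D.e v i)) := by
      funext i
      rw [D.he, map_sum, D.hB, Matrix.toLin'_apply, Matrix.mulVec, dotProduct]
      apply Finset.sum_congr rfl
      intro j _
      rw [map_smul, smul_eq_mul]
      rfl
    rw [h1]
    exact hU _ ⟨g, hg, rfl⟩ _ (hv (φ ∘ₗ D.a.op g)))
  obtain ⟨θ0, hθ0⟩ := exists_ne (0 : D.Θ)
  obtain ⟨φ, hφ⟩ : ∃ φ : D.Θ →ₗ[ℂ] ℂ, φ θ0 = 1 := by
    obtain ⟨φ, hφ⟩ := Module.Projective.exists_dual_eq_one ℂ hθ0
    exact ⟨φ, hφ⟩
  rcases hU' with h | h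
  · left
    rw [eq_bot_iff]
    intro w hw
    have h1 : D.e.symm (fun i => w i • θ0) ∈ U' := by
      intro ψ
      rw [D.e.apply_symm_apply]
      have h2 : (fun i => ψ (w i • θ0)) = ψ θ0 • w := by
        funext i
        rw [map_smul, Pi.smul_apply, smul_eq_mul, smul_eq_mul, mul_comm]
      rw [h2]
      exact U.smul_mem _ hw
    rw [h, Submodule.mem_bot, LinearEquiv.map_eq_zero_iff] at h1
    rw [Submodule.mem_bot]
    funext i
    have h2 := congrFun h1 i
    change w i • θ0 = 0 at h2
    exact (smul_eq_zero.mp h2).resolve_right hθ0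
  · right
    rw [eq_top_iff]
    intro w _
    have h1 : D.e.symm (fun i => w i • θ0) ∈ U' := by rw [h]; exact Submodule.mem_top
    have h2 := h1 φ
    rw [D.e.apply_symm_apply] at h2
    have h3 : (fun i => φ (w i • θ0)) = w := by
      funext i
      rw [map_smul, hφ, smul_eq_mul, mul_one]
    rwa [h3] at h2

end TDec

end Pool.Agent.H42.Wilde
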