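import Mathlib
import Pool.Agent.H42.Wilde.AbBase

/-!
The nonabelian base case: reduction to almost simple groups.
-/

namespace Pool.Agent.H42.Wilde

namespace PRep

variable {G : Type*} [Group G] {V : Type*} [AddCommGroup V] [Module ℂ V] (T : PRep G V)

/-- The elements whose operators preserve a subspace. -/
def stab [Nontrivial V] (m : Submodule ℂ V) : Subgroup G where
  carrier := {g | (∀ v ∈ m, T.op g v ∈ m) ∧ (∀ v ∈ m, T.op g⁻¹ v ∈ m)}
  mul_mem' := by
    rintro a b ⟨ha, ha'⟩ ⟨hb, hb'⟩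
    constructor
    · intro v hv
      obtain ⟨c, _, h⟩ := T.exists_mul' a b
      rw [h, LinearMap.smul_apply]
      exact m.smul_mem c (ha _ (hb _ hv))
    · intro v hv
      obtain ⟨c, _, h⟩ := T.exists_mul' b⁻¹ a⁻¹
      rw [mul_inv_rev, h, LinearMap.smul_apply]
      exact m.smul_mem c (hb' _ (ha' _ hv))
  one_mem' := by
    have h1 : ∀ v ∈ m, T.op 1 v ∈ m := by
      intro v hv
      obtain ⟨c, _, h⟩ := T.op_one
      rw [h, LinearMap.smul_apply]
      exact m.smul_mem c hv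
    refine ⟨h1, ?_⟩
    rw [inv_one]
    exact h1
  inv_mem' := by
    rintro a ⟨ha, ha'⟩
    refine ⟨ha', ?_⟩
    rw [inv_inv]
    exact ha

/-- Isotypicity from a factorised irreducible subgroup. -/
theorem isotypic_of_le_sup [FiniteDimensional ℂ V] (H N S C : Subgroup G)
    (hSH : S ≤ H) (hSn : (S.subgroupOf H).Normal)
    (hT : T.IrrOn N) (hNH : N ≤ H) (hN : N ≤ S ⊔ C)
    (hcomm : ∀ c ∈ C, ∀ s ∈ S, T.op c * T.op s = T.op s * T.op c) :
    IsIsotypic ((T.comap H.subtype).alg (S.subgroupOf H)) V := by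
  have hNt := hT.1
  have hHirr : (T.comap H.subtype).Irr := (T.comap_irrOn N H hNH hT).irr
  have hss := (T.comap H.subtype).isSemisimple hHirr (S.subgroupOf H)
  rw [isIsotypic_iff_isFullyInvariant_imp_bot_or_top]
  intro m hm
  set m' : Submodule ℂ V := m.restrictScalars ℂ with hm'
  have hS : ∀ s ∈ S, ∀ v ∈ m', T.op s v ∈ m' := by
    intro s hs v hv
    have h1 : T.op s ∈ (T.comap H.subtype).alg (S.subgroupOf H) :=
      (T.comap H.subtype).op_mem_alg (N := S.subgroupOf H) (n := ⟨s, hSH hs⟩) hs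
    exact m.smul_mem (⟨T.op s, h1⟩ : (T.comap H.subtype).alg (S.subgroupOf H)) hv
  have hC : ∀ c ∈ C, ∀ v ∈ m', T.op c v ∈ m' := by
    intro c hc v hv
    have h1 : ∀ a ∈ (T.comap H.subtype).alg (S.subgroupOf H), T.op c * a = a * T.op c := by
      intro a ha
      unfold alg at ha
      induction ha using Algebra.adjoin_induction with
      | mem y hy =>
        obtain ⟨s, hs, rfl⟩ := hy
        exact hcomm c hc s hs
      | algebraMap r =>
        rw [Algebra.algebraMap_eq_smul_one, mul_smul_comm, mul_one, smul_mul_assoc, one_mul]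
      | add y z _ _ hy hz => rw [mul_add, add_mul, hy, hz]
      | mul y z _ _ hy hz => rw [← mul_assoc, hy, mul_assoc, hz, mul_assoc]
    let f : Module.End ((T.comap H.subtype).alg (S.subgroupOf H)) V :=
      { toFun := fun w => T.op c w
        map_add' := by intro a b; rw [map_add]
        map_smul' := by
          intro a w
          have h2 := congrArg (fun Y : Module.End ℂ V => Y w) (h1 a a.2)
          exact h2 }
    exact hm f hv
  have hle : S ⊔ C ≤ T.stab m' :=
    sup_le (fun s hs => ⟨hS s hs, hS s⁻¹ (S.inv_mem hs)⟩)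
      (fun c hc => ⟨hC c hc, hC c⁻¹ (C.inv_mem hc)⟩)
  have h2 := hT.2 m' (by
    rintro _ ⟨n, hn, rfl⟩ v hv
    exact (hle (hN hn)).1 v hv)
  rcases h2 with h2 | h2
  · left
    rw [eq_bot_iff]
    intro v hv
    have h3 : v ∈ m' := hv
    rw [h2] at h3
    exact h3
  · right
    rw [eq_top_iff]
    intro v _
    have h3 : v ∈ m' := by rw [h2]; exact Submodule.mem_top
    exact h3

end PRep

universe u

/-- The inequality at `p` for an almost simple group: for a nonabelian simple normal subgroup `S`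
with trivial centraliser, a projective representation irreducible on `S`, and an element `y` of
nonzero trace generating the group modulo `S`. -/
def ASat (p : ℕ) (A : Type u) [Group A] : Prop :=
  ∀ S : Subgroup A, S.Normal → IsSimpleGroup S → (¬ ∀ a ∈ S, ∀ b ∈ S, a * b = b * a) →
    Subgroup.centralizer (S : Set A) = ⊥ →
    ∀ (V : Type) [AddCommGroup V] [Module ℂ V] [FiniteDimensional ℂ V] (T : PRep A V),
      T.IrrOn S → ∀ y : A, S ⊔ Subgroup.zpowers y = ⊤ → LinearMap.trace ℂ V (T.op y) ≠ 0 →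
        (orderOf y).factorization p + (Module.finrank ℂ V).factorization p ≤
          (Nat.card A).factorization p

/-- The nonabelian base case. -/
theorem nonabelian_base {G : Type u} [Group G] [Finite G] {p : ℕ} {V : Type} [AddCommGroup V]
    [Module ℂ V] [FiniteDimensional ℂ V] (T : PRep G V) (N : Subgroup G) (hN : IsMinNormal N)
    (hCN : Subgroup.centralizer (N : Set G) = ⊥)
    (hT : T.IrrOn N) (x : G) (hgen : N ⊔ Subgroup.zpowers x = ⊤)
    (hx : LinearMap.trace ℂ V (T.op x) ≠ 0)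
    (hAS : ∀ (H : Subgroup G) (K : Subgroup H) [K.Normal], ASat p (H ⧸ K)) :
    (orderOf x).factorization p + (Module.finrank ℂ V).factorization p ≤
      (Nat.card G).factorization p := by
  have hNn := hN.normal
  have hNt := hT.1
  obtain ⟨S, hS⟩ := exists_isMinInv N hN.ne_bot
  set C := Subgroup.centralizer (S : Set G) with hCdef
  set H := Subgroup.normalizer (S : Set G) with hHdef
  have hSC : ∀ s ∈ S, s ∈ C → s = 1 := hS.inf_centralizer hN hCN
  have hle : N ≤ S ⊔ C := hN.le_sup hS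
  have hNH : N ≤ H := Subgroup.le_normalizer_iff.mpr hS.conj
  have hSH : S ≤ H := Subgroup.le_normalizer
  have hCH : C ≤ H := Subgroup.centralizer_le_normalizer _
  have hSn : (S.subgroupOf H).Normal :=
    (Subgroup.normal_subgroupOf_iff_le_normalizer hSH).mpr le_rfl
  have hKn : (C.subgroupOf H).Normal := by
    refine ⟨?_⟩
    rintro ⟨c, hcH⟩ hc ⟨h, hh⟩
    have hc' : c ∈ C := hc
    change h * c * h⁻¹ ∈ C
    rw [hCdef, Subgroup.mem_centralizer_iff] at hc' ⊢
    intro s hs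
    have h1 : h⁻¹ * s * h ∈ S := (Subgroup.mem_normalizer_iff''.mp hh s).mp hs
    have h2 := hc' _ h1
    calc s * (h * c * h⁻¹) = h * ((h⁻¹ * s * h) * c) * h⁻¹ := by group
      _ = h * (c * (h⁻¹ * s * h)) * h⁻¹ := by rw [h2]
      _ = h * c * h⁻¹ * s := by group
  have hSab : ¬ ∀ a ∈ S, ∀ b ∈ S, a * b = b * a := hS.nonabelian hN hCN
  have hSperf : ∀ f : S →* ℂˣ, f = 1 := fun f => hS.perfect hN hCN f
  have hSperf' : ∀ f : (S.subgroupOf H) →* ℂˣ, f = 1 := by
    intro f
    have h1 := hSperf (f.comp (Subgroup.subgroupOfEquivOfLe hSH).symm.toMonoidHom)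
    ext s
    have h2 := congrArg (fun g : S →* ℂˣ => g (Subgroup.subgroupOfEquivOfLe hSH s)) h1
    change f ((Subgroup.subgroupOfEquivOfLe hSH).symm (Subgroup.subgroupOfEquivOfLe hSH s)) = 1
      at h2
    rw [MulEquiv.symm_apply_apply] at h2
    rw [h2]
    rfl
  -- isotypicity and the tensor decomposition
  have hcommT : ∀ c ∈ C, ∀ s ∈ S, T.op c * T.op s = T.op s * T.op c := by
    intro c hc s hs
    exact T.commute_of_perfect S hSperf c
      (fun t ht => (Subgroup.mem_centralizer_iff.mp hc t ht).symm) s hs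
  have hiso := T.isotypic_of_le_sup H N S C hSH hSn hT hNH hle hcommT
  have hTH : (T.comap H.subtype).IrrOn (N.subgroupOf H) := T.comap_irrOn N H hNH hT
  obtain ⟨D⟩ := (T.comap H.subtype).exists_tdec hTH.irr (S.subgroupOf H) hiso
  -- the power of `x`
  obtain ⟨k, hk, hxk, hmin, hHgen, hcardG⟩ := exists_pow_gen N H hNH x hgen
  have htr := trace_lemma T H S hSH hSperf D x k hk hxk (by
    intro j hj hjk s hs t ht
    rcases hS.conj_dichotomy (x ^ j)⁻¹ with h | h
    · exfalso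
      apply hmin j hj hjk
      have := H.inv_mem h
      rwa [inv_inv] at this
    · have h1 := h s hs t ht
      rwa [inv_inv] at h1) hx
  -- the first factor on the centraliser
  have hΘnt : Nontrivial D.Θ := D.hΘ.1
  have haK : ∀ c ∈ C.subgroupOf H, ∃ d : ℂ, D.a.op c = d • (1 : Module.End ℂ D.Θ) := by
    rintro ⟨c, hcH⟩ hc
    have hc' : c ∈ C := hc
    apply D.hΘ.schur
    rintro ⟨s, hsH⟩ hs
    have hs' : s ∈ S := hs
    refine (D.a.commute_of_perfect (S.subgroupOf H) hSperf' ⟨c, hcH⟩ ?_ ⟨s, hsH⟩ hs).symm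
    rintro ⟨t, htH⟩ ht
    apply Subtype.ext
    exact (Subgroup.mem_centralizer_iff.mp hc' t ht).symm
  -- the almost simple quotient
  let π := QuotientGroup.mk' (C.subgroupOf H)
  have hπ : Function.Surjective π := QuotientGroup.mk'_surjective _
  set Sb : Subgroup (H ⧸ C.subgroupOf H) := (S.subgroupOf H).map π with hSb
  set y : H ⧸ C.subgroupOf H := ((⟨x ^ k, hxk⟩ : H) : H ⧸ C.subgroupOf H) with hy
  have hmkinj : ∀ s (hs : s ∈ S), π ⟨s, hSH hs⟩ = 1 → s = 1 := by
    intro s hs h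
    have h1 : (⟨s, hSH hs⟩ : H) ∈ C.subgroupOf H := (QuotientGroup.eq_one_iff _).mp h
    exact hSC s hs h1
  have hmem_iff : ∀ q, q ∈ Sb ↔ ∃ (s : G) (hs : s ∈ S), π ⟨s, hSH hs⟩ = q := by
    intro q
    constructor
    · rintro ⟨⟨s, hsH⟩, hs, rfl⟩
      exact ⟨s, hs, rfl⟩
    · rintro ⟨s, hs, rfl⟩
      exact ⟨⟨s, hSH hs⟩, hs, rfl⟩
  have hSbn : Sb.Normal := hSn.map π hπ
  have hSbnt : Nontrivial Sb := by
    rw [Subgroup.nontrivial_iff_ne_bot]
    intro h
    apply hS.ne_bot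
    rw [eq_bot_iff]
    intro s hs
    rw [Subgroup.mem_bot]
    apply hmkinj s hs
    have h1 : π ⟨s, hSH hs⟩ ∈ Sb := (hmem_iff _).mpr ⟨s, hs, rfl⟩
    rwa [h, Subgroup.mem_bot] at h1
  have hSsimple : IsSimpleGroup S := by
    have : Nontrivial S := (Subgroup.nontrivial_iff_ne_bot S).mpr hS.ne_bot
    refine ⟨fun M hM => ?_⟩
    have h1 := hS.simple hN (M.map S.subtype) (Subgroup.map_subtype_le M) (by
      rintro s hs _ ⟨m, hm, rfl⟩
      exact ⟨⟨s, hs⟩ * m * ⟨s, hs⟩⁻¹, hM.conj_mem m hm _, rfl⟩)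
    rcases h1 with h1 | h1
    · left
      rw [Subgroup.map_eq_bot_iff_of_injective _ S.subtype_injective] at h1
      exact h1
    · right
      rw [eq_top_iff]
      intro s _
      have h2 : (s : G) ∈ M.map S.subtype := by rw [h1]; exact s.2
      obtain ⟨m, hm, h3⟩ := h2
      have h4 : m = s := Subtype.ext h3
      rw [← h4]
      exact hm
  have hSbsimple : IsSimpleGroup Sb := by
    let f : S →* Sb := (π.comp (Subgroup.inclusion hSH)).codRestrict Sb
      (fun s => (hmem_iff _).mpr ⟨s, s.2, rfl⟩)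
    refine IsSimpleGroup.isSimpleGroup_of_surjective f ?_
    rintro ⟨q, hq⟩
    obtain ⟨s, hs, h1⟩ := (hmem_iff q).mp hq
    exact ⟨⟨s, hs⟩, Subtype.ext h1⟩
  have hSbab : ¬ ∀ a ∈ Sb, ∀ b ∈ Sb, a * b = b * a := by
    intro h
    apply hSab
    intro a ha b hb
    have h1 := h _ ((hmem_iff _).mpr ⟨a, ha, rfl⟩) _ ((hmem_iff _).mpr ⟨b, hb, rfl⟩)
    have h2 : π ⟨a * b * a⁻¹ * b⁻¹, hSH (S.mul_mem (S.mul_mem (S.mul_mem ha hb) (S.inv_mem ha))
        (S.inv_mem hb))⟩ = 1 := by
      have h3 : (⟨a * b * a⁻¹ * b⁻¹, hSH (S.mul_mem (S.mul_mem (S.mul_mem ha hb) (S.inv_mem ha))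
        (S.inv_mem hb))⟩ : H) = ⟨a, hSH ha⟩ * ⟨b, hSH hb⟩ * ⟨a, hSH ha⟩⁻¹ * ⟨b, hSH hb⟩⁻¹ := rfl
      rw [h3, map_mul, map_mul, map_mul, map_inv, map_inv, h1, mul_inv_cancel_right,
        mul_inv_cancel]
    have h3 := hmkinj _ (S.mul_mem (S.mul_mem (S.mul_mem ha hb) (S.inv_mem ha))
      (S.inv_mem hb)) h2
    rw [mul_inv_eq_one, mul_inv_eq_iff_eq_mul] at h3
    exact h3
  have hSbC : Subgroup.centralizer (Sb : Set (H ⧸ C.subgroupOf H)) = ⊥ := by
    rw [eq_bot_iff]
    intro q hq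
    rw [Subgroup.mem_bot]
    obtain ⟨⟨h, hh⟩, rfl⟩ := hπ q
    rw [Subgroup.mem_centralizer_iff] at hq
    refine (QuotientGroup.eq_one_iff _).mpr ?_
    change h ∈ C
    rw [hCdef, Subgroup.mem_centralizer_iff]
    intro s hs
    have h1 := hq _ ((hmem_iff _).mpr ⟨s, hs, rfl⟩)
    have h2 : s * h * s⁻¹ * h⁻¹ ∈ S := by
      have h3 : h * s⁻¹ * h⁻¹ ∈ S := (Subgroup.mem_normalizer_iff.mp hh s⁻¹).mp (S.inv_mem hs)
      have h4 : s * h * s⁻¹ * h⁻¹ = s * (h * s⁻¹ * h⁻¹) := by group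
      rw [h4]
      exact S.mul_mem hs h3
    have h3 : π ⟨s * h * s⁻¹ * h⁻¹, hSH h2⟩ = 1 := by
      have h4 : (⟨s * h * s⁻¹ * h⁻¹, hSH h2⟩ : H) =
        ⟨s, hSH hs⟩ * ⟨h, hh⟩ * ⟨s, hSH hs⟩⁻¹ * ⟨h, hh⟩⁻¹ := rfl
      rw [h4, map_mul, map_mul, map_mul, map_inv, map_inv, h1, mul_inv_cancel_right,
        mul_inv_cancel]
    have h5 := hmkinj _ h2 h3
    rw [mul_inv_eq_one, mul_inv_eq_iff_eq_mul] at h5
    exact h5
  have haS : (D.a.descend (C.subgroupOf H) haK).IrrOn Sb := by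
    refine ⟨hΘnt, fun W hW => D.hΘ.2 W ?_⟩
    rintro _ ⟨s, hs, rfl⟩ v hv
    obtain ⟨c, hc, h1⟩ := D.a.descend_op (C.subgroupOf H) haK s
    have h2 := hW _ ⟨(s : H ⧸ C.subgroupOf H), ⟨s, hs, rfl⟩, rfl⟩ v hv
    rw [h1, LinearMap.smul_apply] at h2
    exact (Submodule.smul_mem_iff W hc).mp h2
  have hygen : Sb ⊔ Subgroup.zpowers y = ⊤ := by
    let P : Subgroup G := ((Sb ⊔ Subgroup.zpowers y).comap π).map H.subtype
    have hP : ∀ (g : G) (hg : g ∈ H), π ⟨g, hg⟩ ∈ Sb ⊔ Subgroup.zpowers y → g ∈ P := by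
      intro g hg h
      exact ⟨⟨g, hg⟩, h, rfl⟩
    have hSP : S ≤ P := fun s hs => hP s (hSH hs)
      ((le_sup_left : Sb ≤ _) ((hmem_iff _).mpr ⟨s, hs, rfl⟩))
    have hCP : C ≤ P := by
      intro c hc
      apply hP c (hCH hc)
      have h1 : π ⟨c, hCH hc⟩ = 1 := (QuotientGroup.eq_one_iff _).mpr hc
      rw [h1]
      exact Subgroup.one_mem _
    have hxP : Subgroup.zpowers (x ^ k) ≤ P := by
      rw [Subgroup.zpowers_le]
      exact hP _ hxk ((le_sup_right : Subgroup.zpowers y ≤ _) (Subgroup.mem_zpowers y))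
    have hHP : H ≤ P := by
      rw [hHgen]
      exact sup_le (hle.trans (sup_le hSP hCP)) hxP
    rw [eq_top_iff]
    intro q _
    obtain ⟨⟨h, hh⟩, rfl⟩ := hπ q
    obtain ⟨h', h1, h2⟩ := hHP hh
    have h3 : h' = ⟨h, hh⟩ := Subtype.ext h2
    rw [← h3]
    exact h1
  obtain ⟨c, hc, h1⟩ := D.a.descend_op (C.subgroupOf H) haK ⟨x ^ k, hxk⟩
  have hmain := hAS H (C.subgroupOf H) Sb hSbn hSbsimple hSbab hSbC D.Θ
    (D.a.descend (C.subgroupOf H) haK) haS y hygen (by
      rw [hy, h1, map_smul, smul_eq_mul]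
      exact mul_ne_zero hc htr)
  -- the second factor
  have hl : (Module.finrank ℂ (Fin D.l → ℂ)).factorization p ≤
      (Nat.card (C.subgroupOf H)).factorization p := by
    have hBnt := D.hBirr.1
    have hBN := D.B_irrOn hTH
    have hBC : D.B.IrrOn (C.subgroupOf H) := by
      refine ⟨hBnt, fun W hW => hBN.2 W ?_⟩
      have h1 : C.subgroupOf H ≤ D.B.stab W := fun c hc =>
        ⟨fun v hv => hW _ ⟨c, hc, rfl⟩ v hv,
          fun v hv => hW _ ⟨c⁻¹, (C.subgroupOf H).inv_mem hc, rfl⟩ v hv⟩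
      have h3 : ∀ s ∈ S.subgroupOf H, ∀ v ∈ W, D.B.op s v ∈ W := by
        intro s hs v hv
        rw [D.hB, D.hN s hs, Matrix.toLin'_one]
        exact hv
      have h2 : S.subgroupOf H ≤ D.B.stab W := fun s hs =>
        ⟨h3 s hs, h3 s⁻¹ ((S.subgroupOf H).inv_mem hs)⟩
      have h4 : N.subgroupOf H ≤ D.B.stab W := by
        refine (Subgroup.comap_mono hle).trans ?_
        change (S ⊔ C).subgroupOf H ≤ _
        rw [Subgroup.subgroupOf_sup hSH hCH]
        exact sup_le h2 h1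
      rintro _ ⟨n, hn, rfl⟩ v hv
      exact (h4 hn).1 v hv
    have hirr := (D.B.comap_irrOn (C.subgroupOf H) (C.subgroupOf H) le_rfl hBC).irr
    have h1 := (D.B.comap (C.subgroupOf H).subtype).finrank_dvd hirr
    exact (Nat.factorization_le_iff_dvd Module.finrank_pos.ne' Nat.card_pos.ne').mpr h1 p
  -- the order of `x`
  have hox : (orderOf x).factorization p ≤ k.factorization p + (orderOf y).factorization p := by
    have h1 : orderOf x ∣ k * orderOf y := by
      rw [orderOf_dvd_iff_pow_eq_one]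
      have h2 : (⟨x ^ k, hxk⟩ : H) ^ orderOf y ∈ C.subgroupOf H := by
        rw [← QuotientGroup.eq_one_iff, QuotientGroup.mk_pow]
        exact pow_orderOf_eq_one y
      have h3 : (x ^ k) ^ orderOf y ∈ C := h2
      rw [← pow_mul] at h3
      have h4 := hN.mem_centralizer hS x hgen _ h3 (Commute.pow_self x _)
      rw [hCN, Subgroup.mem_bot] at h4
      exact h4
    have h2 := (Nat.factorization_le_iff_dvd (orderOf_pos x).ne'
      (mul_ne_zero hk.ne' (orderOf_pos y).ne')).mpr h1 p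
    rwa [Nat.factorization_mul hk.ne' (orderOf_pos y).ne'] at h2
  have hdim : (Module.finrank ℂ V).factorization p =
      (Module.finrank ℂ (Fin D.l → ℂ)).factorization p +
        (Module.finrank ℂ D.Θ).factorization p := by
    have hBnt := D.hBirr.1
    rw [D.finrank_eq, Nat.factorization_mul Module.finrank_pos.ne' Module.finrank_pos.ne']
    rfl
  have hG : (Nat.card G).factorization p = k.factorization p +
      ((Nat.card (H ⧸ C.subgroupOf H)).factorization p +
        (Nat.card (C.subgroupOf H)).factorization p) := by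
    rw [hcardG, Nat.factorization_mul hk.ne' Nat.card_pos.ne',
      ← factorization_card_quotient p (C.subgroupOf H)]
    rfl
  omega

end Pool.Agent.H42.Wilde
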