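import Mathlib
import Pool.Agent.H42.Wilde.NonabBase

/-!
The reduction to almost simple sections.
-/

namespace Pool.Agent.H42.Wilde

universe u

/-- `A` is isomorphic to a section of `G`. -/
def IsSec (G : Type u) [Group G] (A : Type u) [Group A] : Prop :=
  ∃ (H : Subgroup G) (f : H →* A), Function.Surjective f

theorem IsSec.of_subgroup {G : Type u} [Group G] {H : Subgroup G} {A : Type u} [Group A]
    (h : IsSec H A) : IsSec G A := by
  obtain ⟨K, f, hf⟩ := h
  let e : K ≃* K.map H.subtype := K.equivMapOfInjective H.subtype H.subtype_injective
  refine ⟨K.map H.subtype, f.comp e.symm.toMonoidHom, ?_⟩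
  exact hf.comp e.symm.surjective

theorem IsSec.of_quotient {G : Type u} [Group G] {M : Subgroup G} [M.Normal] {A : Type u}
    [Group A] (h : IsSec (G ⧸ M) A) : IsSec G A := by
  obtain ⟨K, f, hf⟩ := h
  refine ⟨K.comap (QuotientGroup.mk' M), f.comp ((QuotientGroup.mk' M).subgroupComap K), ?_⟩
  refine hf.comp ?_
  exact MonoidHom.subgroupComap_surjective_of_surjective _ _ (QuotientGroup.mk'_surjective M)

theorem reduction_aux {p : ℕ} (hp : p.Prime) (n : ℕ) : ∀ (G : Type u) [Group G] [Finite G],
    Nat.card G = n → (∀ (A : Type u) [Group A], IsSec G A → ASat p A) → PP p G := by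
  induction n using Nat.strong_induction_on with
  | _ n ih =>
    intro G _ _ hn hsec V _ _ _ T hT x hx
    rcases subsingleton_or_nontrivial G with hG | hG
    · have h1 : Nat.card G = 1 := Nat.card_unique
      have h2 := T.finrank_dvd hT
      rw [h1, Nat.dvd_one] at h2
      have h3 : x = 1 := Subsingleton.elim _ _
      rw [h2, h3, orderOf_one, h1]
      simp
    · obtain ⟨N, hN⟩ := exists_isMinNormal (G := G)
      have hNn := hN.normal
      have hquo : ∀ M : Subgroup G, M.Normal → M ≠ ⊥ → ∀ [M.Normal], PP p (G ⧸ M) := by
        intro M _ hM0 _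
        refine ih (Nat.card (G ⧸ M)) ?_ (G ⧸ M) rfl (fun A _ hA => hsec A hA.of_quotient)
        rw [← hn, Subgroup.card_eq_card_quotient_mul_card_subgroup M]
        have h1 : 1 < Nat.card M := Subgroup.one_lt_card_iff_ne_bot M |>.mpr hM0
        have h2 : 0 < Nat.card (G ⧸ M) := Nat.card_pos
        nlinarith
      apply clifford_step T hT N x hx
      · intro H hH
        refine ih (Nat.card H) ?_ H rfl (fun A _ hA => hsec A hA.of_subgroup)
        rw [← hn]
        refine lt_of_le_of_ne (Subgroup.card_le_card_group H) ?_
        intro h
        exact hH (Subgroup.eq_top_of_card_eq H h)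
      · exact hquo N hNn hN.ne_bot
      · intro Θ _ _ _ a haN hgen hax
        have hΘ := haN.1
        by_cases hab : ∀ a ∈ N, ∀ b ∈ N, a * b = b * a
        · obtain ⟨r, hr, hexp⟩ := hN.exists_prime hab
          exact exponent_base a N hN.ne_bot haN x hgen hr hexp hp
        · by_cases hC : Subgroup.centralizer (N : Set G) = ⊥
          · exact nonabelian_base a N hN hC haN x hgen hax
              (fun H K _ => hsec _ ⟨H, QuotientGroup.mk' K, QuotientGroup.mk'_surjective K⟩)
          · have hCn : (Subgroup.centralizer (N : Set G)).Normal := inferInstance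
            refine quotient_step a haN.irr (Subgroup.centralizer (N : Set G)) ?_
              (hquo _ hCn hC) x hax
            intro c hc
            apply haN.schur
            intro s hs
            exact (a.commute_of_perfect N (fun f => hN.perfect hab f) c
              (fun t ht => (Subgroup.mem_centralizer_iff.mp hc t ht).symm) s hs).symm

/-- The reduction theorem: if the inequality at `p` holds for all almost simple sections, it holds
for all projective representations of the group. -/
theorem reduction {p : ℕ} (hp : p.Prime) (G : Type u) [Group G] [Finite G]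
    (hsec : ∀ (A : Type u) [Group A], IsSec G A → ASat p A) : PP p G :=
  reduction_aux hp _ G rfl hsec

end Pool.Agent.H42.Wilde
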