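import Mathlib
import Pool.Agent.H42.Wilde.Reduction

/-!
Criteria for the inequality in almost simple groups.
-/

namespace Pool.Agent.H42.Wilde

/-- The inequality when the fusion of the `p`-part is small. -/
theorem PRep.fusion_base {G : Type*} [Group G] [Finite G] {V : Type*} [AddCommGroup V] [Module ℂ V]
    [FiniteDimensional ℂ V] (T : PRep G V) (hT : T.Irr) (x : G)
    (hx : LinearMap.trace ℂ V (T.op x) ≠ 0) {p : ℕ} (hp : p.Prime) (u : G)
    (hux : u ∈ Subgroup.zpowers x) (hu : orderOf u = p ^ (orderOf x).factorization p)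
    (hm : ¬ p ^ 2 ∣ (Subgroup.centralizer {u}).relIndex
      (Subgroup.normalizer (Subgroup.zpowers u : Set G))) :
    (orderOf x).factorization p + (Module.finrank ℂ V).factorization p ≤
      (Nat.card G).factorization p := by
  have hNt := hT.1
  have hN0 : Nat.card G ≠ 0 := Nat.card_pos.ne'
  have hn0 : 0 < Module.finrank ℂ V := Module.finrank_pos
  by_cases hpx : p ∣ orderOf x
  swap
  · rw [Nat.factorization_eq_zero_of_not_dvd hpx, zero_add]
    exact (Nat.factorization_le_iff_dvd hn0.ne' hN0).mpr (T.finrank_dvd hT) p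
  have h1 := T.local_ineq hT x hx hp hpx u hux hu
  have h2 : (Nat.card (HH u)).factorization p ≤ 1 := by
    by_contra h
    push Not at h
    apply hm
    rw [← card_conj_eq_relIndex, ← card_HH]
    exact (hp.pow_dvd_iff_le_factorization Nat.card_pos.ne').mpr h
  omega

/-- The inequality when `S` has no element of order `p ^ 2`. -/
theorem PRep.exponent_base' {G : Type*} [Group G] [Finite G] {V : Type*} [AddCommGroup V]
    [Module ℂ V] [FiniteDimensional ℂ V] (T : PRep G V) (hT : T.Irr) (S : Subgroup G) [S.Normal]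
    (x : G) (hgen : S ⊔ Subgroup.zpowers x = ⊤) (hx : LinearMap.trace ℂ V (T.op x) ≠ 0) {p : ℕ}
    (hp : p.Prime) (hS : ∀ s ∈ S, orderOf s ≠ p ^ 2) :
    (orderOf x).factorization p + (Module.finrank ℂ V).factorization p ≤
      (Nat.card G).factorization p := by
  have hNt := hT.1
  have hN0 : Nat.card G ≠ 0 := Nat.card_pos.ne'
  have hn0 : 0 < Module.finrank ℂ V := Module.finrank_pos
  have hx0 : orderOf x ≠ 0 := (orderOf_pos x).ne'
  by_cases hpx : p ∣ orderOf x
  swap
  · rw [Nat.factorization_eq_zero_of_not_dvd hpx, zero_add]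
    exact (Nat.factorization_le_iff_dvd hn0.ne' hN0).mpr (T.finrank_dvd hT) p
  obtain ⟨u, hux, hu⟩ := exists_ppart x p
  have ha0 : 0 < (orderOf x).factorization p := hp.factorization_pos_of_dvd hx0 hpx
  have h1 := T.local_ineq hT x hx hp hpx u hux hu
  -- fusion facts
  have hHH : Nat.card (HH u) * (HH u).index = (p ^ (orderOf x).factorization p).totient := by
    rw [← hu]
    exact card_HH_mul_index u
  have hpa : 0 < (p ^ (orderOf x).factorization p).totient :=
    Nat.totient_pos.mpr (pow_pos hp.pos _)
  have hm0 : Nat.card (HH u) ≠ 0 := by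
    intro h; rw [h, zero_mul] at hHH; omega
  have h2 : (Nat.card (HH u)).factorization p + 1 ≤ (orderOf x).factorization p := by
    have h3 : Nat.card (HH u) ∣ (p ^ (orderOf x).factorization p).totient := ⟨_, hHH.symm⟩
    have h4 := (Nat.factorization_le_iff_dvd hm0 hpa.ne').mpr h3 p
    rw [factorization_totient_prime_pow hp ha0] at h4
    omega
  -- the quotient
  let π := QuotientGroup.mk' S
  have hπ : Subgroup.zpowers (π x) = ⊤ := by
    have h4 := congrArg (Subgroup.map π) hgen
    rw [Subgroup.map_sup, MonoidHom.map_zpowers,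
      Subgroup.map_top_of_surjective π (QuotientGroup.mk'_surjective S)] at h4
    have h5 : Subgroup.map π S = ⊥ := by
      rw [Subgroup.map_eq_bot_iff, QuotientGroup.ker_mk']
    rw [h5, bot_sup_eq] at h4
    exact h4
  have hcomm : ∀ a b : G ⧸ S, a * b = b * a := by
    intro a b
    have ha : a ∈ Subgroup.zpowers (π x) := by rw [hπ]; exact Subgroup.mem_top a
    have hb : b ∈ Subgroup.zpowers (π x) := by rw [hπ]; exact Subgroup.mem_top b
    obtain ⟨i, rfl⟩ := Subgroup.mem_zpowers_iff.mp ha
    obtain ⟨j, rfl⟩ := Subgroup.mem_zpowers_iff.mp hb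
    rw [← zpow_add, ← zpow_add, add_comm]
  obtain ⟨b, hb, hπu⟩ := (Nat.dvd_prime_pow hp).mp (hu ▸ orderOf_map_dvd π u)
  -- the exponent
  have hab : (orderOf x).factorization p ≤ b + 1 := by
    by_contra hcon
    push Not at hcon
    have h3 : u ^ p ^ b ∈ S := by
      rw [← QuotientGroup.eq_one_iff, QuotientGroup.mk_pow]
      have h4 := pow_orderOf_eq_one (π u)
      rw [hπu] at h4
      exact h4
    have h4 : u ^ p ^ ((orderOf x).factorization p - 2) ∈ S := by
      have h5 : p ^ ((orderOf x).factorization p - 2) =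
          p ^ b * p ^ ((orderOf x).factorization p - 2 - b) := by
        rw [← pow_add]
        congr 1
        omega
      rw [h5, pow_mul]
      exact S.pow_mem h3 _
    apply hS _ h4
    have h5 : p ^ ((orderOf x).factorization p - 2) ∣ orderOf u := by
      rw [hu]
      exact pow_dvd_pow _ (by omega)
    rw [orderOf_pow_of_dvd (pow_pos hp.pos _).ne' h5, hu, Nat.pow_div (by omega) hp.pos]
    congr 1
    omega
  have h6 : 0 < b → (Nat.card (HH u)).factorization p + b ≤ (orderOf x).factorization p := by
    intro hb0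
    have h7 : Nat.card (HH u) * (p ^ b).totient ∣ (p ^ (orderOf x).factorization p).totient := by
      rw [← hπu, ← hu]
      exact card_HH_mul_totient_dvd π hcomm u
    have hpb : 0 < (p ^ b).totient := Nat.totient_pos.mpr (pow_pos hp.pos _)
    have h8 := (Nat.factorization_le_iff_dvd (mul_ne_zero hm0 hpb.ne') hpa.ne').mpr h7 p
    rw [Nat.factorization_mul hm0 hpb.ne'] at h8
    simp only [Finsupp.add_apply] at h8
    rw [factorization_totient_prime_pow hp ha0, factorization_totient_prime_pow hp hb0] at h8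
    omega
  rcases Nat.eq_zero_or_pos b with hb0 | hb0
  · subst hb0
    omega
  · have h7 := h6 hb0
    omega

namespace PRep

variable {G : Type*} [Group G] {V : Type*} [AddCommGroup V] [Module ℂ V] {W : Type*}
  [AddCommGroup W] [Module ℂ W]

/-- Transport along a linear equivalence. -/
def transport (T : PRep G V) (e : V ≃ₗ[ℂ] W) : PRep G W where
  T g := Units.map (e.conjAlgEquiv ℂ : Module.End ℂ V ≃ₐ[ℂ] Module.End ℂ W).toAlgHom.toMonoidHom
    (T.T g)
  mul' g h := by
    obtain ⟨c, hc⟩ := T.mul' g h
    refine ⟨c, ?_⟩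
    have h1 := congrArg (e.conjAlgEquiv ℂ : Module.End ℂ V ≃ₐ[ℂ] Module.End ℂ W) hc
    rw [map_mul, map_smul] at h1
    exact h1

theorem transport_op (T : PRep G V) (e : V ≃ₗ[ℂ] W) (g : G) :
    (T.transport e).op g = e.toLinearMap ∘ₗ T.op g ∘ₗ e.symm.toLinearMap := rfl

theorem trace_transport (T : PRep G V) (e : V ≃ₗ[ℂ] W) (g : G) :
    LinearMap.trace ℂ W ((T.transport e).op g) = LinearMap.trace ℂ V (T.op g) := by
  rw [transport_op]
  exact LinearMap.trace_conj' (T.op g) e

theorem transport_irr (T : PRep G V) (e : V ≃ₗ[ℂ] W) (hT : T.Irr) : (T.transport e).Irr := by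
  have := hT.1
  refine ⟨e.symm.toEquiv.nontrivial, ?_⟩
  intro U hU
  have h1 := hT.2 (U.comap e.toLinearMap) (by
    rintro _ ⟨g, _, rfl⟩ v hv
    rw [Submodule.mem_comap] at hv ⊢
    have h2 := hU _ ⟨g, Set.mem_univ _, rfl⟩ _ hv
    rw [transport_op] at h2
    change e (T.op g (e.symm (e v))) ∈ U at h2
    rw [e.symm_apply_apply] at h2
    exact h2)
  rcases h1 with h1 | h1
  · left
    rw [eq_bot_iff]
    intro w hw
    have h2 : e.symm w ∈ U.comap e.toLinearMap := by
      rw [Submodule.mem_comap]
      change e (e.symm w) ∈ U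
      rw [e.apply_symm_apply]
      exact hw
    rw [h1, Submodule.mem_bot] at h2
    rw [Submodule.mem_bot]
    exact (LinearEquiv.map_eq_zero_iff e.symm).mp h2
  · right
    rw [eq_top_iff]
    intro w _
    have h2 : e.symm w ∈ U.comap e.toLinearMap := by rw [h1]; exact Submodule.mem_top
    rw [Submodule.mem_comap] at h2
    change e (e.symm w) ∈ U at h2
    rwa [e.apply_symm_apply] at h2

end PRep

universe u

/-- The inequality for representations on a space in any universe. -/
theorem PP.apply' {p : ℕ} {G : Type u} [Group G] (h : PP p G) {V : Type*} [AddCommGroup V]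
    [Module ℂ V] [FiniteDimensional ℂ V] (T : PRep G V) (hT : T.Irr) (x : G)
    (hx : LinearMap.trace ℂ V (T.op x) ≠ 0) :
    (orderOf x).factorization p + (Module.finrank ℂ V).factorization p ≤
      (Nat.card G).factorization p := by
  let e : V ≃ₗ[ℂ] (Fin (Module.finrank ℂ V) → ℂ) := (Module.finBasis ℂ V).equivFun
  have h1 := h _ (T.transport e) (T.transport_irr e hT) x (by rw [T.trace_transport]; exact hx)
  rwa [e.symm.finrank_eq] at h1

end Pool.Agent.H42.Wilde
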