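import Mathlib
import Pool.Agent.H42.Wilde.Criterion

/-!
Consequences of the reduction theorem for linear characters.
-/

namespace Pool.Agent.H42.Wilde

open Representation

/-- A linear representation as a projective representation. -/
def PRep.ofRep {G : Type*} [Group G] {V : Type*} [AddCommGroup V] [Module ℂ V]
    (ρ : Representation ℂ G V) : PRep G V where
  T g := ⟨ρ g, ρ g⁻¹, by rw [← map_mul, mul_inv_cancel, map_one],
    by rw [← map_mul, inv_mul_cancel, map_one]⟩
  mul' g h := ⟨1, by
    rw [one_smul]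
    exact (map_mul ρ g h).symm⟩

theorem PRep.ofRep_op {G : Type*} [Group G] {V : Type*} [AddCommGroup V] [Module ℂ V]
    (ρ : Representation ℂ G V) (g : G) : (PRep.ofRep ρ).op g = ρ g := rfl

theorem PRep.ofRep_irr {G : Type*} [Group G] {V : Type*} [AddCommGroup V] [Module ℂ V]
    (ρ : Representation ℂ G V) [ρ.IsIrreducible] : (PRep.ofRep ρ).Irr := by
  refine ⟨nontrivial_of_irreducible ρ, ?_⟩
  intro W hW
  let W' : Subrepresentation ρ :=
    ⟨W, fun g v hv => hW _ ⟨g, Set.mem_univ _, rfl⟩ v hv⟩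
  rcases eq_bot_or_eq_top W' with h | h
  · left
    exact congrArg Subrepresentation.toSubmodule h
  · right
    exact congrArg Subrepresentation.toSubmodule h

universe u

/-- The inequalities at all primes give the divisibility for linear characters. -/
theorem dvd_of_PP {G : Type u} [Group G] [Finite G] (h : ∀ p : ℕ, p.Prime → PP p G) {V : Type*}
    [AddCommGroup V] [Module ℂ V] [FiniteDimensional ℂ V] (ρ : Representation ℂ G V)
    [ρ.IsIrreducible] (x : G) (hx : ρ.character x ≠ 0) :
    orderOf x * Module.finrank ℂ V ∣ Nat.card G := by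
  have hn0 := finrank_pos_of_irreducible ρ
  have hx0 : orderOf x ≠ 0 := (orderOf_pos x).ne'
  rw [← Nat.factorization_prime_le_iff_dvd (mul_ne_zero hx0 hn0.ne') Nat.card_pos.ne']
  intro p hp
  rw [Nat.factorization_mul hx0 hn0.ne']
  exact (h p hp).apply' (PRep.ofRep ρ) (PRep.ofRep_irr ρ) x hx

/-- The almost simple criterion. -/
theorem ASat_of_criterion {p : ℕ} (hp : p.Prime) (A : Type u) [Group A] [Finite A]
    (h : ∀ (S : Subgroup A) (y : A), S.Normal → IsSimpleGroup S →
      (¬ ∀ a ∈ S, ∀ b ∈ S, a * b = b * a) → Subgroup.centralizer (S : Set A) = ⊥ →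
      S ⊔ Subgroup.zpowers y = ⊤ →
      ¬ p ^ 4 ∣ Nat.card S ∨ (∀ s ∈ S, orderOf s ≠ p ^ 2) ∨
      ∃ u ∈ Subgroup.zpowers y, orderOf u = p ^ (orderOf y).factorization p ∧
        ¬ p ^ 2 ∣ (Subgroup.centralizer {u}).relIndex
          (Subgroup.normalizer (Subgroup.zpowers u : Set A))) : ASat p A := by
  intro S hSn hSs hSab hSC V _ _ _ T hT y hgen hy
  rcases h S y hSn hSs hSab hSC hgen with h1 | h1 | ⟨u, hu, hou, hm⟩
  · refine T.small_base hT.irr S y hgen hy hp ?_
    by_contra hcon
    push Not at hcon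
    exact h1 ((hp.pow_dvd_iff_le_factorization Nat.card_pos.ne').mpr hcon)
  · exact T.exponent_base' hT.irr S y hgen hy hp h1
  · exact T.fusion_base hT.irr y hy hp u hu hou hm

/-- The criterion in terms of almost simple sections. -/
theorem PP_of_criterion {p : ℕ} (hp : p.Prime) (G : Type u) [Group G] [Finite G]
    (h : ∀ (H : Subgroup G) (A : Type u) [Group A] (π : H →* A), Function.Surjective π →
      ∀ (S : Subgroup A) (y : A), S.Normal → IsSimpleGroup S →
      (¬ ∀ a ∈ S, ∀ b ∈ S, a * b = b * a) → Subgroup.centralizer (S : Set A) = ⊥ →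
      S ⊔ Subgroup.zpowers y = ⊤ →
      ¬ p ^ 4 ∣ Nat.card S ∨ (∀ s ∈ S, orderOf s ≠ p ^ 2) ∨
      ∃ u ∈ Subgroup.zpowers y, orderOf u = p ^ (orderOf y).factorization p ∧
        ¬ p ^ 2 ∣ (Subgroup.centralizer {u}).relIndex
          (Subgroup.normalizer (Subgroup.zpowers u : Set A))) : PP p G := by
  apply reduction hp G
  rintro A _ ⟨H, π, hπ⟩
  have : Finite A := Finite.of_surjective π hπ
  exact ASat_of_criterion hp A (h H A π hπ)

/-- The criterion in terms of simple sections. -/
theorem PP_of_simple {p : ℕ} (hp : p.Prime) (G : Type u) [Group G] [Finite G]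
    (h : ∀ (H : Subgroup G) (K : Subgroup H) [K.Normal], IsSimpleGroup (H ⧸ K) →
      (¬ ∀ a b : H ⧸ K, a * b = b * a) →
      ¬ p ^ 4 ∣ Nat.card (H ⧸ K) ∨ ∀ s : H ⧸ K, orderOf s ≠ p ^ 2) : PP p G := by
  apply PP_of_criterion hp G
  intro H A _ π hπ S y hSn hSs hSab _ _
  -- the section of `G` isomorphic to `S`
  let H' : Subgroup G := (S.comap π).map H.subtype
  let e : (S.comap π) ≃* H' := (S.comap π).equivMapOfInjective H.subtype H.subtype_injective
  let f : H' →* S := (π.subgroupComap S).comp e.symm.toMonoidHom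
  have hf : Function.Surjective f :=
    (MonoidHom.subgroupComap_surjective_of_surjective _ _ hπ).comp e.symm.surjective
  let ε : H' ⧸ f.ker ≃* S := QuotientGroup.quotientKerEquivOfSurjective f hf
  have hs : IsSimpleGroup (H' ⧸ f.ker) := by
    have : Nontrivial (H' ⧸ f.ker) := ε.toEquiv.nontrivial
    exact IsSimpleGroup.isSimpleGroup_of_surjective ε.symm.toMonoidHom ε.symm.surjective
  have hab : ¬ ∀ a b : H' ⧸ f.ker, a * b = b * a := by
    intro hc
    apply hSab
    intro a ha b hb
    have h1 := congrArg ε (hc (ε.symm ⟨a, ha⟩) (ε.symm ⟨b, hb⟩))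
    rw [map_mul, map_mul, MulEquiv.apply_symm_apply, MulEquiv.apply_symm_apply] at h1
    exact congrArg Subtype.val h1
  rcases h H' f.ker hs hab with h1 | h1
  · left
    rwa [Nat.card_congr ε.toEquiv] at h1
  · right; left
    intro s hs hos
    apply h1 (ε.symm ⟨s, hs⟩)
    rw [MulEquiv.orderOf_eq, Subgroup.orderOf_mk, hos]

end Pool.Agent.H42.Wilde
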